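import Pool.Agent.Helper59.Gap.Defs

set_option autoImplicit false

/-! Stability argument along a composition series. -/

open scoped commutatorElement

namespace Pool.Agent.Helper59.Gap

namespace Chain

variable {H : Type} [Group H]

/-- invariant subgroups -/
def Inv (H : Type) [Group H] {E : Type} [AddCommGroup E] [DistribMulAction H E] (W : AddSubgroup E) : Prop :=
  ∀ h : H, ∀ w ∈ W, h • w ∈ W

/-- action on an invariant subgroup -/
@[reducible] def subAct {E : Type} [AddCommGroup E] [DistribMulAction H E] (W : AddSubgroup E)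
    (hW : Inv H W) : DistribMulAction H W where
  smul h w := ⟨h • w.1, hW h w.1 w.2⟩
  one_smul w := Subtype.ext (one_smul H w.1)
  mul_smul a b w := Subtype.ext (mul_smul a b w.1)
  smul_zero h := Subtype.ext (smul_zero h)
  smul_add h v w := Subtype.ext (smul_add h v.1 w.1)

/-- action on the quotient by an invariant subgroup -/
@[reducible] def quotAct {E : Type} [AddCommGroup E] [DistribMulAction H E] (W : AddSubgroup E)
    (hW : Inv H W) : DistribMulAction H (E ⧸ W) where
  smul h := QuotientAddGroup.map W W (DistribSMul.toAddMonoidHom E h) (fun w hw => hW h w hw)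
  one_smul q := by
    induction q using QuotientAddGroup.induction_on with
    | H x => exact congrArg _ (one_smul H x)
  mul_smul a b q := by
    induction q using QuotientAddGroup.induction_on with
    | H x => exact congrArg _ (mul_smul a b x)
  smul_zero h := map_zero (QuotientAddGroup.map W W (DistribSMul.toAddMonoidHom E h)
    (fun w hw => hW h w hw))
  smul_add h v w := map_add (QuotientAddGroup.map W W (DistribSMul.toAddMonoidHom E h)
    (fun w hw => hW h w hw)) v w

/-- a filtration of length `L` on whose factors `Y` acts trivially -/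
def HasChain (Y : Subgroup H) (E : Type) [AddCommGroup E] [DistribMulAction H E] (L : ℕ) : Prop :=
  ∃ C : ℕ → AddSubgroup E, C 0 = ⊥ ∧ (∀ i, L ≤ i → C i = ⊤) ∧ (∀ i, C i ≤ C (i + 1)) ∧
    ∀ i, ∀ h ∈ Y, ∀ x ∈ C (i + 1), h • x - x ∈ C i

theorem exists_chain (Y : Subgroup H) (L : ℕ) : ∀ (E : Type) [AddCommGroup E] [Finite E]
    [DistribMulAction H E], Nat.card E ≤ 2 ^ L →
    (∀ (F : Type) [AddCommGroup F] [Finite F] [Nontrivial F] [DistribMulAction H F],
      Irr H F → Nat.card F ∣ Nat.card E → TrivOn Y F) → HasChain Y E L := by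
  induction L with
  | zero =>
    intro E _ _ _ hcard _
    have hsub : Subsingleton E := by
      rw [← Finite.card_le_one_iff_subsingleton]
      simpa using hcard
    refine ⟨fun _ => ⊤, ?_, fun _ _ => rfl, fun _ => le_rfl, fun _ _ _ _ _ => trivial⟩
    exact Subsingleton.elim _ _
  | succ L ih =>
    intro E _ _ _ hcard hF
    rcases subsingleton_or_nontrivial E with hsub | hnt
    · refine ⟨fun _ => ⊤, ?_, fun _ _ => rfl, fun _ => le_rfl, fun _ _ _ _ _ => trivial⟩
      exact Subsingleton.elim _ _
    -- a maximal proper invariant subgroup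
    have hfin : (Set.univ : Set (AddSubgroup E)).Finite := Set.toFinite _
    obtain ⟨W, hWm⟩ : ∃ W, Maximal (fun W : AddSubgroup E => Inv H W ∧ W ≠ ⊤) W := by
      have hS : ({W : AddSubgroup E | Inv H W ∧ W ≠ ⊤}).Finite := Set.toFinite _
      have hne : ({W : AddSubgroup E | Inv H W ∧ W ≠ ⊤}).Nonempty := by
        refine ⟨⊥, ?_, bot_ne_top⟩
        intro h w hw
        rw [AddSubgroup.mem_bot] at hw ⊢
        rw [hw, smul_zero]
      exact hS.exists_maximal hne
    obtain ⟨⟨hWi, hWt⟩, hWmax⟩ := hWm
    letI : DistribMulAction H (E ⧸ W) := quotAct W hWi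
    letI : DistribMulAction H W := subAct W hWi
    have hmk : ∀ (h : H) (x : E), h • (QuotientAddGroup.mk x : E ⧸ W) = QuotientAddGroup.mk (h • x) :=
      fun h x => rfl
    have hnt' : Nontrivial (E ⧸ W) := by
      rw [← not_subsingleton_iff_nontrivial]
      intro hs
      apply hWt
      rw [eq_top_iff]
      intro x _
      have : (QuotientAddGroup.mk x : E ⧸ W) = 0 := Subsingleton.elim _ _
      exact (QuotientAddGroup.eq_zero_iff x).1 this
    have hirr : Irr H (E ⧸ W) := by
      intro U hU
      have hcom : Inv H (U.comap (QuotientAddGroup.mk' W)) := by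
        intro h w hw
        rw [AddSubgroup.mem_comap] at hw ⊢
        exact hU h _ hw
      have hle : W ≤ U.comap (QuotientAddGroup.mk' W) := by
        intro w hw
        rw [AddSubgroup.mem_comap]
        have : QuotientAddGroup.mk' W w = 0 := (QuotientAddGroup.eq_zero_iff w).2 hw
        rw [this]
        exact U.zero_mem
      by_cases htop : U.comap (QuotientAddGroup.mk' W) = ⊤
      · right
        rw [eq_top_iff]
        intro q _
        induction q using QuotientAddGroup.induction_on with
        | H x =>
          have : x ∈ U.comap (QuotientAddGroup.mk' W) := by rw [htop]; trivial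
          exact this
      · left
        have hle' : U.comap (QuotientAddGroup.mk' W) ≤ W := hWmax ⟨hcom, htop⟩ hle
        rw [eq_bot_iff]
        intro q hq
        induction q using QuotientAddGroup.induction_on with
        | H x =>
          have : x ∈ W := hle' hq
          exact (QuotientAddGroup.eq_zero_iff x).2 this
    have hmul : Nat.card E = Nat.card (E ⧸ W) * Nat.card W := AddSubgroup.card_eq_card_quotient_mul_card_addSubgroup W
    have htriv : TrivOn Y (E ⧸ W) := hF (E ⧸ W) hirr ⟨_, hmul⟩
    have h2 : 2 ≤ Nat.card (E ⧸ W) := Finite.one_lt_card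
    have hWc : Nat.card W ≤ 2 ^ L := by
      by_contra hcon
      push Not at hcon
      have h3 : 2 * (2 ^ L + 1) ≤ Nat.card (E ⧸ W) * Nat.card W := Nat.mul_le_mul h2 hcon
      rw [← hmul] at h3
      rw [pow_succ] at hcard
      omega
    obtain ⟨C', hC0, hCL, hCm, hCY⟩ := ih W hWc (by
      intro F _ _ _ _ hFi hFd
      exact hF F hFi (hFd.trans ⟨Nat.card (E ⧸ W), by rw [hmul, mul_comm]⟩))
    refine ⟨fun i => if i ≤ L then (C' i).map W.subtype else ⊤, ?_, ?_, ?_, ?_⟩
    · simp [hC0]
    · intro i hi
      have : ¬ i ≤ L := by omega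
      simp [this]
    · intro i
      by_cases h1 : i + 1 ≤ L
      · have h0 : i ≤ L := by omega
        simp only [h1, h0, if_true]
        exact AddSubgroup.map_mono (hCm i)
      · simp [h1]
    · intro i h hh x hx
      by_cases h1 : i + 1 ≤ L
      · have h0 : i ≤ L := by omega
        simp only [h1, if_true] at hx
        simp only [h0, if_true]
        obtain ⟨y, hy, rfl⟩ := hx
        exact ⟨h • y - y, hCY i h hh y hy, rfl⟩
      · by_cases h0 : i ≤ L
        · have hiL : i = L := by omega
          subst hiL
          simp only [le_refl, if_true]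
          have hx2 : h • (QuotientAddGroup.mk x : E ⧸ W) = QuotientAddGroup.mk x := htriv h hh _
          rw [hmk] at hx2
          have hx3 : h • x - x ∈ W := by
            have := (QuotientAddGroup.eq_iff_sub_mem (N := W)).1 hx2
            exact this
          refine ⟨⟨h • x - x, hx3⟩, ?_, rfl⟩
          rw [hCL i le_rfl]
          trivial
        · simp [h0]

end Chain

/-- Module GAP-5 (file Pool/Agent/Helper59/Gap/Chain.lean). A group acting on a finite abelian group
`E` such that the `j`-th derived subgroup acts trivially on the irreducible sections. -/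
theorem chain_triv (H : Type) [Group H] (E : Type) [AddCommGroup E] [Finite E]
    [DistribMulAction H E] (L j t : ℕ) (hL : Nat.card E ≤ 2 ^ L) (ht : L ≤ 2 ^ t)
    (hj : ∀ (F : Type) [AddCommGroup F] [Finite F] [Nontrivial F] [DistribMulAction H F],
      Irr H F → Nat.card F ∣ Nat.card E → TrivOn (derivedSeries H j) F) :
    TrivOn (derivedSeries H (j + t)) E := by
  obtain ⟨C, hC0, hCL, hCm, hCY⟩ := Chain.exists_chain (derivedSeries H j) L E hL hj
  have hmono : Monotone C := monotone_nat_of_le_succ hCm
  have hpres : ∀ h ∈ derivedSeries H j, ∀ i, ∀ x ∈ C i, h • x ∈ C i := by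
    intro h hh i x hx
    have h1 := hCY i h hh x (hCm i hx)
    have : h • x = (h • x - x) + x := by abel
    rw [this]
    exact (C i).add_mem h1 hx
  -- the filtration of the group
  let Z : ℕ → Subgroup H := fun a =>
    { carrier := {h | h ∈ derivedSeries H j ∧ ∀ i, ∀ x ∈ C i, h • x - x ∈ C (i - a)}
      one_mem' := ⟨one_mem _, fun i x _ => by rw [one_smul, sub_self]; exact zero_mem _⟩
      mul_mem' := by
        rintro g h ⟨hg, hg'⟩ ⟨hh, hh'⟩
        refine ⟨mul_mem hg hh, fun i x hx => ?_⟩
        have e : (g * h) • x - x = (g • (h • x) - h • x) + (h • x - x) := by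
          rw [mul_smul]; abel
        rw [e]
        exact add_mem (hg' i _ (hpres h hh i x hx)) (hh' i x hx)
      inv_mem' := by
        rintro h ⟨hh, hh'⟩
        refine ⟨inv_mem hh, fun i x hx => ?_⟩
        have e : h⁻¹ • x - x = -(h⁻¹ • (h • x - x)) := by
          rw [smul_sub, inv_smul_smul]; abel
        rw [e]
        exact neg_mem (hpres h⁻¹ (inv_mem hh) _ _ (hh' i x hx)) }
  have hZ : ∀ a h, h ∈ Z a ↔ h ∈ derivedSeries H j ∧ ∀ i, ∀ x ∈ C i, h • x - x ∈ C (i - a) :=
    fun a h => Iff.rfl
  have hcomm : ∀ a, ⁅Z a, Z a⁆ ≤ Z (2 * a) := by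
    intro a
    rw [Subgroup.commutator_le]
    rintro g hg h hh
    rw [hZ] at hg hh
    rw [hZ]
    refine ⟨?_, fun i x hx => ?_⟩
    · rw [commutatorElement_def]
      exact mul_mem (mul_mem (mul_mem hg.1 hh.1) (inv_mem hg.1)) (inv_mem hh.1)
    · set z := g⁻¹ • (h⁻¹ • x) with hz
      have hzC : z ∈ C i := hpres _ (inv_mem hg.1) i _ (hpres _ (inv_mem hh.1) i x hx)
      have e1 : ⁅g, h⁆ • x = g • (h • z) := by
        rw [commutatorElement_def, hz]
        simp only [mul_smul]
      have e2 : x = h • (g • z) := by
        rw [hz, smul_inv_smul, smul_inv_smul]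
      have e3 : ⁅g, h⁆ • x - x = (g • (h • z - z) - (h • z - z)) - (h • (g • z - z) - (g • z - z)) := by
        rw [e1]
        conv_lhs => rw [e2]
        simp only [smul_sub]
        abel
      rw [e3]
      have e4 : i - 2 * a = i - a - a := by omega
      rw [e4]
      exact sub_mem (hg.2 _ _ (hh.2 i z hzC)) (hh.2 _ _ (hg.2 i z hzC))
  have hder : ∀ s, derivedSeries H (j + s) ≤ Z (2 ^ s) := by
    intro s
    induction s with
    | zero =>
      intro h hh
      rw [hZ]
      refine ⟨hh, fun i x hx => ?_⟩
      cases i with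
      | zero =>
        rw [hC0, AddSubgroup.mem_bot] at hx
        rw [hx, smul_zero, sub_zero]
        exact zero_mem _
      | succ i =>
        have := hCY i h hh x hx
        simpa using this
    | succ s ih =>
      have e : j + (s + 1) = (j + s) + 1 := by omega
      rw [e, derivedSeries_succ, pow_succ, mul_comm]
      exact (Subgroup.commutator_mono ih ih).trans (hcomm _)
  intro h hh x
  have h1 := (hZ _ _).1 (hder t hh)
  have h2 := h1.2 L x (by rw [hCL L le_rfl]; trivial)
  have h3 : L - 2 ^ t = 0 := by omega
  rw [h3, hC0, AddSubgroup.mem_bot] at h2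
  exact sub_eq_zero.1 h2

end Pool.Agent.Helper59.Gap
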