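import Mathlib

set_option autoImplicit false

/-!
# The growth gap for residually soluble groups: basic definitions

Outer commutator words are encoded by binary trees; the cost of a tree is the length of the
corresponding word.
-/

namespace Pool.Agent.Helper59.Gap

/-- Binary trees (outer commutator words). -/
inductive Tr : Type
  | leaf : Tr
  | node : Tr → Tr → Tr

namespace Tr

/-- The length of the outer commutator word. -/
def cost : Tr → ℕ
  | leaf => 1
  | node l r => 2 * (l.cost + r.cost)

/-- The depth of the tree. -/
def depth : Tr → ℕ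
  | leaf => 0
  | node l r => max l.depth r.depth + 1

/-- The subgroup attached to an outer commutator word. -/
def sub (G : Type) [Group G] : Tr → Subgroup G
  | leaf => ⊤
  | node l r => ⁅l.sub G, r.sub G⁆

/-- The tree of the derived series. -/
def der : ℕ → Tr
  | 0 => leaf
  | n + 1 => node (der n) (der n)

/-- Composition: every leaf of `τ` is replaced by `σ`. -/
def comp : Tr → Tr → Tr
  | leaf, σ => σ
  | node l r, σ => node (l.comp σ) (r.comp σ)

theorem one_le_cost (τ : Tr) : 1 ≤ τ.cost := by
  cases τ with
  | leaf => exact le_rfl
  | node l r => simp only [cost]; have := one_le_cost l; omega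

theorem cost_der (n : ℕ) : (der n).cost = 4 ^ n := by
  induction n with
  | zero => rfl
  | succ n ih => simp only [der, cost, ih]; ring

theorem cost_comp (τ σ : Tr) : (τ.comp σ).cost = τ.cost * σ.cost := by
  induction τ with
  | leaf => simp [comp, cost]
  | node l r hl hr => simp only [comp, cost, hl, hr]; ring

theorem depth_der (n : ℕ) : (der n).depth = n := by
  induction n with
  | zero => rfl
  | succ n ih => simp [der, depth, ih]

theorem depth_lt_cost (τ : Tr) : τ.depth < τ.cost := by
  induction τ with
  | leaf => simp [depth, cost]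
  | node l r hl hr => simp only [depth, cost]; omega

variable {G H : Type} [Group G] [Group H]

theorem sub_der (n : ℕ) : (der n).sub G = derivedSeries G n := by
  induction n with
  | zero => rfl
  | succ n ih => simp only [der, sub, ih]; rfl

theorem map_sub (f : G →* H) (hf : Function.Surjective f) (τ : Tr) :
    (τ.sub G).map f = τ.sub H := by
  induction τ with
  | leaf => exact Subgroup.map_top_of_surjective f hf
  | node l r hl hr => simp only [sub, Subgroup.map_commutator, hl, hr]

theorem map_sub_le (f : G →* H) (τ : Tr) : (τ.sub G).map f ≤ τ.sub H := by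
  induction τ with
  | leaf => exact le_top
  | node l r hl hr =>
    simp only [sub, Subgroup.map_commutator]
    exact Subgroup.commutator_mono hl hr

instance sub_normal (τ : Tr) : (τ.sub G).Normal := by
  induction τ with
  | leaf => exact (inferInstance : (⊤ : Subgroup G).Normal)
  | node l r hl hr => exact Subgroup.commutator_normal _ _

theorem derivedSeries_le_sub (τ : Tr) (n : ℕ) (h : τ.depth ≤ n) :
    derivedSeries G n ≤ τ.sub G := by
  induction τ generalizing n with
  | leaf => exact le_top
  | node l r hl hr =>
    simp only [depth] at h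
    obtain ⟨m, rfl⟩ : ∃ m, n = m + 1 := ⟨n - 1, by omega⟩
    rw [derivedSeries_succ]
    exact Subgroup.commutator_mono (hl m (by omega)) (hr m (by omega))

/-- The image in `G` of the subgroup attached to `τ` in a subgroup `K` of `G`. -/
theorem sub_comp (τ σ : Tr) :
    (τ.comp σ).sub G = (τ.sub (σ.sub G)).map (σ.sub G).subtype := by
  induction τ with
  | leaf => simp [comp, sub, ← MonoidHom.range_eq_map]
  | node l r hl hr => simp only [comp, sub, Subgroup.map_commutator, hl, hr]

theorem sub_comp_le (τ σ : Tr) (K : Subgroup G) (h : σ.sub G ≤ K) :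
    (τ.comp σ).sub G ≤ (τ.sub K).map K.subtype := by
  rw [sub_comp]
  rintro _ ⟨x, hx, rfl⟩
  refine ⟨Subgroup.inclusion h x, ?_, rfl⟩
  exact map_sub_le (Subgroup.inclusion h) τ ⟨x, hx, rfl⟩

/-- The subgroups attached to outer commutator words are invariant under conjugation by a group in
which `K` is normal. -/
theorem map_sub_normal (K : Subgroup G) [K.Normal] (τ : Tr) :
    ((τ.sub K).map K.subtype).Normal := by
  refine ⟨?_⟩
  rintro _ ⟨x, hx, rfl⟩ g
  let c : K ≃* K := MulAut.conjNormal g
  refine ⟨c x, ?_, ?_⟩
  · exact map_sub_le c.toMonoidHom τ ⟨x, hx, rfl⟩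
  · exact MulAut.conjNormal_apply g x

end Tr

/-- `H` acts irreducibly on the abelian group `V`. -/
def Irr (H V : Type) [Group H] [AddCommGroup V] [DistribMulAction H V] : Prop :=
  ∀ W : AddSubgroup V, (∀ h : H, ∀ w ∈ W, h • w ∈ W) → W = ⊥ ∨ W = ⊤

/-- The elements of `S` act trivially on `X`. -/
def TrivOn {H : Type} [Group H] (S : Subgroup H) (X : Type) [SMul H X] : Prop :=
  ∀ h ∈ S, ∀ x : X, h • x = x

end Pool.Agent.Helper59.Gap
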