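import Pool.Agent.Helper59.Gap.Defs

set_option autoImplicit false

/-!
# Balls, independent chains of elements, generation of normal closures by short elements
-/

namespace Pool.Agent.Helper59.Gap

open scoped commutatorElement

variable {G : Type} [Group G]

/-- The ball of radius `n`. -/
def ball (S : Finset G) (n : ℕ) : Set G :=
  {g | ∃ l : List G, l.length ≤ n ∧ (∀ x ∈ l, x ∈ S) ∧ l.prod = g}

theorem ball_mono (S : Finset G) {m n : ℕ} (h : m ≤ n) : ball S m ⊆ ball S n := by
  rintro g ⟨l, hl, hx, rfl⟩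
  exact ⟨l, hl.trans h, hx, rfl⟩

theorem one_mem_ball (S : Finset G) (n : ℕ) : (1 : G) ∈ ball S n :=
  ⟨[], by simp, by simp, by simp⟩

theorem mul_mem_ball (S : Finset G) {m n : ℕ} {g h : G} (hg : g ∈ ball S m) (hh : h ∈ ball S n) :
    g * h ∈ ball S (m + n) := by
  obtain ⟨l, hl, hx, rfl⟩ := hg
  obtain ⟨l', hl', hx', rfl⟩ := hh
  refine ⟨l ++ l', by simp; omega, ?_, by simp⟩
  intro x hx2
  rcases List.mem_append.1 hx2 with h | h
  · exact hx x h
  · exact hx' x h

theorem inv_mem_ball (S : Finset G) (hS : ∀ s ∈ S, s⁻¹ ∈ S) {n : ℕ} {g : G} (hg : g ∈ ball S n) :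
    g⁻¹ ∈ ball S n := by
  obtain ⟨l, hl, hx, rfl⟩ := hg
  refine ⟨(l.map (fun x => x⁻¹)).reverse, by simpa using hl, ?_, ?_⟩
  · intro x hx2
    simp only [List.mem_reverse, List.mem_map] at hx2
    obtain ⟨y, hy, rfl⟩ := hx2
    exact hS y (hx y hy)
  · rw [List.prod_inv_reverse]

theorem mem_ball_one (S : Finset G) {s : G} (hs : s ∈ S) : s ∈ ball S 1 :=
  ⟨[s], by simp, by simpa using hs, by simp⟩

theorem ball_succ_subset (S : Finset G) (n : ℕ) :
    ball S (n + 1) ⊆ {1} ∪ Set.image2 (fun a b => a * b) (S : Set G) (ball S n) := by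
  rintro g ⟨l, hl, hx, rfl⟩
  cases l with
  | nil => left; simp
  | cons a l =>
    right
    refine ⟨a, hx a (by simp), l.prod, ⟨l, by simpa using hl, fun x hx2 => hx x (by simp [hx2]),
      rfl⟩, by simp⟩

theorem finite_ball (S : Finset G) (n : ℕ) : (ball S n).Finite := by
  induction n with
  | zero =>
    refine (Set.finite_singleton (1 : G)).subset ?_
    rintro g ⟨l, hl, -, rfl⟩
    have : l = [] := List.length_eq_zero_iff.1 (by omega)
    simp [this]
  | succ n ih =>
    refine Set.Finite.subset ?_ (ball_succ_subset S n)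
    exact (Set.finite_singleton _).union (Set.Finite.image2 _ S.finite_toSet ih)

theorem exists_mem_ball (S : Finset G) (hS : ∀ s ∈ S, s⁻¹ ∈ S)
    (hgen : Subgroup.closure (S : Set G) = ⊤) (g : G) : ∃ n, g ∈ ball S n := by
  have hg : g ∈ Subgroup.closure (S : Set G) := by rw [hgen]; trivial
  induction hg using Subgroup.closure_induction with
  | mem x hx => exact ⟨1, mem_ball_one S hx⟩
  | one => exact ⟨0, one_mem_ball S 0⟩
  | mul x y _ _ hx hy =>
    obtain ⟨m, hm⟩ := hx
    obtain ⟨n, hn⟩ := hy
    exact ⟨m + n, mul_mem_ball S hm hn⟩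
  | inv x _ hx =>
    obtain ⟨m, hm⟩ := hx
    exact ⟨m, inv_mem_ball S hS hm⟩

/-- Independent chains of elements: `2 ^ M ≤ γ (M ℓ)`. -/
theorem two_pow_le (S : Finset G) (l M : ℕ) (x : ℕ → G) (hx : ∀ i < M, x i ∈ ball S l)
    (hind : ∀ i < M, x i ∉ Subgroup.closure (x '' {j | j < i})) :
    2 ^ M ≤ Nat.card (ball S (M * l)) := by
  classical
  have key : ∀ m ≤ M, ∃ T : Finset G, T.card = 2 ^ m ∧
      ∀ t ∈ T, t ∈ ball S (m * l) ∧ t ∈ Subgroup.closure (x '' {j | j < m}) := by
    intro m
    induction m with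
    | zero =>
      intro _
      refine ⟨{1}, by simp, ?_⟩
      intro t ht
      rw [Finset.mem_singleton] at ht
      subst ht
      exact ⟨one_mem_ball S _, one_mem _⟩
    | succ m ih =>
      intro hm
      obtain ⟨T, hT, hT2⟩ := ih (by omega)
      refine ⟨T ∪ T.image (fun t => t * x m), ?_, ?_⟩
      · rw [Finset.card_union_of_disjoint, Finset.card_image_of_injective _ (mul_left_injective _),
          hT, pow_succ, mul_two]
        rw [Finset.disjoint_left]
        intro t ht ht2
        obtain ⟨s, hs, hst⟩ := Finset.mem_image.1 ht2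
        refine hind m (by omega) ?_
        have : x m = s⁻¹ * t := by rw [← hst]; group
        rw [this]
        exact mul_mem (inv_mem (hT2 s hs).2) (hT2 t ht).2
      · intro t ht
        have hmono : Subgroup.closure (x '' {j | j < m}) ≤ Subgroup.closure (x '' {j | j < m + 1}) :=
          Subgroup.closure_mono (Set.image_mono (fun j (hj : j < m) => (by
            show j < m + 1
            omega)))
        rcases Finset.mem_union.1 ht with ht | ht
        · exact ⟨ball_mono S (by nlinarith) (hT2 t ht).1, hmono (hT2 t ht).2⟩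
        · obtain ⟨s, hs, rfl⟩ := Finset.mem_image.1 ht
          refine ⟨?_, mul_mem (hmono (hT2 s hs).2) (Subgroup.subset_closure ⟨m, by
            show m < m + 1
            omega, rfl⟩)⟩
          have := mul_mem_ball S (hT2 s hs).1 (hx m (by omega))
          rwa [add_mul, one_mul]
  obtain ⟨T, hT, hT2⟩ := key M le_rfl
  rw [← hT]
  have hsub : (T : Set G) ⊆ ball S (M * l) := fun t ht => (hT2 t ht).1
  have := Nat.card_mono (finite_ball S (M * l)) hsub
  simpa using this

/-- `N` is generated by its elements of length at most `l`. -/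
def GenBy (S : Finset G) (l : ℕ) (N : Subgroup G) : Prop :=
  N ≤ Subgroup.closure ((N : Set G) ∩ ball S l)

theorem GenBy.mono {S : Finset G} {l l' : ℕ} {N : Subgroup G} (h : GenBy S l N) (hl : l ≤ l') :
    GenBy S l' N :=
  h.trans (Subgroup.closure_mono (Set.inter_subset_inter_right _ (ball_mono S hl)))

theorem GenBy.eq {S : Finset G} {l : ℕ} {N : Subgroup G} (h : GenBy S l N) :
    Subgroup.closure ((N : Set G) ∩ ball S l) = N :=
  le_antisymm ((Subgroup.closure_le _).2 Set.inter_subset_left) h

theorem GenBy.fg {S : Finset G} {l : ℕ} {N : Subgroup G} (h : GenBy S l N) : N.FG := by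
  rw [Subgroup.fg_iff]
  exact ⟨_, h.eq, (finite_ball S l).subset Set.inter_subset_right⟩

/-- The normal closure of one short element is generated by short elements. -/
theorem normalClosure_single (S : Finset G) (hS : ∀ s ∈ S, s⁻¹ ∈ S)
    (hgen : Subgroup.closure (S : Set G) = ⊤) (l m : ℕ)
    (hm : Nat.card (ball S (m * (l + 2 * m))) < 2 ^ m) (v : G) (hv : v ∈ ball S l) :
    Subgroup.normalClosure {v} ≤
      Subgroup.closure ((Subgroup.normalClosure {v} : Set G) ∩ ball S (l + 2 * m)) := by
  classical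
  set P : ℕ → Subgroup G := fun n => Subgroup.closure {y | ∃ g ∈ ball S n, y = g * v * g⁻¹} with hP
  have hPmono : ∀ {a b : ℕ}, a ≤ b → P a ≤ P b := by
    intro a b hab
    refine Subgroup.closure_mono ?_
    rintro y ⟨g, hg, rfl⟩
    exact ⟨g, ball_mono S hab hg, rfl⟩
  have hstab : ∃ n < m, P (n + 1) ≤ P n := by
    by_contra hcon
    push Not at hcon
    have hex : ∀ n, ∃ y : G, n < m → (y ∉ P n ∧ ∃ g ∈ ball S (n + 1), y = g * v * g⁻¹) := by
      intro n
      by_cases hn : n < m
      · have h1 := hcon n hn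
        have h2 : ¬ ({y | ∃ g ∈ ball S (n + 1), y = g * v * g⁻¹} : Set G) ⊆ P n := by
          intro h3
          exact h1 ((Subgroup.closure_le _).2 h3)
        rw [Set.not_subset] at h2
        obtain ⟨y, hy, hy2⟩ := h2
        exact ⟨y, fun _ => ⟨hy2, hy⟩⟩
      · exact ⟨1, fun h => absurd h hn⟩
    choose x hx using hex
    have h1 := two_pow_le S (l + 2 * m) m x ?_ ?_
    · omega
    · intro i hi
      obtain ⟨-, g, hg, hxi⟩ := hx i hi
      rw [hxi]
      have h2 := mul_mem_ball S (mul_mem_ball S hg hv) (inv_mem_ball S hS hg)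
      exact ball_mono S (by omega) h2
    · intro i hi hmem
      refine (hx i hi).1 ?_
      have hle : Subgroup.closure (x '' {j | j < i}) ≤ P i := by
        refine (Subgroup.closure_le _).2 ?_
        rintro _ ⟨j, hj, rfl⟩
        have hji : j < i := hj
        obtain ⟨-, g, hg, hxj⟩ := hx j (by omega)
        refine hPmono (show j + 1 ≤ i by omega) ?_
        exact Subgroup.subset_closure ⟨g, hg, hxj⟩
      exact hle hmem
  obtain ⟨n, hn, hle⟩ := hstab
  have hnorm : (P n).Normal := by
    have hs : ∀ s ∈ S, ∀ y ∈ P n, s * y * s⁻¹ ∈ P n := by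
      intro s hs y hy
      refine hle ?_
      have hmap : (P n).map (MulAut.conj s).toMonoidHom ≤ P (n + 1) := by
        rw [hP, MonoidHom.map_closure]
        refine Subgroup.closure_mono ?_
        rintro _ ⟨_, ⟨g, hg, rfl⟩, rfl⟩
        refine ⟨s * g, ?_, ?_⟩
        · have := mul_mem_ball S (mem_ball_one S hs) hg
          rwa [add_comm] at this
        · simp only [MulEquiv.coe_toMonoidHom, MulAut.conj_apply]
          group
      exact hmap ⟨y, hy, by simp [MulAut.conj_apply]⟩
    refine ⟨?_⟩
    intro y hy g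
    have hg : g ∈ Subgroup.closure (S : Set G) := by rw [hgen]; trivial
    revert y
    induction hg using Subgroup.closure_induction with
    | mem s hs' => exact fun y hy => hs s hs' y hy
    | one => intro y hy; simpa using hy
    | mul a b _ _ ha hb =>
      intro y hy
      have := ha _ (hb y hy)
      have h2 : a * b * y * (a * b)⁻¹ = a * (b * y * b⁻¹) * a⁻¹ := by group
      rwa [h2]
    | inv a ha' ha =>
      intro y hy
      obtain ⟨k, hk⟩ := exists_mem_ball S hS hgen a
      clear ha
      obtain ⟨w, hw, hwS, rfl⟩ := hk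
      clear ha' hw
      induction w generalizing y with
      | nil => simpa using hy
      | cons s w ih =>
        have hsS := hwS s (by simp)
        have h3 := hs s⁻¹ (hS s hsS) y hy
        have h4 := ih _ h3 (fun x hx => hwS x (List.mem_cons_of_mem _ hx))
        have h5 : (List.prod (s :: w))⁻¹ * y * (List.prod (s :: w))⁻¹⁻¹
            = w.prod⁻¹ * (s⁻¹ * y * s⁻¹⁻¹) * w.prod⁻¹⁻¹ := by
          rw [List.prod_cons]; group
        rwa [h5]
  have hvP : v ∈ P n := Subgroup.subset_closure ⟨1, one_mem_ball S n, by group⟩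
  have h1 : Subgroup.normalClosure {v} ≤ P n := by
    refine Subgroup.normalClosure_le_normal ?_
    simpa using hvP
  refine h1.trans ?_
  refine Subgroup.closure_mono ?_
  rintro y ⟨g, hg, rfl⟩
  refine ⟨?_, ?_⟩
  · exact (Subgroup.normalClosure_normal (s := ({v} : Set G))).conj_mem v
      (Subgroup.subset_normalClosure (by simp)) g
  · have h2 := mul_mem_ball S (mul_mem_ball S hg hv) (inv_mem_ball S hS hg)
    exact ball_mono S (by omega) h2

/-- The normal closure of a set of short elements is generated by short elements. -/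
theorem normalClosure_genBy (S : Finset G) (hS : ∀ s ∈ S, s⁻¹ ∈ S)
    (hgen : Subgroup.closure (S : Set G) = ⊤) (l m : ℕ)
    (hm : Nat.card (ball S (m * (l + 2 * m))) < 2 ^ m) (X : Set G) (hX : X ⊆ ball S l) :
    GenBy S (l + 2 * m) (Subgroup.normalClosure X) := by
  have key : ∀ v ∈ X, Subgroup.normalClosure {v} ≤
      Subgroup.closure ((Subgroup.normalClosure X : Set G) ∩ ball S (l + 2 * m)) := by
    intro v hv
    refine (normalClosure_single S hS hgen l m hm v (hX hv)).trans ?_
    refine Subgroup.closure_mono (Set.inter_subset_inter_left _ ?_)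
    exact Subgroup.normalClosure_mono (by simpa using hv)
  unfold GenBy
  conv_lhs => rw [Subgroup.normalClosure]
  rw [Subgroup.closure_le]
  intro y hy
  rw [Group.mem_conjugatesOfSet_iff] at hy
  obtain ⟨v, hv, hc⟩ := hy
  obtain ⟨g, hg⟩ := isConj_iff.1 hc
  refine key v hv ?_
  rw [← hg]
  exact (Subgroup.normalClosure_normal (s := ({v} : Set G))).conj_mem v
      (Subgroup.subset_normalClosure (by simp)) g

/-- The commutator of two normal subgroups is the normal closure of the commutators of
generators. -/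
theorem commutator_eq_normalClosure (L R : Subgroup G) [L.Normal] [R.Normal] (X Y : Set G)
    (hX : Subgroup.closure X = L) (hY : Subgroup.closure Y = R) :
    ⁅L, R⁆ = Subgroup.normalClosure {z | ∃ x ∈ X, ∃ y ∈ Y, z = ⁅x, y⁆} := by
  refine le_antisymm ?_ ?_
  · set M := Subgroup.normalClosure {z : G | ∃ x ∈ X, ∃ y ∈ Y, z = ⁅x, y⁆} with hM
    have h1 : (⁅L, R⁆).map (QuotientGroup.mk' M) = ⊥ := by
      rw [Subgroup.map_commutator, Subgroup.commutator_eq_bot_iff_le_centralizer, ← hX, ← hY,
        MonoidHom.map_closure, MonoidHom.map_closure, Subgroup.centralizer_closure,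
        Subgroup.closure_le]
      rintro _ ⟨x, hx, rfl⟩
      rw [SetLike.mem_coe, Subgroup.mem_centralizer_iff]
      rintro _ ⟨y, hy, rfl⟩
      have h2 : ⁅x, y⁆ ∈ M := Subgroup.subset_normalClosure ⟨x, hx, y, hy, rfl⟩
      have h3 : QuotientGroup.mk' M ⁅x, y⁆ = 1 := by
        rwa [← MonoidHom.mem_ker, QuotientGroup.ker_mk']
      rw [map_commutatorElement, commutatorElement_eq_one_iff_mul_comm] at h3
      exact h3.symm
    rw [Subgroup.map_eq_bot_iff, QuotientGroup.ker_mk'] at h1
    exact h1
  · refine Subgroup.normalClosure_le_normal ?_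
    rintro _ ⟨x, hx, y, hy, rfl⟩
    refine Subgroup.commutator_mem_commutator ?_ ?_
    · rw [← hX]; exact Subgroup.subset_closure hx
    · rw [← hY]; exact Subgroup.subset_closure hy

theorem commutator_mem_ball (S : Finset G) (hS : ∀ s ∈ S, s⁻¹ ∈ S) {m n : ℕ} {x y : G}
    (hx : x ∈ ball S m) (hy : y ∈ ball S n) : ⁅x, y⁆ ∈ ball S (2 * (m + n)) := by
  rw [commutatorElement_def]
  have h1 := mul_mem_ball S (mul_mem_ball S (mul_mem_ball S hx hy) (inv_mem_ball S hS hx))
    (inv_mem_ball S hS hy)
  exact ball_mono S (by omega) h1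

theorem commutator_genBy (S : Finset G) (hS : ∀ s ∈ S, s⁻¹ ∈ S)
    (hgen : Subgroup.closure (S : Set G) = ⊤) (L R : Subgroup G) [L.Normal] [R.Normal]
    (a b m : ℕ) (hL : GenBy S a L) (hR : GenBy S b R)
    (hm : Nat.card (ball S (m * (2 * (a + b) + 2 * m))) < 2 ^ m) :
    GenBy S (2 * (a + b) + 2 * m) ⁅L, R⁆ := by
  rw [commutator_eq_normalClosure L R _ _ hL.eq hR.eq]
  refine normalClosure_genBy S hS hgen _ m hm _ ?_
  rintro _ ⟨x, hx, y, hy, rfl⟩
  exact commutator_mem_ball S hS hx.2 hy.2

end Pool.Agent.Helper59.Gap
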