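import Pool.Agent.Helper59.Gap.Defs

set_option autoImplicit false

/-!
# Module GAP-2: irreducible linear actions of soluble groups
-/

namespace Pool.Agent.Helper59.Gap
namespace Lin

open Subgroup
open scoped commutatorElement

section s1

variable {G : Type} [Group G]

/-- `A` is a maximal abelian normal subgroup -/
def MaxAb (A : Subgroup G) : Prop :=
  Maximal (fun A : Subgroup G => A.Normal ∧ A ≤ centralizer (A : Set G)) A

theorem exists_maxAb [Finite G] : ∃ A : Subgroup G, MaxAb A :=
  exists_maximal_of_wellFoundedGT _ ⟨⊥, inferInstance, bot_le⟩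

theorem commutator_sup_self_le {S A B : Subgroup G} [A.Normal] (hAB : A ≤ B) [B.Normal]
    (h : ⁅S, S⁆ ≤ B) : ⁅S ⊔ A, S ⊔ A⁆ ≤ B := by
  have hk : (QuotientGroup.mk' B).ker = B := QuotientGroup.ker_mk' B
  rw [← hk, ← Subgroup.map_eq_bot_iff, Subgroup.map_commutator, Subgroup.map_sup]
  have hA : A.map (QuotientGroup.mk' B) = ⊥ := by
    rw [Subgroup.map_eq_bot_iff, hk]; exact hAB
  rw [hA, sup_bot_eq, ← Subgroup.map_commutator, Subgroup.map_eq_bot_iff, hk]
  exact h

theorem exists_section [Group.IsSolvable G] {A D : Subgroup G} (hA : A.Normal) (hD : D.Normal)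
    (hAD : A ≤ D) (hne : D ≠ A) :
    ∃ D' : Subgroup G, D'.Normal ∧ A ≤ D' ∧ D' ≤ D ∧ D' ≠ A ∧ ⁅D', D'⁆ ≤ A := by
  classical
  obtain ⟨S, hS0, hSs⟩ : ∃ S : ℕ → Subgroup G, S 0 = D ∧ ∀ i, S (i + 1) = ⁅S i, S i⁆ :=
    ⟨fun i => Nat.rec D (fun _ X => ⁅X, X⁆) i, rfl, fun _ => rfl⟩
  have hSn : ∀ i, (S i).Normal := by
    intro i
    induction i with
    | zero => rw [hS0]; exact hD
    | succ i ih => rw [hSs]; exact Subgroup.commutator_normal (S i) (S i)
  have hSd : ∀ i, S i ≤ derivedSeries G i := by
    intro i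
    induction i with
    | zero => exact le_top
    | succ i ih => rw [hSs, derivedSeries_succ]; exact Subgroup.commutator_mono ih ih
  have hSD : ∀ i, S i ≤ D := by
    intro i
    induction i with
    | zero => exact hS0.le
    | succ i ih =>
      rw [hSs]
      have h2 : (S i).Normal := hSn i
      exact (Subgroup.commutator_le_left (S i) (S i)).trans ih
  have hex : ∃ i, S i ≤ A := by
    obtain ⟨n, hn⟩ := (Group.isSolvable_def G).1 inferInstance
    exact ⟨n, ((hSd n).trans hn.le).trans bot_le⟩
  have h0 : ¬ S 0 ≤ A := fun h => hne (le_antisymm (hS0 ▸ h) hAD)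
  obtain ⟨j, hj0, hj1⟩ : ∃ j, ¬ S j ≤ A ∧ S (j + 1) ≤ A := by
    by_contra hcon
    push Not at hcon
    have hall : ∀ j, ¬ S j ≤ A := by
      intro j
      induction j with
      | zero => exact h0
      | succ j ih => exact hcon j ih
    obtain ⟨i, hi⟩ := hex
    exact hall i hi
  have := hSn j
  refine ⟨S j ⊔ A, Subgroup.sup_normal (S j) A, le_sup_right, sup_le (hSD j) hAD, ?_, ?_⟩
  · intro h
    exact hj0 (h ▸ le_sup_left)
  · exact commutator_sup_self_le le_rfl (by rw [← hSs]; exact hj1)

/-- the conditions on `B` -/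
def MaxB (A B : Subgroup G) : Prop :=
  Maximal (fun B : Subgroup G => B.Normal ∧ A ≤ B ∧ B ≤ centralizer (A : Set G) ∧ ⁅B, B⁆ ≤ A) B

theorem exists_maxB [Finite G] {A : Subgroup G} (hA : MaxAb A) : ∃ B : Subgroup G, MaxB A B :=
  exists_maximal_of_wellFoundedGT _ ⟨A, hA.prop.1, le_rfl, hA.prop.2, by
    have := hA.prop.2
    rw [← Subgroup.commutator_eq_bot_iff_le_centralizer] at this
    rw [this]; exact bot_le⟩

theorem maxAb_eq {A D : Subgroup G} (hA : MaxAb A) (hD : D.Normal) (hAD : A ≤ D)
    (h : D ≤ centralizer (D : Set G)) : D = A :=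
  le_antisymm (hA.2 ⟨hD, h⟩ hAD) hAD

theorem center_B {A B : Subgroup G} (hA : MaxAb A) (hB : MaxB A B) :
    B ⊓ centralizer (B : Set G) = A := by
  have := hB.prop.1
  refine maxAb_eq hA inferInstance ?_ ?_
  · refine le_inf hB.prop.2.1 ?_
    rw [le_centralizer_iff]
    exact hB.prop.2.2.1
  · refine inf_le_right.trans ?_
    exact centralizer_le (by exact_mod_cast inf_le_left)

theorem comm_aux {b b' d d' : G} (h1 : b * d = d * b) (h2 : b * d' = d' * b)
    (h3 : b' * d = d * b') (h4 : b' * d' = d' * b') :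
    ⁅b * d, b' * d'⁆ = ⁅b, b'⁆ * ⁅d, d'⁆ := by
  have e1 : (b * d) * (b' * d') = (b * b') * (d * d') := by
    rw [mul_assoc, ← mul_assoc d b' d', ← h3]; group
  have e2 : (b' * d') * (b * d) = (b' * b) * (d' * d) := by
    rw [mul_assoc, ← mul_assoc d' b d, ← h2]; group
  have c1 : Commute (b * b') (d * d') := by
    have a1 : Commute b d := h1
    have a2 : Commute b d' := h2
    have a3 : Commute b' d := h3
    have a4 : Commute b' d' := h4
    exact (a1.mul_right a2).mul_left (a3.mul_right a4)
  have c2 : Commute (b' * b) (d * d') := by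
    have a1 : Commute b d := h1
    have a2 : Commute b d' := h2
    have a3 : Commute b' d := h3
    have a4 : Commute b' d' := h4
    exact (a3.mul_right a4).mul_left (a1.mul_right a2)
  have c3 : Commute (b' * b) (d' * d) := by
    have a1 : Commute b d := h1
    have a2 : Commute b d' := h2
    have a3 : Commute b' d := h3
    have a4 : Commute b' d' := h4
    exact (a4.mul_right a3).mul_left (a2.mul_right a1)
  have e3 : ∀ x y : G, ⁅x, y⁆ = (x * y) * (y * x)⁻¹ := by
    intro x y; rw [commutatorElement_def]; group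
  rw [e3, e1, e2, e3 b b', e3 d d']
  have c4 : Commute (b' * b)⁻¹ ((d * d') * (d' * d)⁻¹) :=
    (c2.inv_left).mul_right (c3.inv_left.inv_right)
  calc b * b' * (d * d') * (b' * b * (d' * d))⁻¹
      = b * b' * (((d * d') * (d' * d)⁻¹) * (b' * b)⁻¹) := by group
    _ = b * b' * ((b' * b)⁻¹ * ((d * d') * (d' * d)⁻¹)) := by rw [c4.eq]
    _ = b * b' * (b' * b)⁻¹ * (d * d' * (d' * d)⁻¹) := by group

theorem centralizer_B [Group.IsSolvable G] {A B : Subgroup G} (hA : MaxAb A) (hB : MaxB A B) :
    centralizer (B : Set G) = A := by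
  have hBn := hB.prop.1
  have hAB := hB.prop.2.1
  have hBC := hB.prop.2.2.1
  by_contra hne
  have hAD : A ≤ centralizer (B : Set G) := by
    rw [le_centralizer_iff]; exact hBC
  obtain ⟨D, hDn, hAD', hDD, hDA, hcomm⟩ := exists_section hA.prop.1
    (inferInstance : (centralizer (B : Set G)).Normal) hAD hne
  have hadm : B ⊔ D ≤ B := by
    apply hB.2 _ le_sup_left
    refine ⟨inferInstance, hAB.trans le_sup_left, sup_le hBC (hDD.trans ?_), ?_⟩
    · exact centralizer_le (by exact_mod_cast hAB)
    · rw [Subgroup.commutator_le]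
      intro x hx y hy
      rw [Subgroup.mem_sup_of_normal_right] at hx hy
      obtain ⟨b, hb, d, hd, rfl⟩ := hx
      obtain ⟨b', hb', d', hd', rfl⟩ := hy
      have hc : ∀ b ∈ B, ∀ d ∈ D, b * d = d * b := by
        intro b hb d hd
        exact mem_centralizer_iff.1 (hDD hd) b hb
      rw [comm_aux (hc b hb d hd) (hc b hb d' hd') (hc b' hb' d hd) (hc b' hb' d' hd')]
      exact mul_mem (hB.prop.2.2.2 (Subgroup.commutator_mem_commutator hb hb'))
        (hcomm (Subgroup.commutator_mem_commutator hd hd'))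
  have hDB : D ≤ B := le_sup_right.trans hadm
  apply hDA
  refine le_antisymm ?_ hAD'
  rw [← center_B hA hB]
  exact le_inf hDB hDD

theorem derived_two {A B : Subgroup G} [Group.IsSolvable G] (hA : MaxAb A) (hB : MaxB A B)
    (hBA : B = A) (h1 : derivedSeries G 1 ≤ centralizer (A : Set G)) : derivedSeries G 2 = ⊥ := by
  have h := centralizer_B hA hB
  rw [hBA] at h
  rw [derivedSeries_succ]
  rw [h] at h1
  rw [Subgroup.commutator_eq_bot_iff_le_centralizer]
  exact h1.trans (hA.prop.2.trans (centralizer_le (by exact_mod_cast h1)))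

/-- the subgroup of the elements acting trivially on `B / A` -/
theorem triv_section {A B X : Subgroup G} [Group.IsSolvable G] (hA : MaxAb A) (hB : MaxB A B)
    (hX : X ≤ centralizer (A : Set G)) (hXB : ∀ x ∈ X, ∀ b ∈ B, x * b * x⁻¹ * b⁻¹ ∈ A) :
    ⁅X, X⁆ ≤ A := by
  rw [← centralizer_B hA hB, Subgroup.commutator_le]
  intro x hx y hy
  rw [mem_centralizer_iff]
  intro b hb
  -- l z = z b z⁻¹ b⁻¹
  have hcA : ∀ z ∈ X, ∀ a ∈ A, z * a = a * z := fun z hz a ha =>
    ((mem_centralizer_iff.1 (hX hz)) a ha).symm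
  obtain ⟨l, hl, hxl⟩ : ∃ l ∈ A, x * b = l * b * x := ⟨_, hXB x hx b hb, by group⟩
  obtain ⟨m, hm, hym⟩ : ∃ m ∈ A, y * b = m * b * y := ⟨_, hXB y hy b hb, by group⟩
  have e1 : x * y * b = (l * m) * b * (x * y) := by
    calc x * y * b = x * (y * b) := by group
      _ = (x * m) * (b * y) := by rw [hym]; group
      _ = m * (x * b) * y := by rw [hcA x hx m hm]; group
      _ = (m * l) * b * (x * y) := by rw [hxl]; group
      _ = (l * m) * b * (x * y) := by
        rw [((mem_centralizer_iff.1 (hA.prop.2 hl)) m hm)]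
  have e2 : y * x * b = (l * m) * b * (y * x) := by
    calc y * x * b = y * (x * b) := by group
      _ = (y * l) * (b * x) := by rw [hxl]; group
      _ = l * (y * b) * x := by rw [hcA y hy l hl]; group
      _ = (l * m) * b * (y * x) := by rw [hym]; group
  have e3 : (x * y) * b = (l * m) * b * (x * y) := e1
  -- ⁅x, y⁆ = (x y) (y x)⁻¹
  have e4 : ⁅x, y⁆ = (x * y) * (y * x)⁻¹ := by rw [commutatorElement_def]; group
  rw [e4]
  have e5 : (y * x)⁻¹ * ((l * m) * b) = b * (y * x)⁻¹ := by
    rw [inv_mul_eq_iff_eq_mul]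
    calc (l * m) * b = (l * m) * b * (y * x) * (y * x)⁻¹ := by group
      _ = y * x * (b * (y * x)⁻¹) := by rw [← e2]; group
  have e6 : (x * y)⁻¹ * ((l * m) * b) = b * (x * y)⁻¹ := by
    rw [inv_mul_eq_iff_eq_mul]
    calc (l * m) * b = (l * m) * b * (x * y) * (x * y)⁻¹ := by group
      _ = x * y * (b * (x * y)⁻¹) := by rw [← e1]; group
  -- want b * ((x y) (y x)⁻¹) = (x y) (y x)⁻¹ * b
  have e7 : b * (y * x)⁻¹ * b⁻¹ = (y * x)⁻¹ * (l * m) := by
    rw [← e5]; group
  have e8 : (x * y) * b = (l * m) * b * (x * y) := e1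
  have hlmA : l * m ∈ A := mul_mem hl hm
  have hyx : y * x ∈ X := mul_mem hy hx
  have hxy : x * y ∈ X := mul_mem hx hy
  have c1 : Commute (l * m) (x * y) := (hcA _ hxy _ hlmA).symm
  have c2 : Commute (l * m) (y * x) := (hcA _ hyx _ hlmA).symm
  -- b (x y) = (l m)⁻¹ (x y) b
  have e9 : b * (x * y) = (l * m)⁻¹ * ((x * y) * b) := by rw [e8]; group
  have e10 : b * (y * x)⁻¹ = (y * x)⁻¹ * (l * m) * b := by rw [← e7]; group
  calc b * (x * y * (y * x)⁻¹) = (b * (x * y)) * (y * x)⁻¹ := by group
    _ = (l * m)⁻¹ * (x * y) * (b * (y * x)⁻¹) := by rw [e9]; group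
    _ = (l * m)⁻¹ * (x * y) * ((y * x)⁻¹ * (l * m) * b) := by rw [e10]
    _ = (x * y) * ((l * m)⁻¹ * (y * x)⁻¹) * ((l * m) * b) := by
      rw [(c1.inv_left).eq]; group
    _ = (x * y) * ((y * x)⁻¹ * (l * m)⁻¹) * ((l * m) * b) := by
      rw [(c2.inv_left.inv_right).eq]
    _ = x * y * (y * x)⁻¹ * b := by group

end s1

section s2

theorem ringAut_comm {K : Type} [Field K] [Finite K] (σ τ : K ≃+* K) (x : K) :
    σ (τ x) = τ (σ x) := by
  obtain ⟨u, hu⟩ := IsCyclic.exists_generator (α := Kˣ)
  by_cases hx : x = 0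
  · simp [hx]
  obtain ⟨n, hn⟩ := hu (Units.mk0 x hx)
  obtain ⟨k, hk⟩ := hu (Units.map (σ : K →* K) u)
  obtain ⟨l, hl⟩ := hu (Units.map (τ : K →* K) u)
  have hx' : x = (u : K) ^ n := by
    have := congrArg Units.val hn
    simpa using this.symm
  have hk' : σ (u : K) = (u : K) ^ k := by
    have := congrArg Units.val hk
    simpa using this.symm
  have hl' : τ (u : K) = (u : K) ^ l := by
    have := congrArg Units.val hl
    simpa using this.symm
  rw [hx', map_zpow₀, map_zpow₀, map_zpow₀, map_zpow₀, hl', hk', map_zpow₀, map_zpow₀, hk', hl',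
    ← zpow_mul, ← zpow_mul, ← zpow_mul, ← zpow_mul, ← mul_assoc, ← mul_assoc, mul_comm k l]

theorem ringAut_trivial {K : Type} [Field K] [Finite K] (h : Nat.card K = 3) (σ : K ≃+* K)
    (x : K) : σ x = x := by
  have : Fintype K := Fintype.ofFinite K
  rw [Nat.card_eq_fintype_card] at h
  let e := ZMod.ringEquivOfPrime K Nat.prime_three h
  have h1 : (σ.toRingHom.comp e.toRingHom) = e.toRingHom := Subsingleton.elim _ _
  have h2 := RingHom.congr_fun h1 (e.symm x)
  simpa using h2

section quot

variable {G : Type} [Group G] (A B : Subgroup G) (hA : A.Normal) (hB : B.Normal)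

/-- conjugation on the section `B / A` -/
def qmap (g : G) : (B ⧸ A.subgroupOf B) →* (B ⧸ A.subgroupOf B) :=
  QuotientGroup.map (A.subgroupOf B) (A.subgroupOf B) (MulAut.conjNormal g : MulAut B).toMonoidHom
    (by
      intro b hb
      rw [Subgroup.mem_comap, Subgroup.mem_subgroupOf]
      rw [Subgroup.mem_subgroupOf] at hb
      simpa using hA.conj_mem _ hb g)

theorem qmap_mk (g : G) (b : B) :
    qmap A B hA hB g (QuotientGroup.mk b) =
      QuotientGroup.mk (s := A.subgroupOf B) ((MulAut.conjNormal g : MulAut B) b) := rfl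

theorem exists_E [Finite G] (hA : A.Normal) (hB : B.Normal) (hcomm : ⁅B, B⁆ ≤ A) :
    ∃ (E : Type) (_ : AddCommGroup E) (_ : Finite E) (_ : DistribMulAction G E),
      Nat.card E = Nat.card (B ⧸ A.subgroupOf B) ∧
      ∀ X : Subgroup G, TrivOn X E → ∀ x ∈ X, ∀ b ∈ B, x * b * x⁻¹ * b⁻¹ ∈ A := by
  let Q := B ⧸ A.subgroupOf B
  let iQ : CommGroup Q :=
    { (inferInstance : Group Q) with
      mul_comm := by
        intro x y
        induction x using QuotientGroup.induction_on with
        | H x =>
        induction y using QuotientGroup.induction_on with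
        | H y =>
        rw [← QuotientGroup.mk_mul, ← QuotientGroup.mk_mul, QuotientGroup.eq,
          Subgroup.mem_subgroupOf]
        have h := hcomm (Subgroup.commutator_mem_commutator (inv_mem y.2) (inv_mem x.2))
        rw [commutatorElement_def] at h
        simpa [mul_assoc] using h }
  let act : DistribMulAction G (Additive Q) :=
    { smul := fun g x => Additive.ofMul (qmap A B hA hB g x.toMul)
      one_smul := by
        intro x
        obtain ⟨x, rfl⟩ := Additive.ofMul.surjective x
        induction x using QuotientGroup.induction_on with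
        | H x =>
        change Additive.ofMul (qmap A B hA hB 1 x) = _
        rw [qmap_mk, map_one]
        rfl
      mul_smul := by
        intro g h x
        obtain ⟨x, rfl⟩ := Additive.ofMul.surjective x
        induction x using QuotientGroup.induction_on with
        | H x =>
        change Additive.ofMul (qmap A B hA hB (g * h) x) =
          Additive.ofMul (qmap A B hA hB g (qmap A B hA hB h x))
        rw [qmap_mk, qmap_mk, qmap_mk, map_mul]
        rfl
      smul_add := fun g x y => congrArg Additive.ofMul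
        (map_mul (qmap A B hA hB g) x.toMul y.toMul)
      smul_zero := fun g => congrArg Additive.ofMul (map_one (qmap A B hA hB g)) }
  refine ⟨Additive Q, inferInstance, inferInstance, act, rfl, ?_⟩
  intro X hX x hx b hb
  have h := hX x hx (Additive.ofMul (QuotientGroup.mk (s := A.subgroupOf B) ⟨b, hb⟩))
  have h1 : qmap A B hA hB x (QuotientGroup.mk (s := A.subgroupOf B) ⟨b, hb⟩)
    = QuotientGroup.mk (s := A.subgroupOf B) ⟨b, hb⟩ := h
  rw [qmap_mk, QuotientGroup.eq, Subgroup.mem_subgroupOf] at h1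
  have h2 : (x * b * x⁻¹)⁻¹ * b ∈ A := by
    simpa using h1
  have h3 := hA.conj_mem _ (inv_mem h2) b
  have h4 : b * ((x * b * x⁻¹)⁻¹ * b)⁻¹ * b⁻¹ = x * b * x⁻¹ * b⁻¹ := by group
  rw [← h4]
  exact h3

variable {V : Type} [AddCommGroup V] [Finite V] [Nontrivial V] [DistribMulAction G V]
  [FaithfulSMul G V] {K : Type} [Field K] [Module K V]

omit [Finite V] in
theorem indep_aux (hcomm : ⁅B, B⁆ ≤ A)
    (sc : ∀ a ∈ A, ∃ r : K, ∀ v : V, a • v = r • v)
    (hlin : ∀ g ∈ B, ∀ (r : K) (v : V), g • (r • v) = r • (g • v))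
    (hcent : B ⊓ centralizer (B : Set G) ≤ A)
    (s : Finset (B ⧸ A.subgroupOf B)) (c : B ⧸ A.subgroupOf B → K)
    (hsum : ∀ v : V, ∑ e ∈ s, c e • ((e.out : G) • v) = 0) : ∀ e ∈ s, c e = 0 := by
  classical
  obtain ⟨r, hr⟩ : ∃ r : B → B ⧸ A.subgroupOf B → K,
      ∀ (g : B) (e : B ⧸ A.subgroupOf B) (v : V),
      ((g : G) * (e.out : G) * (g : G)⁻¹ * (e.out : G)⁻¹) • v = r g e • v := by
    have h : ∀ (g : B) (e : B ⧸ A.subgroupOf B), ∃ r : K, ∀ v : V,
        ((g : G) * (e.out : G) * (g : G)⁻¹ * (e.out : G)⁻¹) • v = r • v := by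
      intro g e
      apply sc
      exact hcomm (Subgroup.commutator_mem_commutator g.2 e.out.2)
    choose r hr using h
    exact ⟨r, hr⟩
  induction s using Finset.induction_on generalizing c with
  | empty => intro e he; simp at he
  | insert e0 s he0 ih =>
    have h1 : ∀ (g : B) (v : V), ∑ e ∈ insert e0 s, (c e * r g e) • ((e.out : G) • v) = 0 := by
      intro g v
      have h := congrArg (fun x => (g : G) • x) (hsum ((g : G)⁻¹ • v))
      simp only [smul_zero, Finset.smul_sum] at h
      rw [← h]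
      apply Finset.sum_congr rfl
      intro e _
      rw [hlin _ g.2, mul_smul, ← hr, ← mul_smul, ← mul_smul, ← mul_smul]
      congr 2
      group
    have h2 : ∀ (g : B) (v : V),
        ∑ e ∈ s, (c e * (r g e - r g e0)) • ((e.out : G) • v) = 0 := by
      intro g v
      have a := h1 g v
      have b := congrArg (fun x => r g e0 • x) (hsum v)
      simp only [smul_zero, Finset.smul_sum] at b
      rw [← sub_eq_zero.2 (a.trans b.symm), ← Finset.sum_sub_distrib, Finset.sum_insert he0]
      have e1 : (c e0 * r g e0) • ((e0.out : G) • v) - r g e0 • c e0 • ((e0.out : G) • v) = 0 := by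
        rw [← mul_smul, mul_comm, sub_self]
      rw [e1, zero_add]
      apply Finset.sum_congr rfl
      intro e _
      rw [← mul_smul, ← sub_smul]
      congr 1
      ring
    have h3 : ∀ e ∈ s, c e = 0 := by
      intro e he
      by_contra hce
      have h4 : ∀ g : B, r g e = r g e0 := by
        intro g
        have := ih _ (h2 g) e he
        rcases mul_eq_zero.1 this with h | h
        · exact absurd h hce
        · exact sub_eq_zero.1 h
      have h5 : ∀ g ∈ B, g * (e.out : G) * g⁻¹ * (e.out : G)⁻¹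
          = g * (e0.out : G) * g⁻¹ * (e0.out : G)⁻¹ := by
        intro g hg
        apply FaithfulSMul.eq_of_smul_eq_smul (α := V)
        intro v
        rw [hr ⟨g, hg⟩ e v, hr ⟨g, hg⟩ e0 v, h4]
      have h6 : (e0.out : G)⁻¹ * (e.out : G) ∈ A := by
        apply hcent
        refine Subgroup.mem_inf.2 ⟨mul_mem (inv_mem e0.out.2) e.out.2, ?_⟩
        rw [mem_centralizer_iff]
        intro g hg
        have h7 := h5 g hg
        have h8 : (e0.out : G)⁻¹ * (e.out : G) = g * ((e0.out : G)⁻¹ * (e.out : G)) * g⁻¹ := by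
          calc (e0.out : G)⁻¹ * (e.out : G)
              = (e0.out : G)⁻¹ * ((g * (e.out : G) * g⁻¹ * (e.out : G)⁻¹)⁻¹ *
                (g * (e.out : G) * g⁻¹)) := by group
            _ = (e0.out : G)⁻¹ * ((g * (e0.out : G) * g⁻¹ * (e0.out : G)⁻¹)⁻¹ *
                (g * (e.out : G) * g⁻¹)) := by rw [h7]
            _ = g * ((e0.out : G)⁻¹ * (e.out : G)) * g⁻¹ := by group
        calc g * ((e0.out : G)⁻¹ * (e.out : G))
            = g * ((e0.out : G)⁻¹ * (e.out : G)) * g⁻¹ * g := by group
          _ = (e0.out : G)⁻¹ * (e.out : G) * g := by rw [← h8]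
      have h9 : e0 = e := by
        rw [← QuotientGroup.out_eq' e0, ← QuotientGroup.out_eq' e, QuotientGroup.eq,
          Subgroup.mem_subgroupOf]
        exact h6
      exact he0 (h9 ▸ he)
    intro e he
    rw [Finset.mem_insert] at he
    rcases he with rfl | he
    · obtain ⟨v, hv⟩ := exists_ne (0 : V)
      have h10 := hsum v
      rw [Finset.sum_insert he0, Finset.sum_eq_zero, add_zero] at h10
      · rcases smul_eq_zero.1 h10 with h | h
        · exact h
        · exact absurd ((smul_eq_zero_iff_eq _).1 h) hv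
      · intro x hx
        rw [h3 x hx, zero_smul]
    · exact h3 e he

theorem card_section_le (hcomm : ⁅B, B⁆ ≤ A) [Finite G]
    (sc : ∀ a ∈ A, ∃ r : K, ∀ v : V, a • v = r • v)
    (hlin : ∀ g ∈ B, ∀ (r : K) (v : V), g • (r • v) = r • (g • v))
    (hcent : B ⊓ centralizer (B : Set G) ≤ A) :
    Nat.card (B ⧸ A.subgroupOf B) ≤ (Module.finrank K V) ^ 2 := by
  classical
  let L : B ⧸ A.subgroupOf B → (V →ₗ[K] V) := fun e =>
    { toFun := fun v => (e.out : G) • v
      map_add' := fun v w => smul_add _ v w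
      map_smul' := fun r v => hlin _ e.out.2 r v }
  have hL : LinearIndependent K L := by
    rw [linearIndependent_iff']
    intro s c hsum e he
    apply indep_aux A B (V := V) (K := K) hcomm sc hlin hcent s c _ e he
    intro v
    have := congrArg (fun f : V →ₗ[K] V => f v) hsum
    simpa [L] using this
  have : Fintype (B ⧸ A.subgroupOf B) := Fintype.ofFinite _
  have : Module.Finite K V := Module.Finite.of_finite
  have h := hL.fintype_card_le_finrank
  rw [Module.finrank_linearMap] at h
  rw [Nat.card_eq_fintype_card, pow_two]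
  exact h

end quot

end s2

section s3

variable {G : Type} [Group G] [Finite G] [Group.IsSolvable G]
  {V : Type} [AddCommGroup V] [Finite V] [Nontrivial V] [DistribMulAction G V]
  [FaithfulSMul G V] {K : Type} [Field K] [Finite K] [Module K V]

/-- alternatives (2) and (3) for the group `G` -/
def Alt (G : Type) [Group G] (V : Type) [AddCommGroup V] [DistribMulAction G V] : Prop :=
  TrivOn (derivedSeries G 2) V ∨
    (∃ (E : Type) (_ : AddCommGroup E) (_ : Finite E) (_ : DistribMulAction G E) (Q d : ℕ),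
      3 ≤ Q ∧ Nat.card V = Q ^ d ∧ 2 ≤ Nat.card E ∧ Nat.card E ≤ d ^ 2 ∧
      ∀ j, 1 ≤ j → TrivOn (derivedSeries G j) E → TrivOn (derivedSeries G (j + 2)) V ∧
        (Q = 3 → TrivOn ⁅derivedSeries G (j + 1), (⊤ : Subgroup G)⁆ V))

omit [Finite G] [Group.IsSolvable G] [Finite V] [Nontrivial V] [FaithfulSMul G V] in
theorem trivOn_of_eq_bot {S : Subgroup G} (h : S = ⊥) : TrivOn S V := by
  intro g hg v
  rw [h, Subgroup.mem_bot] at hg
  rw [hg, one_smul]

theorem field_case (A : Subgroup G) (hA : MaxAb A)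
    (sc : ∀ a ∈ A, ∃ r : K, ∀ v : V, a • v = r • v)
    (act : G →* (K ≃+* K)) (hact : ∀ (g : G) (r : K) (v : V), g • (r • v) = (act g r) • (g • v))
    (hgen : ∀ g ∈ centralizer (A : Set G), ∀ (r : K) (v : V), g • (r • v) = r • (g • v)) :
    Alt G V := by
  classical
  have hAn := hA.prop.1
  -- G' centralises A
  have h1 : derivedSeries G 1 ≤ centralizer (A : Set G) := by
    have h2 : derivedSeries G 1 ≤ act.ker := by
      rw [derivedSeries_succ, Subgroup.commutator_le]
      intro g _ h _
      rw [MonoidHom.mem_ker, map_commutatorElement, commutatorElement_eq_one_iff_commute]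
      apply RingEquiv.ext
      intro x
      exact ringAut_comm (act g) (act h) x
    intro x hx
    rw [mem_centralizer_iff]
    intro a ha
    apply FaithfulSMul.eq_of_smul_eq_smul (α := V)
    intro v
    obtain ⟨r, hr⟩ := sc a ha
    have h3 : act x = 1 := h2 hx
    rw [mul_smul, mul_smul, hr, hr, hact, h3]
    rfl
  have : Module.Finite K V := Module.Finite.of_finite
  have hcardV : Nat.card V = Nat.card K ^ Module.finrank K V := Module.natCard_eq_pow_finrank
  have hQ2 : 2 ≤ Nat.card K := by
    have := Finite.one_lt_card (α := K)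
    omega
  by_cases hQ : Nat.card K = 2
  · -- everything is trivial
    left
    have hAbot : A = ⊥ := by
      rw [eq_bot_iff]
      intro a ha
      rw [Subgroup.mem_bot]
      apply FaithfulSMul.eq_of_smul_eq_smul (α := V)
      intro v
      obtain ⟨r, hr⟩ := sc a ha
      rw [hr, one_smul]
      have hr0 : r ≠ 0 := by
        rintro rfl
        obtain ⟨w, hw⟩ := exists_ne (0 : V)
        have := hr w
        rw [zero_smul, smul_eq_zero_iff_eq] at this
        exact hw this
      have hr1 : r = 1 := by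
        by_contra hne
        have hF : Fintype K := Fintype.ofFinite K
        rw [Nat.card_eq_fintype_card] at hQ
        have h3 : ({0, 1, r} : Finset K).card ≤ 2 := by
          rw [← hQ]; exact Finset.card_le_univ _
        rw [Finset.card_eq_three.2 ⟨0, 1, r, zero_ne_one, hr0.symm, fun h => hne h.symm, rfl⟩] at h3
        omega
      rw [hr1, one_smul]
    have htop : (⊤ : Subgroup G) = A := by
      by_contra hne
      obtain ⟨D, hDn, hAD, _, hDA, hcomm⟩ := exists_section hAn inferInstance le_top hne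
      apply hDA
      apply maxAb_eq hA hDn hAD
      rw [← Subgroup.commutator_eq_bot_iff_le_centralizer, eq_bot_iff]
      rw [hAbot] at hcomm
      exact hcomm
    apply trivOn_of_eq_bot
    rw [eq_bot_iff, ← hAbot, ← htop]
    exact le_top
  obtain ⟨B, hB⟩ := exists_maxB hA
  by_cases hBA : B = A
  · left
    exact trivOn_of_eq_bot (derived_two hA hB hBA h1)
  right
  obtain ⟨E, i1, i2, i3, hcardE, hE⟩ := exists_E A B hAn hB.prop.1 hB.prop.2.2.2
  refine ⟨E, i1, i2, i3, Nat.card K, Module.finrank K V, by omega, hcardV, ?_, ?_, ?_⟩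
  · -- B ≠ A
    rw [hcardE]
    have hnt : Nontrivial (B ⧸ A.subgroupOf B) := by
      obtain ⟨b, hb, hbA⟩ : ∃ b ∈ B, b ∉ A := by
        by_contra hcon
        push Not at hcon
        exact hBA (le_antisymm hcon hB.prop.2.1)
      refine ⟨QuotientGroup.mk ⟨b, hb⟩, 1, ?_⟩
      intro h
      rw [QuotientGroup.eq_one_iff, Subgroup.mem_subgroupOf] at h
      exact hbA h
    have := Finite.one_lt_card (α := B ⧸ A.subgroupOf B)
    omega
  · rw [hcardE]
    exact card_section_le A B (V := V) (K := K) hB.prop.2.2.2 sc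
      (fun g hg => hgen g (hB.prop.2.2.1 hg)) (center_B hA hB).le
  · intro j hj htriv
    have hX : derivedSeries G j ≤ centralizer (A : Set G) :=
      (derivedSeries_antitone G hj).trans h1
    have h4 : derivedSeries G (j + 1) ≤ A :=
      triv_section hA hB hX (hE _ htriv)
    constructor
    · apply trivOn_of_eq_bot
      have e : j + 2 = (j + 1) + 1 := rfl
      rw [e, derivedSeries_succ, Subgroup.commutator_eq_bot_iff_le_centralizer]
      exact h4.trans (hA.prop.2.trans (centralizer_le (by exact_mod_cast h4)))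
    · intro h3
      apply trivOn_of_eq_bot
      rw [Subgroup.commutator_eq_bot_iff_le_centralizer]
      intro a ha
      rw [mem_centralizer_iff]
      intro g _
      apply FaithfulSMul.eq_of_smul_eq_smul (α := V)
      intro v
      obtain ⟨r, hr⟩ := sc a (h4 ha)
      rw [mul_smul, mul_smul, hr, hr, hact, ringAut_trivial h3]

end s3

section s4

/-- alternative (1) for the group `G` -/
def Alt1 (G : Type) [Group G] (V : Type) [AddCommGroup V] [DistribMulAction G V] : Prop :=
  ∃ (Ω : Type) (_ : Finite Ω) (_ : MulAction G Ω) (_ : MulAction.IsPretransitive G Ω)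
      (K : Subgroup G) (W : Type) (_ : AddCommGroup W) (_ : Finite W) (_ : Nontrivial W)
      (_ : DistribMulAction K W) (x : ℕ), (∀ h : G, h ∈ K ↔ ∀ ω : Ω, h • ω = ω) ∧
      2 ≤ Nat.card Ω ∧ x ^ Nat.card Ω = Nat.card V ∧ Nat.card W ≤ x ∧ Nat.card W ∣ Nat.card V ∧
      Irr K W ∧
      ∀ S : Subgroup K, (S.map K.subtype).Normal → TrivOn S W → TrivOn (S.map K.subtype) V

section ring

variable {G : Type} [Group G] {V : Type} [AddCommGroup V] [Finite V] [Nontrivial V]
  [DistribMulAction G V] {R : Type} [CommRing R] [Finite R] [Module R V] [FaithfulSMul R V]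
  (act : G →* (R ≃+* R)) (hact : ∀ (g : G) (r : R) (v : V), g • (r • v) = (act g r) • (g • v))

include hact in
omit [Finite R] in
theorem isReduced_of_irr (hirr : Irr G V) : IsReduced R := by
  have hN : ∀ g : G, ∀ w ∈ (nilradical R • (⊤ : Submodule R V)).toAddSubgroup,
      g • w ∈ (nilradical R • (⊤ : Submodule R V)).toAddSubgroup := by
    intro g w hw
    refine Submodule.smul_induction_on
      (p := fun w => g • w ∈ (nilradical R • (⊤ : Submodule R V)).toAddSubgroup) hw ?_ ?_
    · intro r hr v _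
      rw [hact]
      refine Submodule.smul_mem_smul ?_ trivial
      rw [mem_nilradical] at hr ⊢
      exact hr.map (act g)
    · intro x y hx hy
      rw [smul_add]
      exact add_mem hx hy
  rcases hirr _ hN with h | h
  · refine ⟨fun r hr => ?_⟩
    apply FaithfulSMul.eq_of_smul_eq_smul (α := V)
    intro v
    rw [zero_smul]
    have h1 : r • v ∈ (nilradical R • (⊤ : Submodule R V)).toAddSubgroup :=
      Submodule.smul_mem_smul (mem_nilradical.2 hr) trivial
    rw [h] at h1
    exact h1
  · exfalso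
    have h1 : (⊤ : Submodule R V) ≤ nilradical R • (⊤ : Submodule R V) := by
      intro v _
      have h2 : v ∈ (nilradical R • (⊤ : Submodule R V)).toAddSubgroup := by
        rw [h]; trivial
      exact h2
    have : Module.Finite R V := Module.Finite.of_finite
    have h3 := Submodule.eq_bot_of_le_smul_of_le_jacobson_bot (nilradical R) ⊤
      Module.Finite.fg_top h1 Ideal.radical_le_jacobson
    obtain ⟨v, hv⟩ := exists_ne (0 : V)
    have h4 : v ∈ (⊤ : Submodule R V) := trivial
    rw [h3] at h4
    exact hv h4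

/-- minimal nonzero idempotents -/
def MinIdem (e : R) : Prop :=
  IsIdempotentElem e ∧ e ≠ 0 ∧ ∀ f, IsIdempotentElem f → e * f = f → f = 0 ∨ f = e

theorem exists_minIdem [Nontrivial R] : ∃ e : R, MinIdem e := by
  obtain ⟨e, he⟩ := exists_minimalFor_of_wellFoundedLT
    (fun e : R => IsIdempotentElem e ∧ e ≠ 0) (fun e => Ideal.span {e})
    ⟨1, IsIdempotentElem.one, one_ne_zero⟩
  refine ⟨e, he.1.1, he.1.2, ?_⟩
  intro f hf hef
  by_cases h0 : f = 0
  · exact Or.inl h0
  right
  have h1 : Ideal.span {f} ≤ Ideal.span {e} := by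
    rw [Ideal.span_singleton_le_span_singleton]
    exact ⟨f, hef.symm⟩
  have h2 := he.2 ⟨hf, h0⟩ h1
  rw [Ideal.span_singleton_le_span_singleton] at h2
  obtain ⟨c, hc⟩ := h2
  calc f = e * f := hef.symm
    _ = f * c * f := by rw [hc]
    _ = (f * f) * c := by ring
    _ = f * c := by rw [hf]
    _ = e := hc.symm

omit [Finite R] in
theorem MinIdem.orth {e f : R} (he : MinIdem e) (hf : MinIdem f) (hne : e ≠ f) : e * f = 0 := by
  have h1 : IsIdempotentElem (e * f) := he.1.mul hf.1
  have h2 := he.2.2 _ h1 (by rw [← mul_assoc, he.1])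
  have h3 := hf.2.2 _ h1 (by rw [mul_comm e f, ← mul_assoc, hf.1])
  rcases h2 with h2 | h2
  · exact h2
  rcases h3 with h3 | h3
  · exact h3
  exact absurd (h2.symm.trans h3) hne

omit [Finite R] in
theorem MinIdem.map {e : R} (he : MinIdem e) (σ : R ≃+* R) : MinIdem (σ e) := by
  refine ⟨he.1.map σ, ?_, ?_⟩
  · simpa using he.2.1
  · intro f hf hef
    have h1 : IsIdempotentElem (σ.symm f) := hf.map σ.symm
    have h2 : e * σ.symm f = σ.symm f := by
      apply σ.injective
      rw [map_mul, RingEquiv.apply_symm_apply]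
      exact hef
    rcases he.2.2 _ h1 h2 with h | h
    · left
      have := congrArg σ h
      simpa using this
    · right
      have := congrArg σ h
      simpa using this

/-- the points fixed by an element of `R` -/
def eig (V : Type) [AddCommGroup V] {R : Type} [CommRing R] [Module R V] (e : R) :
    AddSubgroup V where
  carrier := {v | e • v = v}
  add_mem' := by
    intro a b ha hb
    simp only [Set.mem_ofPred_eq] at ha hb ⊢
    rw [smul_add, ha, hb]
  zero_mem' := smul_zero _
  neg_mem' := by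
    intro a ha
    simp only [Set.mem_ofPred_eq] at ha ⊢
    rw [smul_neg, ha]

omit [Finite V] [Nontrivial V] [Finite R] [FaithfulSMul R V] in
theorem mem_eig {e : R} {v : V} : v ∈ eig V e ↔ e • v = v := Iff.rfl

theorem exists_pow_idem (a : R) : ∃ n, 1 ≤ n ∧ IsIdempotentElem (a ^ n) := by
  obtain ⟨i, j, hij, h⟩ := Finite.exists_ne_map_eq_of_infinite (fun k : ℕ => a ^ (k + 1))
  wlog hlt : i < j generalizing i j
  · exact this j i hij.symm h.symm (by omega)
  replace h : a ^ (i + 1) = a ^ (j + 1) := h
  obtain ⟨d, hd, rfl⟩ : ∃ d, 1 ≤ d ∧ j = i + d := ⟨j - i, by omega, by omega⟩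
  have h1 : ∀ t, a ^ (i + 1) = a ^ (i + 1 + d * t) := by
    intro t
    induction t with
    | zero => simp
    | succ t ih =>
      calc a ^ (i + 1) = a ^ (i + d + 1) := h
        _ = a ^ (i + 1) * a ^ d := by rw [← pow_add]; congr 1; ring
        _ = a ^ (i + 1 + d * t) * a ^ d := by rw [← ih]
        _ = a ^ (i + 1 + d * (t + 1)) := by rw [← pow_add]; congr 1; ring
  have hle : i + 1 ≤ d * (i + 1) := Nat.le_mul_of_pos_left _ (by omega)
  refine ⟨d * (i + 1), by omega, ?_⟩
  obtain ⟨q, hq⟩ := Nat.exists_eq_add_of_le hle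
  change a ^ (d * (i + 1)) * a ^ (d * (i + 1)) = a ^ (d * (i + 1))
  calc a ^ (d * (i + 1)) * a ^ (d * (i + 1))
      = a ^ (i + 1 + d * (i + 1)) * a ^ q := by
        rw [← pow_add, ← pow_add]; congr 1; omega
    _ = a ^ (i + 1) * a ^ q := by rw [← h1]
    _ = a ^ (d * (i + 1)) := by rw [← pow_add, ← hq]

theorem isField_of_idem [Nontrivial R] [IsReduced R]
    (h : ∀ f : R, IsIdempotentElem f → f = 0 ∨ f = 1) : IsField R := by
  refine ⟨exists_pair_ne R, mul_comm, ?_⟩
  intro a ha
  obtain ⟨n, hn, hidem⟩ := exists_pow_idem a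
  rcases h _ hidem with h0 | h1
  · exact absurd (pow_eq_zero_iff (by omega) |>.1 h0) ha
  · refine ⟨a ^ (n - 1), ?_⟩
    rw [← pow_succ', Nat.sub_add_cancel hn, h1]

omit [Nontrivial V] in
include hact in
theorem imprimitive (hirr : Irr G V) (f : R) (hf : IsIdempotentElem f) (hf0 : f ≠ 0)
    (hf1 : f ≠ 1) : Alt1 G V := by
  classical
  have hnt : Nontrivial R := ⟨f, 0, hf0⟩
  obtain ⟨e0, he0⟩ := exists_minIdem (R := R)
  let Ω := {e : R // ∃ g : G, act g e0 = e}
  have hΩ : ∀ ω : Ω, MinIdem ω.1 := by
    rintro ⟨e, g, rfl⟩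
    exact he0.map (act g)
  let iact : MulAction G Ω :=
    { smul := fun g ω => ⟨act g ω.1, by
        obtain ⟨h, hh⟩ := ω.2
        exact ⟨g * h, by rw [map_mul, ← hh]; rfl⟩⟩
      one_smul := by
        intro ω
        apply Subtype.ext
        change act 1 ω.1 = ω.1
        rw [map_one]; rfl
      mul_smul := by
        intro g h ω
        apply Subtype.ext
        change act (g * h) ω.1 = act g (act h ω.1)
        rw [map_mul]; rfl }
  have hsm : ∀ (g : G) (ω : Ω), (g • ω).1 = act g ω.1 := fun g ω => rfl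
  have hfin : Fintype Ω := Fintype.ofFinite Ω
  let o : Ω := ⟨e0, 1, by rw [map_one]; rfl⟩
  have htr : MulAction.IsPretransitive G Ω := by
    rw [MulAction.isPretransitive_iff_base o]
    rintro ⟨e, g, rfl⟩
    exact ⟨g, rfl⟩
  -- the sum of the idempotents
  have hs1 : ∑ ω : Ω, ω.1 = 1 := by
    have hmul : ∀ ω : Ω, (∑ ω : Ω, ω.1) * ω.1 = ω.1 := by
      intro ω
      rw [Finset.sum_mul, Finset.sum_eq_single ω]
      · exact (hΩ ω).1
      · intro ω' _ hne
        exact (hΩ ω').orth (hΩ ω) (fun h => hne (Subtype.ext h))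
      · intro h; exact absurd (Finset.mem_univ _) h
    have hinv : ∀ g : G, act g (∑ ω : Ω, ω.1) = ∑ ω : Ω, ω.1 := by
      intro g
      rw [map_sum]
      exact Fintype.sum_equiv (MulAction.toPerm g) _ _ (fun ω => (hsm g ω).symm)
    have hcase := hirr (eig V (∑ ω : Ω, ω.1)) (by
      intro g v hv
      rw [mem_eig] at hv ⊢
      have := hact g (∑ ω : Ω, ω.1) v
      rw [hv, hinv] at this
      exact this.symm)
    rcases hcase with h | h
    · exfalso
      have h1 : ∀ v : V, e0 • v = 0 := by
        intro v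
        have h2 : e0 • v ∈ eig V (∑ ω : Ω, ω.1) := by
          rw [mem_eig, ← mul_smul]
          rw [hmul o]
        rw [h] at h2
        exact h2
      apply he0.2.1
      apply FaithfulSMul.eq_of_smul_eq_smul (α := V)
      intro v
      rw [h1, zero_smul]
    · apply FaithfulSMul.eq_of_smul_eq_smul (α := V)
      intro v
      rw [one_smul, ← mem_eig, h]
      trivial
  have hcard2 : 2 ≤ Nat.card Ω := by
    by_contra hlt
    have hsub : Subsingleton Ω := by
      rw [← Finite.card_le_one_iff_subsingleton]; omega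
    have h1 : e0 = 1 := by
      rw [← hs1]
      rw [Fintype.sum_subsingleton _ o]
    have := he0.2.2 f hf (by rw [h1, one_mul])
    rw [h1] at this
    rcases this with h | h
    · exact hf0 h
    · exact hf1 h
  -- the decomposition
  have horth : ∀ ω ω' : Ω, ω ≠ ω' → ω.1 * ω'.1 = 0 := fun ω ω' hne =>
    (hΩ ω).orth (hΩ ω') (fun h => hne (Subtype.ext h))
  let ev : V ≃ (∀ ω : Ω, eig V ω.1) :=
    { toFun := fun v ω => ⟨ω.1 • v, by rw [mem_eig, ← mul_smul]; rw [(hΩ ω).1]⟩
      invFun := fun w => ∑ ω, (w ω : V)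
      left_inv := by
        intro v
        change ∑ ω : Ω, ω.1 • v = v
        rw [← Finset.sum_smul, hs1, one_smul]
      right_inv := by
        intro w
        funext ω
        apply Subtype.ext
        change ω.1 • ∑ ω' : Ω, (w ω' : V) = w ω
        rw [Finset.smul_sum, Finset.sum_eq_single ω]
        · exact (w ω).2
        · intro ω' _ hne
          have h1 := (w ω').2
          rw [mem_eig] at h1
          rw [← h1, ← mul_smul, horth _ _ hne.symm, zero_smul]
        · intro h; exact absurd (Finset.mem_univ _) h }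
  have hcard_eig : ∀ ω : Ω, Nat.card (eig V ω.1) = Nat.card (eig V e0) := by
    rintro ⟨e, g, rfl⟩
    refine Nat.card_congr
      { toFun := fun v => ⟨g⁻¹ • (v : V), ?_⟩
        invFun := fun v => ⟨g • (v : V), ?_⟩
        left_inv := fun v => Subtype.ext (smul_inv_smul g (v : V))
        right_inv := fun v => Subtype.ext (inv_smul_smul g (v : V)) }
    · have hv := v.2
      rw [mem_eig] at hv ⊢
      have h1 := hact g e0 (g⁻¹ • (v : V))
      rw [smul_inv_smul, hv] at h1
      exact eq_inv_smul_iff.2 h1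
    · have hv := v.2
      rw [mem_eig] at hv ⊢
      rw [← hact, hv]
  have hcardV : Nat.card (eig V e0) ^ Nat.card Ω = Nat.card V := by
    rw [Nat.card_congr ev, Nat.card_pi, Finset.prod_congr rfl (fun ω _ => hcard_eig ω),
      Finset.prod_const, Finset.card_univ, Nat.card_eq_fintype_card (α := Ω)]
  -- the kernel
  let K : Subgroup G := (MulAction.toPermHom G Ω).ker
  have hK : ∀ h : G, h ∈ K ↔ ∀ ω : Ω, h • ω = ω := by
    intro h
    rw [MonoidHom.mem_ker]
    constructor
    · intro hh ω
      have := congrArg (fun p : Equiv.Perm Ω => p ω) hh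
      simpa using this
    · intro hh
      ext ω
      simpa using congrArg Subtype.val (hh ω)
  -- eig V e0 is nonzero and K-invariant
  have hKinv : ∀ k ∈ K, ∀ v ∈ eig V e0, k • v ∈ eig V e0 := by
    intro k hk v hv
    rw [mem_eig] at hv ⊢
    have h1 : act k e0 = e0 := congrArg Subtype.val ((hK k).1 hk o)
    have h2 := hact k e0 v
    rw [hv, h1] at h2
    exact h2.symm
  have hne : eig V e0 ≠ ⊥ := by
    intro h
    apply he0.2.1
    apply FaithfulSMul.eq_of_smul_eq_smul (α := V)
    intro v
    have h1 : e0 • v ∈ eig V e0 := by rw [mem_eig, ← mul_smul, he0.1]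
    rw [h] at h1
    rw [zero_smul]
    exact h1
  obtain ⟨W, hW⟩ := exists_minimal_of_wellFoundedLT
    (fun W : AddSubgroup V => W ≠ ⊥ ∧ W ≤ eig V e0 ∧ ∀ k ∈ K, ∀ v ∈ W, k • v ∈ W)
    ⟨eig V e0, hne, le_rfl, hKinv⟩
  have hWnt : Nontrivial W := (AddSubgroup.nontrivial_iff_ne_bot W).2 hW.1.1
  let actW : DistribMulAction K W :=
    { smul := fun k w => ⟨(k : G) • (w : V), hW.1.2.2 k k.2 w w.2⟩
      one_smul := fun w => Subtype.ext (one_smul G (w : V))
      mul_smul := fun k l w => Subtype.ext (mul_smul (k : G) (l : G) (w : V))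
      smul_zero := fun k => Subtype.ext (smul_zero (k : G))
      smul_add := fun k v w => Subtype.ext (smul_add (k : G) (v : V) (w : V)) }
  have hsmW : ∀ (k : K) (w : W), ((k • w : W) : V) = (k : G) • (w : V) := fun k w => rfl
  refine ⟨Ω, inferInstance, iact, htr, K, W, inferInstance, inferInstance, hWnt, actW,
    Nat.card (eig V e0), hK, hcard2, hcardV, ?_, ?_, ?_, ?_⟩
  · exact Nat.card_le_card_of_injective (AddSubgroup.inclusion hW.1.2.1)
      (AddSubgroup.inclusion_injective _)
  · exact AddSubgroup.card_addSubgroup_dvd_card W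
  · intro U hU
    by_cases h0 : U = ⊥
    · exact Or.inl h0
    right
    have h1 : (U.map W.subtype) ≠ ⊥ := by
      intro h
      apply h0
      rw [AddSubgroup.map_eq_bot_iff_of_injective _ W.subtype_injective] at h
      exact h
    have h2 : U.map W.subtype ≤ W := by
      rintro _ ⟨u, _, rfl⟩
      exact u.2
    have h3 := hW.2 ⟨h1, h2.trans hW.1.2.1, by
      rintro k hk _ ⟨u, hu, rfl⟩
      exact ⟨(⟨k, hk⟩ : K) • u, hU ⟨k, hk⟩ u hu, rfl⟩⟩ h2
    rw [eq_top_iff]
    intro w _
    obtain ⟨u, hu, huw⟩ := h3 w.2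
    have : u = w := Subtype.ext huw
    rw [← this]
    exact hu
  · intro S hS htriv
    have hcase := hirr
      { carrier := {v | ∀ s ∈ S.map K.subtype, s • v = v}
        add_mem' := by
          intro a b ha hb s hs
          rw [smul_add, ha s hs, hb s hs]
        zero_mem' := fun s _ => smul_zero s
        neg_mem' := by
          intro a ha s hs
          rw [smul_neg, ha s hs] } (by
      intro g v hv s hs
      have h1 := hv (g⁻¹ * s * g) (by
        have := hS.conj_mem s hs g⁻¹
        simpa using this)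
      have h2 := congrArg (fun x => g • x) h1
      simp only [mul_smul, smul_inv_smul] at h2
      exact h2)
    rcases hcase with h | h
    · exfalso
      obtain ⟨w, hw⟩ := exists_ne (0 : W)
      have h1 : (w : V) ∈ (⊥ : AddSubgroup V) := by
        rw [← h]
        rintro s ⟨k, hk, rfl⟩
        exact congrArg Subtype.val (htriv k hk w)
      exact hw (Subtype.ext h1)
    · intro s hs v
      have h1 : v ∈ (⊤ : AddSubgroup V) := trivial
      rw [← h] at h1
      exact h1 s hs

end ring

end s4

section s5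

section main

variable (G : Type) [Group G] (V : Type) [AddCommGroup V] [DistribMulAction G V]

/-- conjugation on the endomorphism ring -/
def cHom (g : G) : AddMonoid.End V →+* AddMonoid.End V where
  toFun := fun r => DistribMulAction.toAddMonoidEnd G V g * r *
    DistribMulAction.toAddMonoidEnd G V g⁻¹
  map_one' := by
    rw [mul_one, ← map_mul, mul_inv_cancel, map_one]
  map_mul' := by
    intro x y
    have h : DistribMulAction.toAddMonoidEnd G V g⁻¹ * DistribMulAction.toAddMonoidEnd G V g = 1 := by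
      rw [← map_mul, inv_mul_cancel, map_one]
    calc DistribMulAction.toAddMonoidEnd G V g * (x * y) * DistribMulAction.toAddMonoidEnd G V g⁻¹
        = DistribMulAction.toAddMonoidEnd G V g * x * 1 * y *
          DistribMulAction.toAddMonoidEnd G V g⁻¹ := by rw [mul_one]; simp only [mul_assoc]
      _ = _ := by rw [← h]; simp only [mul_assoc]
  map_zero' := by rw [mul_zero, zero_mul]
  map_add' := by
    intro x y
    rw [mul_add, add_mul]

variable {G V}

/-- the ring generated by `A` -/
def rg (V : Type) [AddCommGroup V] [DistribMulAction G V] (A : Subgroup G) :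
    Subring (AddMonoid.End V) :=
  Subring.closure ((DistribMulAction.toAddMonoidEnd G V) '' (A : Set G))

theorem cHom_mem {A : Subgroup G} (hA : A.Normal) (g : G) {r : AddMonoid.End V}
    (hr : r ∈ rg V A) : cHom G V g r ∈ rg V A := by
  have h : rg V A ≤ (rg V A).comap (cHom G V g) := by
    rw [rg, Subring.closure_le]
    rintro _ ⟨a, ha, rfl⟩
    change DistribMulAction.toAddMonoidEnd G V g * DistribMulAction.toAddMonoidEnd G V a *
      DistribMulAction.toAddMonoidEnd G V g⁻¹ ∈ rg V A
    rw [← map_mul, ← map_mul]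
    exact Subring.subset_closure ⟨g * a * g⁻¹, hA.conj_mem a ha g, rfl⟩
  exact h hr

theorem cHom_mul (g h : G) (r : AddMonoid.End V) :
    cHom G V (g * h) r = cHom G V g (cHom G V h r) := by
  change DistribMulAction.toAddMonoidEnd G V (g * h) * r *
    DistribMulAction.toAddMonoidEnd G V (g * h)⁻¹ = DistribMulAction.toAddMonoidEnd G V g *
    (DistribMulAction.toAddMonoidEnd G V h * r * DistribMulAction.toAddMonoidEnd G V h⁻¹) *
    DistribMulAction.toAddMonoidEnd G V g⁻¹
  rw [map_mul, mul_inv_rev, map_mul]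
  simp only [mul_assoc]

theorem cHom_one (r : AddMonoid.End V) : cHom G V 1 r = r := by
  change DistribMulAction.toAddMonoidEnd G V 1 * r *
    DistribMulAction.toAddMonoidEnd G V 1⁻¹ = r
  rw [inv_one, map_one, one_mul, mul_one]

theorem cHom_smul (g : G) (r : AddMonoid.End V) (v : V) :
    g • (r v) = (cHom G V g r) (g • v) := by
  change g • (r v) = g • (r (g⁻¹ • (g • v)))
  rw [inv_smul_smul]

/-- conjugation on the ring generated by `A` -/
def actR {A : Subgroup G} (hA : A.Normal) : G →* (rg V A ≃+* rg V A) where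
  toFun := fun g =>
    { toFun := fun r => ⟨cHom G V g r, cHom_mem hA g r.2⟩
      invFun := fun r => ⟨cHom G V g⁻¹ r, cHom_mem hA g⁻¹ r.2⟩
      left_inv := fun r => Subtype.ext (by
        change cHom G V g⁻¹ (cHom G V g r) = r
        rw [← cHom_mul, inv_mul_cancel, cHom_one])
      right_inv := fun r => Subtype.ext (by
        change cHom G V g (cHom G V g⁻¹ r) = r
        rw [← cHom_mul, mul_inv_cancel, cHom_one])
      map_mul' := fun r s => Subtype.ext (map_mul (cHom G V g) (r : AddMonoid.End V) s)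
      map_add' := fun r s => Subtype.ext (map_add (cHom G V g) (r : AddMonoid.End V) s) }
  map_one' := by
    apply RingEquiv.ext
    intro r
    exact Subtype.ext (cHom_one (r : AddMonoid.End V))
  map_mul' := by
    intro g h
    apply RingEquiv.ext
    intro r
    exact Subtype.ext (cHom_mul g h (r : AddMonoid.End V))

theorem main_abstract [Finite G] [Group.IsSolvable G] [Finite V] [Nontrivial V]
    [FaithfulSMul G V] (hirr : Irr G V) {A : Subgroup G} (hA : MaxAb A)
    {R : Type} [CommRing R] [Finite R] [Module R V] [FaithfulSMul R V]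
    (act : G →* (R ≃+* R)) (hact : ∀ (g : G) (r : R) (v : V), g • (r • v) = (act g r) • (g • v))
    (sc : ∀ a ∈ A, ∃ r : R, ∀ v : V, a • v = r • v)
    (hgen : ∀ g ∈ centralizer (A : Set G), ∀ (r : R) (v : V), g • (r • v) = r • (g • v)) :
    Alt1 G V ∨ Alt G V := by
  classical
  have hred : IsReduced R := isReduced_of_irr act hact hirr
  have hntR : Nontrivial R := by
    obtain ⟨v, hv⟩ := exists_ne (0 : V)
    refine ⟨0, 1, ?_⟩
    intro h
    apply hv
    rw [← one_smul R v, ← h, zero_smul]
  by_cases hF : ∀ f : R, IsIdempotentElem f → f = 0 ∨ f = 1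
  · right
    have hfield := isField_of_idem hF
    let iF : Field R := hfield.toField
    exact field_case (K := R) A hA sc act hact hgen
  · left
    push Not at hF
    obtain ⟨f, hf, hf0, hf1⟩ := hF
    exact imprimitive act hact hirr f hf hf0 hf1

theorem main_finite [Finite G] [Group.IsSolvable G] [Finite V] [Nontrivial V]
    [FaithfulSMul G V] (hirr : Irr G V) : Alt1 G V ∨ Alt G V := by
  classical
  obtain ⟨A, hA⟩ := exists_maxAb (G := G)
  have hAn := hA.prop.1
  have hcomm : ∀ x ∈ (DistribMulAction.toAddMonoidEnd G V) '' (A : Set G),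
      ∀ y ∈ (DistribMulAction.toAddMonoidEnd G V) '' (A : Set G), x * y = y * x := by
    rintro _ ⟨a, ha, rfl⟩ _ ⟨b, hb, rfl⟩
    rw [← map_mul, ← map_mul, (mem_centralizer_iff.1 (hA.prop.2 ha)) b hb]
  have hmc : IsMulCommutative (rg V A) := Subring.isMulCommutative_closure hcomm
  let iR : CommRing (rg V A) :=
    { (inferInstance : Ring (rg V A)) with mul_comm := fun a b => hmc.is_comm.comm a b }
  have hfinEnd : Finite (AddMonoid.End V) := DFunLike.finite _
  have hfinR : Finite (rg V A) := inferInstance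
  have hact : ∀ (g : G) (r : rg V A) (v : V), g • (r • v) = (actR hAn g r) • (g • v) :=
    fun g r v => cHom_smul g r v
  have hfaith : FaithfulSMul (rg V A) V := inferInstance
  refine @main_abstract G _ V _ _ _ _ _ _ _ hirr A hA (rg V A) iR hfinR
    (inferInstanceAs (@Module (rg V A) V (Subring.toRing _).toSemiring _)) hfaith (actR hAn)
    hact ?_ ?_
  · intro a ha
    exact ⟨⟨_, Subring.subset_closure ⟨a, ha, rfl⟩⟩, fun v => rfl⟩
  · intro g hg r v
    have h1 : rg V A ≤ Subring.centralizer {DistribMulAction.toAddMonoidEnd G V g} := by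
      rw [rg, Subring.closure_le]
      rintro _ ⟨a, ha, rfl⟩
      rw [SetLike.mem_coe, Subring.mem_centralizer_iff]
      rintro _ rfl
      rw [← map_mul, ← map_mul, (mem_centralizer_iff.1 hg) a ha]
    have h2 := h1 r.2
    rw [Subring.mem_centralizer_iff] at h2
    exact congrArg (fun φ : AddMonoid.End V => φ v) (h2 _ rfl)

end main

end s5

section pull

variable {H G : Type} [Group H] [Group G] {V : Type} [AddCommGroup V] [DistribMulAction H V]
  [DistribMulAction G V] (f : H →* G) (hf : Function.Surjective f)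
  (hfv : ∀ (h : H) (v : V), f h • v = h • v)

include hf hfv

omit hf in
theorem trivOn_pull {S : Subgroup H} {S' : Subgroup G} (hS : S.map f ≤ S') (h : TrivOn S' V) :
    TrivOn S V := by
  intro s hs v
  rw [← hfv]
  exact h _ (hS ⟨s, hs, rfl⟩) v

theorem alt_pull (h : Alt G V) : Alt H V := by
  rcases h with h | ⟨E, i1, i2, i3, Q, d, hQ, hV, hE, hEd, hj⟩
  · left
    exact trivOn_pull f hfv (map_derivedSeries_le_derivedSeries f 2) h
  · right
    let i4 : DistribMulAction H E := DistribMulAction.compHom E f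
    refine ⟨E, i1, i2, i4, Q, d, hQ, hV, hE, hEd, ?_⟩
    intro j hj1 htriv
    have h1 : TrivOn (derivedSeries G j) E := by
      intro g hg e
      rw [← map_derivedSeries_eq hf j] at hg
      obtain ⟨h, hh, rfl⟩ := hg
      exact htriv h hh e
    obtain ⟨h2, h3⟩ := hj j hj1 h1
    refine ⟨trivOn_pull f hfv (map_derivedSeries_le_derivedSeries f _) h2, ?_⟩
    intro hQ3
    refine trivOn_pull f hfv ?_ (h3 hQ3)
    rw [Subgroup.map_commutator]
    exact Subgroup.commutator_mono (map_derivedSeries_le_derivedSeries f _) le_top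

theorem alt1_pull (h : Alt1 G V) : Alt1 H V := by
  obtain ⟨Ω, i1, i2, i3, K, W, i4, i5, i6, i7, x, hK, hΩ, hV, hWx, hWV, hirr, hS⟩ := h
  let j2 : MulAction H Ω := MulAction.compHom Ω f
  have j3 : MulAction.IsPretransitive H Ω := by
    refine ⟨fun a b => ?_⟩
    obtain ⟨g, hg⟩ := MulAction.exists_smul_eq G a b
    obtain ⟨h, rfl⟩ := hf g
    exact ⟨h, hg⟩
  let K' : Subgroup H := K.comap f
  let fK : K' →* K :=
    { toFun := fun k => ⟨f (k : H), k.2⟩
      map_one' := Subtype.ext (map_one f)
      map_mul' := fun a b => Subtype.ext (map_mul f (a : H) (b : H)) }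
  have hfK : Function.Surjective fK := by
    rintro ⟨k, hk⟩
    obtain ⟨h, rfl⟩ := hf k
    exact ⟨⟨h, hk⟩, rfl⟩
  let j7 : DistribMulAction K' W := DistribMulAction.compHom W fK
  refine ⟨Ω, i1, j2, j3, K', W, i4, i5, i6, j7, x, ?_, hΩ, hV, hWx, hWV, ?_, ?_⟩
  · intro h
    exact hK (f h)
  · intro U hU
    apply hirr
    intro k u hu
    obtain ⟨k', rfl⟩ := hfK k
    exact hU k' u hu
  · intro S hSn htriv
    have e : ((S.map fK).map K.subtype) = (S.map K'.subtype).map f := by
      rw [Subgroup.map_map, Subgroup.map_map]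
      rfl
    have h1 : ((S.map fK).map K.subtype).Normal := by
      rw [e]
      exact hSn.map f hf
    have h2 := hS (S.map fK) h1 (by
      rintro _ ⟨s, hs, rfl⟩ w
      exact htriv s hs w)
    refine trivOn_pull f hfv ?_ h2
    rw [e]

end pull

end Lin

theorem lin_dich (H : Type) [Group H] [Group.IsSolvable H] (V : Type) [AddCommGroup V] [Finite V]
    [Nontrivial V] [DistribMulAction H V] (hirr : Irr H V) :
    (∃ (Ω : Type) (_ : Finite Ω) (_ : MulAction H Ω) (_ : MulAction.IsPretransitive H Ω)
      (K : Subgroup H) (W : Type) (_ : AddCommGroup W) (_ : Finite W) (_ : Nontrivial W)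
      (_ : DistribMulAction K W) (x : ℕ), (∀ h : H, h ∈ K ↔ ∀ ω : Ω, h • ω = ω) ∧
      2 ≤ Nat.card Ω ∧ x ^ Nat.card Ω = Nat.card V ∧ Nat.card W ≤ x ∧ Nat.card W ∣ Nat.card V ∧
      Irr K W ∧
      ∀ S : Subgroup K, (S.map K.subtype).Normal → TrivOn S W → TrivOn (S.map K.subtype) V) ∨
    TrivOn (derivedSeries H 2) V ∨
    (∃ (E : Type) (_ : AddCommGroup E) (_ : Finite E) (_ : DistribMulAction H E) (Q d : ℕ),
      3 ≤ Q ∧ Nat.card V = Q ^ d ∧ 2 ≤ Nat.card E ∧ Nat.card E ≤ d ^ 2 ∧
      ∀ j, 1 ≤ j → TrivOn (derivedSeries H j) E → TrivOn (derivedSeries H (j + 2)) V ∧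
        (Q = 3 → TrivOn ⁅derivedSeries H (j + 1), (⊤ : Subgroup H)⁆ V)) := by
  let ρ : H →* Equiv.Perm V := MulAction.toPermHom H V
  let f : H →* ρ.range := ρ.rangeRestrict
  have hf : Function.Surjective f := ρ.rangeRestrict_surjective
  have hsol : Group.IsSolvable ρ.range := Group.isSolvable_of_surjective hf
  let act : DistribMulAction ρ.range V :=
    { (inferInstance : MulAction ρ.range V) with
      smul_zero := by
        rintro ⟨_, h, rfl⟩
        exact smul_zero h
      smul_add := by
        rintro ⟨_, h, rfl⟩ v w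
        exact smul_add h v w }
  have hfv : ∀ (h : H) (v : V), f h • v = h • v := fun h v => rfl
  have hfaith : FaithfulSMul ρ.range V := inferInstance
  have hirr' : Irr ρ.range V := by
    intro W hW
    exact hirr W (fun h w hw => hW (f h) w hw)
  rcases Lin.main_finite (G := ρ.range) (V := V) hirr' with h | h
  · exact Or.inl (Lin.alt1_pull f hf hfv h)
  · exact Or.inr (Lin.alt_pull f hf hfv h)

end Pool.Agent.Helper59.Gap
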