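import Pool.Agent.Helper59.Gap.Trans
import Pool.Agent.Helper59.Gap.Lin
import Pool.Agent.Helper59.Gap.Chain

set_option autoImplicit false

/-!
# Soluble permutation groups and soluble linear groups: bounds for derived length and for costs of
outer commutator words
-/

namespace Pool.Agent.Helper59.Gap

theorem TrivOn.mono {H : Type} [Group H] {S T : Subgroup H} {X : Type} [SMul H X]
    (h : TrivOn T X) (hST : S ≤ T) : TrivOn S X :=
  fun g hg x => h g (hST hg) x

theorem Tr.comp_der (a b : ℕ) : (Tr.der b).comp (Tr.der a) = Tr.der (a + b) := by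
  induction b with
  | zero => rfl
  | succ b ih =>
    show Tr.node _ _ = _
    rw [ih]; rfl

/-- The composition principle. -/
theorem triv_comp {H : Type} [Group H] (K : Subgroup H) (hK : K.Normal) {X Y : Type}
    [MulAction H X] [SMul K Y] (σ τ : Tr) (h1 : σ.sub H ≤ K)
    (h2 : TrivOn (τ.sub K) Y)
    (h3 : ∀ S : Subgroup K, (S.map K.subtype).Normal → TrivOn S Y → TrivOn (S.map K.subtype) X) :
    TrivOn ((τ.comp σ).sub H) X :=
  (h3 _ (Tr.map_sub_normal K τ) h2).mono (Tr.sub_comp_le τ σ K h1)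

theorem kernel_normal {H : Type} [Group H] {X : Type} [MulAction H X] (K : Subgroup H)
    (hK : ∀ h : H, h ∈ K ↔ ∀ x : X, h • x = x) : K.Normal := by
  refine ⟨fun n hn g => ?_⟩
  rw [hK] at hn ⊢
  intro x
  rw [mul_smul, mul_smul, hn, smul_inv_smul]

/-- Transitive soluble groups: bound for the derived length (degree `n`). -/
def T1P (n : ℕ) : Prop :=
  ∀ (H : Type) [Group H] [Group.IsSolvable H] (Ω : Type) [Finite Ω] [MulAction H Ω]
    [MulAction.IsPretransitive H Ω], Nat.card Ω = n → 1 ≤ n →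
    ∃ j, 9 ^ j ≤ n ^ 5 ∧ TrivOn (derivedSeries H j) Ω

/-- Irreducible soluble groups: bound for the derived length (module of order `n`). -/
def LP (n : ℕ) : Prop :=
  ∀ (H : Type) [Group H] [Group.IsSolvable H] (V : Type) [AddCommGroup V] [Finite V]
    [Nontrivial V] [DistribMulAction H V], Irr H V → Nat.card V = n →
    ∃ j, 9 ^ (j + 1) ≤ n ^ 5 ∧ TrivOn (derivedSeries H j) V

/-- The bound for transitive actions implies the same bound for all actions. -/
theorem t1all (n : ℕ) (h : ∀ m ≤ n, T1P m) (H : Type) [Group H] [Group.IsSolvable H] (Ω : Type)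
    [Finite Ω] [Nonempty Ω] [MulAction H Ω] (hn : Nat.card Ω ≤ n) :
    ∃ j, 9 ^ j ≤ (Nat.card Ω) ^ 5 ∧ TrivOn (derivedSeries H j) Ω := by
  have hpos : 1 ≤ Nat.card Ω := Nat.card_pos
  have hpos5 : (Nat.card Ω) ^ 5 ≠ 0 := by positivity
  refine ⟨Nat.log 9 ((Nat.card Ω) ^ 5), Nat.pow_log_le_self 9 hpos5, ?_⟩
  intro g hg x
  have hcard : Nat.card (MulAction.orbit H x) ≤ Nat.card Ω :=
    Nat.card_le_card_of_injective _ Subtype.val_injective
  have hne : Nonempty (MulAction.orbit H x) := ⟨⟨x, MulAction.mem_orbit_self x⟩⟩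
  obtain ⟨j, hj, hj2⟩ := h (Nat.card (MulAction.orbit H x)) (hcard.trans hn) H
    (MulAction.orbit H x) rfl Nat.card_pos
  have hle : j ≤ Nat.log 9 ((Nat.card Ω) ^ 5) :=
    Nat.le_log_of_pow_le (by norm_num) (hj.trans (Nat.pow_le_pow_left hcard 5))
  have h2 := hj2 g (derivedSeries_antitone H hle hg) ⟨x, MulAction.mem_orbit_self x⟩
  exact congrArg Subtype.val h2

/-- The nonzero elements. -/
def nz (H E : Type) [Group H] [AddCommGroup E] [DistribMulAction H E] : SubMulAction H E where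
  carrier := {e | e ≠ 0}
  smul_mem' := fun h e he => by
    show h • e ≠ 0
    rwa [Ne, smul_eq_zero_iff_eq]

theorem card_nz (H E : Type) [Group H] [AddCommGroup E] [Finite E] [DistribMulAction H E] :
    Nat.card (nz H E) = Nat.card E - 1 := by
  classical
  have : Fintype E := Fintype.ofFinite E
  have h1 : Nat.card (nz H E) = Nat.card {e : E // e ≠ 0} := rfl
  rw [h1, Nat.card_eq_fintype_card, Nat.card_eq_fintype_card, Fintype.card_subtype_compl]
  simp

theorem triv_nz {H E : Type} [Group H] [AddCommGroup E] [DistribMulAction H E] {S : Subgroup H}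
    (h : TrivOn S (nz H E)) : TrivOn S E := by
  intro g hg x
  by_cases hx : x = 0
  · rw [hx, smul_zero]
  · exact congrArg Subtype.val (h g hg ⟨x, hx⟩)

theorem key_num (d j : ℕ) (hd : 2 ≤ d) (h : 9 ^ j ≤ (d ^ 2 - 1) ^ 5) : j ≤ 2 * d - 2 := by
  have main : (d ^ 2 - 1) ^ 5 < 9 ^ (2 * d - 1) := by
    rcases Nat.lt_or_ge d 4 with h4 | h4
    · interval_cases d <;> norm_num
    · have h5 : d ^ 10 < 9 ^ (2 * d - 1) := by
        clear h
        induction d, h4 using Nat.le_induction with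
        | base => norm_num
        | succ d hd4 ih =>
          have ih' := ih (by omega)
          have h6 : 9 ^ (2 * (d + 1) - 1) = 81 * 9 ^ (2 * d - 1) := by
            rw [show 2 * (d + 1) - 1 = (2 * d - 1) + 2 by omega, pow_add]; ring
          rw [h6]
          have h7 : 4 * (d + 1) ≤ 5 * d := by omega
          have h8 : (4 * (d + 1)) ^ 10 ≤ (5 * d) ^ 10 := Nat.pow_le_pow_left h7 10
          rw [mul_pow, mul_pow] at h8
          norm_num at h8
          omega
      calc (d ^ 2 - 1) ^ 5 ≤ (d ^ 2) ^ 5 := Nat.pow_le_pow_left (by omega) 5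
        _ = d ^ 10 := by rw [← pow_mul]
        _ < _ := h5
  have h2 : j < 2 * d - 1 := (Nat.pow_lt_pow_iff_right (by norm_num)).1 (h.trans_lt main)
  omega

theorem sq_lt_pow {Q d : ℕ} (hQ : 3 ≤ Q) : d ^ 2 < Q ^ d := by
  refine lt_of_lt_of_le ?_ (Nat.pow_le_pow_left hQ d)
  induction d with
  | zero => norm_num
  | succ d ih =>
    rcases Nat.lt_or_ge d 2 with h | h
    · interval_cases d <;> norm_num
    · rw [pow_succ 3]; nlinarith

/-- The third alternative of `lin_dich`: the section `E` is killed by a derived subgroup of small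
index. -/
theorem case3 (n : ℕ) (h : ∀ m < n, T1P m) (H : Type) [Group H] [Group.IsSolvable H]
    (E : Type) [AddCommGroup E] [Finite E] [DistribMulAction H E] (Q d : ℕ) (hQ : 3 ≤ Q)
    (hn : n = Q ^ d) (hE : 2 ≤ Nat.card E) (hE2 : Nat.card E ≤ d ^ 2) :
    ∃ j, 1 ≤ j ∧ j ≤ 2 * d - 2 ∧ 9 ^ j ≤ d ^ 10 ∧ TrivOn (derivedSeries H j) E := by
  have hd : 2 ≤ d := by
    by_contra hcon
    have : d ≤ 1 := by omega
    interval_cases d <;> simp at hE2 <;> omega
  have hcard := card_nz H E
  have hne : Nonempty (nz H E) := by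
    have : 0 < Nat.card (nz H E) := by omega
    exact (Nat.card_pos_iff.1 this).1
  obtain ⟨j, hj, hj2⟩ := t1all (Nat.card (nz H E)) (fun m hm => h m (by
    have := @sq_lt_pow Q d hQ
    omega)) H (nz H E) le_rfl
  have h3 : 9 ^ j ≤ (d ^ 2 - 1) ^ 5 := by
    refine hj.trans (Nat.pow_le_pow_left ?_ 5)
    omega
  have h4 := key_num d j hd h3
  refine ⟨max j 1, le_max_right _ _, by omega, ?_, ?_⟩
  · rcases le_total j 1 with h5 | h5
    · rw [max_eq_right h5]
      calc 9 ^ 1 ≤ 2 ^ 10 := by norm_num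
        _ ≤ d ^ 10 := Nat.pow_le_pow_left hd 10
    · rw [max_eq_left h5]
      calc 9 ^ j ≤ (d ^ 2 - 1) ^ 5 := h3
        _ ≤ (d ^ 2) ^ 5 := Nat.pow_le_pow_left (by omega) 5
        _ = d ^ 10 := by rw [← pow_mul]
  · exact triv_nz (hj2.mono (derivedSeries_antitone H (le_max_left _ _)))

theorem mul_le_pow {c x : ℕ} (hx : 2 ≤ x) (hc : 1 ≤ c) : c * x ≤ x ^ c := by
  induction c, hc using Nat.le_induction with
  | base => simp
  | succ c hc ih =>
    rw [pow_succ]
    have h1 : c + 1 ≤ x ^ c := by nlinarith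
    exact Nat.mul_le_mul_right x h1

theorem lt_pow_of {c x : ℕ} (hx : 2 ≤ x) (hc : 2 ≤ c) : c < x ^ c ∧ x < x ^ c := by
  have h1 := mul_le_pow hx (show 1 ≤ c by omega)
  constructor <;> nlinarith

/-- A group acting on a group with two elements acts trivially. -/
theorem triv_two {H V : Type} [Group H] [AddCommGroup V] [Finite V] [DistribMulAction H V]
    (hV : Nat.card V = 2) (S : Subgroup H) : TrivOn S V := by
  intro g _ x
  by_cases hx : x = 0
  · rw [hx, smul_zero]
  · have h1 : g • x ≠ 0 := by rwa [Ne, smul_eq_zero_iff_eq]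
    by_contra hcon
    have : Fintype V := Fintype.ofFinite V
    classical
    have h2 : ({0, x, g • x} : Finset V).card = 3 := by
      rw [Finset.card_eq_three]
      exact ⟨0, x, g • x, fun h => hx h.symm, fun h => h1 h.symm, fun h => hcon h.symm, rfl⟩
    have h3 := Finset.card_le_univ ({0, x, g • x} : Finset V)
    rw [← Nat.card_eq_fintype_card] at h3
    omega

open scoped commutatorElement

/-- The derived group acts trivially on a group with three elements. -/
theorem triv_three {H V : Type} [Group H] [AddCommGroup V] [Finite V] [DistribMulAction H V]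
    (hV : Nat.card V = 3) : TrivOn (derivedSeries H 1) V := by
  have key : ∀ g : H, ∀ x : V, g • x = x ∨ g • x = -x := by
    intro g x
    by_cases hx : x = 0
    · left; rw [hx, smul_zero]
    · have h1 : g • x ≠ 0 := by rwa [Ne, smul_eq_zero_iff_eq]
      by_contra hcon
      push Not at hcon
      have : Fintype V := Fintype.ofFinite V
      classical
      have h3x : (3 : ℕ) • x = 0 := by
        rw [← hV]
        exact card_nsmul_eq_zero'
      have hneg : -x ≠ x := by
        intro h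
        have h2 : (2 : ℕ) • x = 0 := by
          rw [two_nsmul]
          nth_rewrite 1 [← h]
          simp
        have h4 : (3 : ℕ) • x = (2 : ℕ) • x + x := succ_nsmul x 2
        rw [h3x, h2, zero_add] at h4
        exact hx h4.symm
      have h2 : ({0, x, -x, g • x} : Finset V).card = 4 := by
        rw [Finset.card_insert_of_notMem, Finset.card_insert_of_notMem,
          Finset.card_insert_of_notMem, Finset.card_singleton]
        · simp only [Finset.mem_singleton]
          exact fun h => hcon.2 h.symm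
        · simp only [Finset.mem_insert, Finset.mem_singleton]
          rintro (h | h)
          · exact hneg h.symm
          · exact hcon.1 h.symm
        · simp only [Finset.mem_insert, Finset.mem_singleton]
          rintro (h | h | h)
          · exact hx h.symm
          · exact hx (neg_eq_zero.1 h.symm)
          · exact h1 h.symm
      have h3 := Finset.card_le_univ ({0, x, -x, g • x} : Finset V)
      rw [← Nat.card_eq_fintype_card] at h3
      omega
  have hcomm : ∀ g h : H, ∀ x : V, g • h • x = h • g • x := by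
    intro g h x
    rcases key g x with h1 | h1 <;> rcases key h x with h2 | h2 <;>
      simp only [h1, h2, smul_neg]
  have hle : derivedSeries H 1 ≤ (MulAction.toPermHom H V).ker := by
    rw [derivedSeries_one, commutator_def, Subgroup.commutator_le]
    intro g _ h _
    rw [MonoidHom.mem_ker, map_commutatorElement, commutatorElement_eq_one_iff_mul_comm]
    ext x
    exact hcomm g h x
  intro g hg x
  have h1 := hle hg
  rw [MonoidHom.mem_ker] at h1
  exact congrArg (fun e : Equiv.Perm V => e x) h1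

/-- Metabelian case, derived length. -/
theorem case2 {H V : Type} [Group H] [AddCommGroup V] [Finite V] [Nontrivial V]
    [DistribMulAction H V] (h : TrivOn (derivedSeries H 2) V) :
    ∃ j, 9 ^ (j + 1) ≤ (Nat.card V) ^ 5 ∧ 4 * 4 ^ j ≤ (Nat.card V) ^ 3 ∧
      TrivOn (derivedSeries H j) V := by
  have h2 : 2 ≤ Nat.card V := Finite.one_lt_card
  rcases Nat.lt_or_ge (Nat.card V) 4 with h4 | h4
  · obtain h5 | h5 : Nat.card V = 2 ∨ Nat.card V = 3 := by omega
    · exact ⟨0, by rw [h5]; norm_num, by rw [h5]; norm_num, triv_two h5 _⟩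
    · exact ⟨1, by rw [h5]; norm_num, by rw [h5]; norm_num, triv_three h5⟩
  · refine ⟨2, ?_, ?_, h⟩
    · calc 9 ^ (2 + 1) ≤ 4 ^ 5 := by norm_num
        _ ≤ _ := Nat.pow_le_pow_left h4 5
    · calc 4 * 4 ^ 2 ≤ 4 ^ 3 := by norm_num
        _ ≤ _ := Nat.pow_le_pow_left h4 3

theorem LP_T1P (n : ℕ) : LP n ∧ T1P n := by
  induction n using Nat.strong_induction_on with
  | _ n ih =>
  have hL : LP n := by
    intro H _ _ V _ _ _ _ hirr hV
    have hn2 : 2 ≤ n := by rw [← hV]; exact Finite.one_lt_card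
    rcases lin_dich H V hirr with
      ⟨Ω, _, _, _, K, W, _, _, _, _, x, hK, hc, hxc, hWx, -, hirrW, htr⟩ | h2 |
      ⟨E, _, _, _, Q, d, hQ, hQd, hE, hE2, hE3⟩
    · have hx2 : 2 ≤ x := le_trans (by exact Finite.one_lt_card) hWx
      rw [hV] at hxc
      obtain ⟨h3, h4⟩ := lt_pow_of hx2 hc
      rw [hxc] at h3 h4
      have hne : Nonempty Ω := (Nat.card_pos_iff.1 (by omega)).1
      obtain ⟨j1, hj1, hj1'⟩ := (ih (Nat.card Ω) h3).2 H Ω rfl (by omega)
      obtain ⟨j2, hj2, hj2'⟩ := (ih (Nat.card W) (by omega)).1 K W hirrW rfl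
      refine ⟨j1 + j2, ?_, ?_⟩
      · calc 9 ^ (j1 + j2 + 1) = 9 ^ j1 * 9 ^ (j2 + 1) := by rw [← pow_add]; ring_nf
          _ ≤ (Nat.card Ω) ^ 5 * (Nat.card W) ^ 5 := Nat.mul_le_mul hj1 hj2
          _ = (Nat.card Ω * Nat.card W) ^ 5 := by rw [mul_pow]
          _ ≤ n ^ 5 := by
            refine Nat.pow_le_pow_left ?_ 5
            rw [← hxc]
            exact (Nat.mul_le_mul_left _ hWx).trans (mul_le_pow hx2 (by omega))
      · have h5 := triv_comp (X := V) (Y := W) K (kernel_normal K hK) (Tr.der j1) (Tr.der j2)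
          (by
            rw [Tr.sub_der]
            intro g hg
            exact (hK g).2 (fun ω => hj1' g hg ω)) (by rw [Tr.sub_der]; exact hj2') htr
        rwa [Tr.comp_der, Tr.sub_der] at h5
    · obtain ⟨j, hj, -, hj2⟩ := case2 h2
      exact ⟨j, by rw [← hV]; exact hj, hj2⟩
    · obtain ⟨j, hj1, hj2, -, hj3⟩ := case3 n (fun m hm => (ih m hm).2) H E Q d hQ
        (by rw [← hV, hQd]) hE hE2
      refine ⟨j + 2, ?_, (hE3 j hj1 hj3).1⟩
      have hd : 2 ≤ d := by
        by_contra hcon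
        omega
      rw [← hV, hQd]
      calc 9 ^ (j + 2 + 1) ≤ 9 ^ (2 * d + 1) := Nat.pow_le_pow_right (by norm_num) (by omega)
        _ = 3 ^ (2 * (2 * d + 1)) := by rw [pow_mul]; norm_num
        _ ≤ 3 ^ (d * 5) := Nat.pow_le_pow_right (by norm_num) (by omega)
        _ = (3 ^ d) ^ 5 := by rw [pow_mul]
        _ ≤ (Q ^ d) ^ 5 := Nat.pow_le_pow_left (Nat.pow_le_pow_left hQ d) 5
  refine ⟨hL, ?_⟩
  intro H _ _ Ω _ _ _ hn hn1
  rcases Nat.lt_or_ge n 2 with h2 | h2
  · have h1 : n = 1 := by omega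
    refine ⟨0, by rw [h1]; norm_num, ?_⟩
    intro g _ x
    have : Subsingleton Ω := (Nat.card_eq_one_iff_unique.1 (by rw [hn, h1])).1
    exact Subsingleton.elim _ _
  · rcases trans_dich H Ω (by rw [hn]; exact h2) with
      ⟨Ω', _, _, _, K, O, _, _, _, hK, h3, h4, h5, h6⟩ | ⟨V, _, _, _, hV, hirr, h7⟩
    · rw [hn] at h5
      obtain ⟨j1, hj1, hj1'⟩ := (ih (Nat.card Ω') (by nlinarith)).2 H Ω' rfl (by omega)
      obtain ⟨j2, hj2, hj2'⟩ := (ih (Nat.card O) (by nlinarith)).2 K O rfl (by omega)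
      refine ⟨j1 + j2, ?_, ?_⟩
      · rw [pow_add, ← h5, mul_pow]
        exact Nat.mul_le_mul hj1 hj2
      · have h8 := triv_comp (X := Ω) (Y := O) K (kernel_normal K hK) (Tr.der j1) (Tr.der j2)
          (by
            rw [Tr.sub_der]
            intro g hg
            exact (hK g).2 (fun ω => hj1' g hg ω)) (by rw [Tr.sub_der]; exact hj2') h6
        rwa [Tr.comp_der, Tr.sub_der] at h8
    · have : Nontrivial V := by
        rw [← Finite.one_lt_card_iff_nontrivial, hV, hn]; omega
      obtain ⟨j, hj, hj2⟩ := hL H V hirr (by rw [hV, hn])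
      exact ⟨j + 1, hj, by
        rw [derivedSeries_succ]
        exact h7 _ hj2⟩

/-- Every action of a soluble group on a nonempty finite set. -/
theorem t1 (H : Type) [Group H] [Group.IsSolvable H] (Ω : Type)
    [Finite Ω] [Nonempty Ω] [MulAction H Ω] :
    ∃ j, 9 ^ j ≤ (Nat.card Ω) ^ 5 ∧ TrivOn (derivedSeries H j) Ω :=
  t1all (Nat.card Ω) (fun m _ => (LP_T1P m).2) H Ω le_rfl

/-- Costs: transitive actions of degree `n`. -/
def T1Q (n : ℕ) : Prop :=
  ∀ (H : Type) [Group H] [Group.IsSolvable H] (Ω : Type) [Finite Ω] [MulAction H Ω]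
    [MulAction.IsPretransitive H Ω], Nat.card Ω = n → 1 ≤ n →
    ∃ τ : Tr, τ.cost ≤ n ^ 3 ∧ TrivOn (τ.sub H) Ω

/-- Costs: irreducible actions on groups of order `n`. -/
def LQ (n : ℕ) : Prop :=
  ∀ (H : Type) [Group H] [Group.IsSolvable H] (V : Type) [AddCommGroup V] [Finite V]
    [Nontrivial V] [DistribMulAction H V], Irr H V → Nat.card V = n →
    ∃ τ : Tr, 4 * τ.cost ≤ n ^ 3 ∧ TrivOn (τ.sub H) V

theorem num_q3 (d : ℕ) (hd : 2 ≤ d) : 8 * (4 ^ (2 * d - 1) + 1) ≤ 27 ^ d := by
  have h : 2 * 16 ^ d + 8 ≤ 27 ^ d := by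
    induction d, hd using Nat.le_induction with
    | base => norm_num
    | succ d hd ih => rw [pow_succ, pow_succ]; omega
  have h2 : 4 * 4 ^ (2 * d - 1) = 16 ^ d := by
    rw [← pow_succ', show 2 * d - 1 + 1 = 2 * d by omega, pow_mul]; norm_num
  omega

theorem LQ_T1Q (n : ℕ) : LQ n ∧ T1Q n := by
  induction n using Nat.strong_induction_on with
  | _ n ih =>
  have hL : LQ n := by
    intro H _ _ V _ _ _ _ hirr hV
    have hn2 : 2 ≤ n := by rw [← hV]; exact Finite.one_lt_card
    rcases lin_dich H V hirr with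
      ⟨Ω, _, _, _, K, W, _, _, _, _, x, hK, hc, hxc, hWx, -, hirrW, htr⟩ | h2 |
      ⟨E, _, _, _, Q, d, hQ, hQd, hE, hE2, hE3⟩
    · have hx2 : 2 ≤ x := le_trans (by exact Finite.one_lt_card) hWx
      rw [hV] at hxc
      obtain ⟨h3, h4⟩ := lt_pow_of hx2 hc
      rw [hxc] at h3 h4
      obtain ⟨σ, hσ, hσ'⟩ := (ih (Nat.card Ω) h3).2 H Ω rfl (by omega)
      obtain ⟨τ, hτ, hτ'⟩ := (ih (Nat.card W) (by omega)).1 K W hirrW rfl
      refine ⟨τ.comp σ, ?_, ?_⟩
      · rw [Tr.cost_comp]
        calc 4 * (τ.cost * σ.cost) = σ.cost * (4 * τ.cost) := by ring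
          _ ≤ (Nat.card Ω) ^ 3 * (Nat.card W) ^ 3 := Nat.mul_le_mul hσ hτ
          _ = (Nat.card Ω * Nat.card W) ^ 3 := by rw [mul_pow]
          _ ≤ n ^ 3 := by
            refine Nat.pow_le_pow_left ?_ 3
            rw [← hxc]
            exact (Nat.mul_le_mul_left _ hWx).trans (mul_le_pow hx2 (by omega))
      · exact triv_comp (X := V) (Y := W) K (kernel_normal K hK) σ τ
          (fun g hg => (hK g).2 (fun ω => hσ' g hg ω)) hτ' htr
    · obtain ⟨j, -, hj, hj2⟩ := case2 h2
      exact ⟨Tr.der j, by rw [← hV, Tr.cost_der]; exact hj, by rw [Tr.sub_der]; exact hj2⟩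
    · obtain ⟨j, hj1, hj2, -, hj3⟩ := case3 n (fun m _ => (LP_T1P m).2) H E Q d hQ
        (by rw [← hV, hQd]) hE hE2
      have hd : 2 ≤ d := by omega
      rcases Nat.lt_or_ge Q 4 with hQ4 | hQ4
      · have hQ3 : Q = 3 := by omega
        refine ⟨Tr.node (Tr.der (j + 1)) Tr.leaf, ?_, ?_⟩
        · rw [← hV, hQd, hQ3]
          simp only [Tr.cost, Tr.cost_der]
          calc 4 * (2 * (4 ^ (j + 1) + 1)) = 8 * (4 ^ (j + 1) + 1) := by ring
            _ ≤ 8 * (4 ^ (2 * d - 1) + 1) := by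
              refine Nat.mul_le_mul_left _ (Nat.add_le_add_right ?_ 1)
              exact Nat.pow_le_pow_right (by norm_num) (by omega)
            _ ≤ 27 ^ d := num_q3 d hd
            _ = (3 ^ d) ^ 3 := by rw [← pow_mul, mul_comm, pow_mul]; norm_num
        · simp only [Tr.sub, Tr.sub_der]
          exact (hE3 j hj1 hj3).2 hQ3
      · refine ⟨Tr.der (j + 2), ?_, ?_⟩
        · rw [← hV, hQd, Tr.cost_der]
          calc 4 * 4 ^ (j + 2) = 4 ^ (j + 3) := by ring
            _ ≤ 4 ^ (d * 3) := Nat.pow_le_pow_right (by norm_num) (by omega)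
            _ = (4 ^ d) ^ 3 := by rw [pow_mul]
            _ ≤ (Q ^ d) ^ 3 := Nat.pow_le_pow_left (Nat.pow_le_pow_left hQ4 d) 3
        · rw [Tr.sub_der]
          exact (hE3 j hj1 hj3).1
  refine ⟨hL, ?_⟩
  intro H _ _ Ω _ _ _ hn hn1
  rcases Nat.lt_or_ge n 2 with h2 | h2
  · have h1 : n = 1 := by omega
    refine ⟨Tr.leaf, by rw [h1]; norm_num [Tr.cost], ?_⟩
    intro g _ x
    have : Subsingleton Ω := (Nat.card_eq_one_iff_unique.1 (by rw [hn, h1])).1
    exact Subsingleton.elim _ _
  · rcases trans_dich H Ω (by rw [hn]; exact h2) with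
      ⟨Ω', _, _, _, K, O, _, _, _, hK, h3, h4, h5, h6⟩ | ⟨V, _, _, _, hV, hirr, h7⟩
    · rw [hn] at h5
      obtain ⟨σ, hσ, hσ'⟩ := (ih (Nat.card Ω') (by nlinarith)).2 H Ω' rfl (by omega)
      obtain ⟨τ, hτ, hτ'⟩ := (ih (Nat.card O) (by nlinarith)).2 K O rfl (by omega)
      refine ⟨τ.comp σ, ?_, ?_⟩
      · rw [Tr.cost_comp, ← h5, mul_comm, mul_pow]
        exact Nat.mul_le_mul hσ hτ
      · exact triv_comp (X := Ω) (Y := O) K (kernel_normal K hK) σ τ
          (fun g hg => (hK g).2 (fun ω => hσ' g hg ω)) hτ' h6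
    · have : Nontrivial V := by
        rw [← Finite.one_lt_card_iff_nontrivial, hV, hn]; omega
      obtain ⟨τ, hτ, hτ2⟩ := hL H V hirr (by rw [hV, hn])
      refine ⟨Tr.node τ τ, ?_, h7 _ hτ2⟩
      simp only [Tr.cost]
      omega

end Pool.Agent.Helper59.Gap
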