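import Pool.Agent.Helper59.Gap.Defs

set_option autoImplicit false

/-! Formation argument. -/

open scoped commutatorElement

namespace Pool.Agent.Helper59.Gap

namespace Nilp

open Subgroup

/-- lifting nilpotency through a normal subgroup inside the Frattini subgroup -/
theorem frat_case (Q : Type) [Group Q] [Finite Q] (X V : Subgroup Q) [X.Normal] [V.Normal]
    (hVX : V ≤ X) (hVF : V ≤ frattini Q)
    (hnil : Group.IsNilpotent (X.map (QuotientGroup.mk' V))) : Group.IsNilpotent X := by
  have q := (Group.isNilpotent_of_finite_tfae (G := X)).out 0 3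
  rw [q]; clear q
  intro p hp P
  set π := QuotientGroup.mk' V with hπ
  have hπs : Function.Surjective π := QuotientGroup.mk'_surjective V
  have hf : Function.Surjective (π.subgroupMap X) := MonoidHom.subgroupMap_surjective π X
  haveI hXn : (X.map π).Normal := Subgroup.Normal.map inferInstance π hπs
  haveI : Finite (Sylow p (X.map π)) := inferInstance
  let Pb : Sylow p (X.map π) := P.mapSurjective hf
  haveI hPbn : (Pb : Subgroup (X.map π)).Normal := inferInstance
  haveI hPbc : (Pb : Subgroup (X.map π)).Characteristic := Pb.characteristic_of_normal hPbn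
  have hPb : (Pb : Subgroup (X.map π)) = (P : Subgroup X).map (π.subgroupMap X) := rfl
  let Kb : Subgroup (Q ⧸ V) := (Pb : Subgroup (X.map π)).map (X.map π).subtype
  haveI hKbn : Kb.Normal := ConjAct.normal_of_characteristic_of_normal
  let N : Subgroup Q := Kb.comap π
  haveI hNn : N.Normal := Subgroup.Normal.comap hKbn π
  let Pm : Subgroup Q := (P : Subgroup X).map X.subtype
  have hKbPm : ∀ y : Q ⧸ V, y ∈ Kb → ∃ x ∈ Pm, π x = y := by
    rintro y ⟨z, hz, rfl⟩
    rw [SetLike.mem_coe, hPb] at hz
    obtain ⟨x, hx, rfl⟩ := hz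
    exact ⟨x, ⟨x, hx, rfl⟩, rfl⟩
  have hPmN : Pm ≤ N := by
    rintro _ ⟨x, hx, rfl⟩
    refine ⟨π.subgroupMap X x, ?_, rfl⟩
    exact ⟨x, hx, rfl⟩
  have hPmX : Pm ≤ X := by
    rintro _ ⟨x, _, rfl⟩
    exact x.2
  have hNle : N ≤ Pm ⊔ V := by
    intro n hn
    obtain ⟨x, hx, hxn⟩ := hKbPm (π n) hn
    have h1 : x⁻¹ * n ∈ V := by
      have : π (x⁻¹ * n) = 1 := by rw [map_mul, map_inv, hxn, inv_mul_cancel]
      exact (QuotientGroup.eq_one_iff _).1 this
    have h2 : n = x * (x⁻¹ * n) := by group
    rw [h2]
    exact mul_mem (le_sup_left (a := Pm) hx) (le_sup_right (a := Pm) h1)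
  have hNX : N ≤ X := hNle.trans (sup_le hPmX hVX)
  have hPmp : IsPGroup p Pm := P.isPGroup'.map X.subtype
  have hsub : IsPGroup p (Pm.subgroupOf N) := hPmp.comap_of_injective N.subtype N.subtype_injective
  have hidx : ¬ p ∣ (Pm.subgroupOf N).index := by
    intro hdvd
    have h1 : Pm.relIndex N * N.relIndex X = Pm.relIndex X := Subgroup.relIndex_mul_relIndex Pm N X hPmN hNX
    have h2 : Pm.subgroupOf X = (P : Subgroup X) := by
      exact Subgroup.comap_map_eq_self_of_injective X.subtype_injective _
    have h3 : Pm.relIndex X = (P : Subgroup X).index := by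
      rw [Subgroup.relIndex, h2]
    have h4 : ¬ p ∣ (P : Subgroup X).index := P.not_dvd_index
    apply h4
    rw [← h3, ← h1]
    exact Dvd.dvd.mul_right hdvd _
  let PN : Sylow p N := hsub.toSylow hidx
  have hPNm : (PN : Subgroup N).map N.subtype = Pm := by
    change (Pm.subgroupOf N).map N.subtype = Pm
    rw [Subgroup.subgroupOf_map_subtype]
    exact inf_eq_left.2 hPmN
  have hfr := Sylow.normalizer_sup_eq_top PN
  rw [hPNm] at hfr
  have htop : Subgroup.normalizer (Pm : Set Q) ⊔ frattini Q = ⊤ := by
    rw [eq_top_iff, ← hfr]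
    refine sup_le le_sup_left (hNle.trans (sup_le ?_ ?_))
    · exact Subgroup.le_normalizer.trans le_sup_left
    · exact hVF.trans le_sup_right
  have hnorm := frattini_nongenerating htop
  have hPn : (Pm).Normal := normalizer_eq_top_iff.mp hnorm
  exact hPn.of_map_subtype

theorem main (n : ℕ) : ∀ (Q : Type) [Group Q] [Finite Q] [Group.IsSolvable Q], Nat.card Q = n →
    ∀ (s : ℕ), (∀ (P : Type) [Group P] [Finite P] (f : Q →* P), Function.Surjective f →
      ∀ V : Subgroup P, V.Normal → V ≠ ⊥ →
      (∀ W : Subgroup P, W.Normal → W ≤ V → W = ⊥ ∨ W = V) →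
      Subgroup.centralizer (V : Set P) = V → derivedSeries P s ≤ V) →
    Group.IsNilpotent (derivedSeries Q s) := by
  induction n using Nat.strong_induction_on with
  | _ n IH =>
    intro Q _ _ _ hn s h
    by_cases hX : derivedSeries Q s = ⊥
    · rw [hX]
      infer_instance
    -- quotients
    have hquot : ∀ (N : Subgroup Q) [N.Normal], N ≠ ⊥ →
        Group.IsNilpotent ((derivedSeries Q s).map (QuotientGroup.mk' N)) := by
      intro N hN hNb
      have hs : Function.Surjective (QuotientGroup.mk' N) := QuotientGroup.mk'_surjective N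
      rw [map_derivedSeries_eq hs]
      have hcard : Nat.card Q = Nat.card (Q ⧸ N) * Nat.card N :=
        Subgroup.card_eq_card_quotient_mul_card_subgroup N
      have hN1 : 1 < Nat.card N := by
        rw [Finite.one_lt_card_iff_nontrivial]
        exact (Subgroup.nontrivial_iff_ne_bot N).2 hNb
      have hq : 0 < Nat.card (Q ⧸ N) := Nat.card_pos
      have hlt : Nat.card (Q ⧸ N) < n := by
        rw [← hn, hcard]
        exact lt_mul_of_one_lt_right hq hN1
      haveI : Group.IsSolvable (Q ⧸ N) := inferInstance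
      exact IH _ hlt (Q ⧸ N) rfl s (fun P _ _ f hf => h P (f.comp (QuotientGroup.mk' N)) (hf.comp hs))
    -- a minimal normal subgroup
    have hQb : (⊤ : Subgroup Q) ≠ ⊥ := by
      intro htb
      apply hX
      rw [eq_bot_iff, ← htb]
      exact le_top
    obtain ⟨V, hVm⟩ : ∃ V, Minimal (fun V : Subgroup Q => V.Normal ∧ V ≠ ⊥) V := by
      have hS : ({V : Subgroup Q | V.Normal ∧ V ≠ ⊥}).Finite := Set.toFinite _
      exact hS.exists_minimal ⟨⊤, inferInstance, hQb⟩
    obtain ⟨⟨hVn, hVb⟩, hVmin⟩ := hVm
    have hVmin' : ∀ W : Subgroup Q, W.Normal → W ≤ V → W = ⊥ ∨ W = V := by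
      intro W hW hWV
      by_cases hWb : W = ⊥
      · exact Or.inl hWb
      · exact Or.inr (le_antisymm hWV (hVmin ⟨hW, hWb⟩ hWV))
    by_cases hA : ∃ N : Subgroup Q, N.Normal ∧ N ≠ ⊥ ∧ N ⊓ V = ⊥
    · obtain ⟨N, hNn, hNb, hNV⟩ := hA
      have h1 := hquot N hNb
      have h2 := hquot V hVb
      let g := ((QuotientGroup.mk' N).subgroupMap (derivedSeries Q s)).prod
        ((QuotientGroup.mk' V).subgroupMap (derivedSeries Q s))
      refine Subgroup.isNilpotent_of_ker_le_center g ?_
      intro x hx
      rw [MonoidHom.mem_ker] at hx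
      have hx1 : QuotientGroup.mk' N (x : Q) = 1 := by
        have := congrArg (fun z => ((z.1 : (derivedSeries Q s).map (QuotientGroup.mk' N)) : Q ⧸ N)) hx
        exact this
      have hx2 : QuotientGroup.mk' V (x : Q) = 1 := by
        have := congrArg (fun z => ((z.2 : (derivedSeries Q s).map (QuotientGroup.mk' V)) : Q ⧸ V)) hx
        exact this
      have hx3 : (x : Q) ∈ N ⊓ V := ⟨(QuotientGroup.eq_one_iff _).1 hx1, (QuotientGroup.eq_one_iff _).1 hx2⟩
      rw [hNV, Subgroup.mem_bot] at hx3
      have : x = 1 := Subtype.ext hx3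
      rw [this]
      exact one_mem _
    push Not at hA
    have hB : ∀ N : Subgroup Q, N.Normal → N ≠ ⊥ → V ≤ N := by
      intro N hN hNb
      haveI := hN
      haveI := hVn
      rcases hVmin' (N ⊓ V) inferInstance inf_le_right with h1 | h1
      · exact absurd h1 (hA N hN hNb)
      · rw [← h1]; exact inf_le_left
    haveI hXn : (derivedSeries Q s).Normal := inferInstance
    have hVX : V ≤ derivedSeries Q s := hB _ hXn hX
    haveI := hVn
    by_cases hF : V ≤ frattini Q
    · exact frat_case Q _ V hVX hF (hquot V hVb)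
    -- a complement
    obtain ⟨M, hM, hVM⟩ : ∃ M : Subgroup Q, IsCoatom M ∧ ¬ V ≤ M := by
      by_contra hcon
      push Not at hcon
      apply hF
      rw [frattini, Order.radical]
      exact le_iInf₂ (fun M hM => hcon M hM)
    have hMV : M ⊔ V = ⊤ := by
      rcases eq_or_lt_of_le (le_sup_left : M ≤ M ⊔ V) with h1 | h1
      · exact absurd (h1 ▸ le_sup_right) hVM
      · exact hM.2 _ h1
    have hVab : ⁅V, V⁆ = ⊥ := by
      have h1 : ⁅V, V⁆ < V := Group.IsSolvable.commutator_lt_of_ne_bot hVb
      rcases hVmin' ⁅V, V⁆ inferInstance h1.le with h2 | h2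
      · exact h2
      · exact absurd h2 h1.ne
    have hVcomm : ∀ v ∈ V, ∀ w ∈ V, v * w = w * v := by
      intro v hv w hw
      have : ⁅v, w⁆ ∈ ⁅V, V⁆ := Subgroup.commutator_mem_commutator hv hw
      rw [hVab, Subgroup.mem_bot, commutatorElement_eq_one_iff_mul_comm] at this
      exact this
    set C := Subgroup.centralizer (V : Set Q) with hC
    haveI hCn : C.Normal := inferInstance
    have hVC : V ≤ C := by
      intro v hv
      rw [hC, Subgroup.mem_centralizer_iff]
      intro w hw
      exact hVcomm w hw v hv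
    have hCM : (C ⊓ M).Normal := by
      rw [← Subgroup.normalizer_eq_top_iff, eq_top_iff, ← hMV]
      refine sup_le ?_ ?_
      · intro m hm
        rw [Subgroup.mem_normalizer_iff]
        intro x
        constructor
        · rintro ⟨hx1, hx2⟩
          exact ⟨hCn.conj_mem x hx1 m, M.mul_mem (M.mul_mem hm hx2) (M.inv_mem hm)⟩
        · rintro ⟨hx1, hx2⟩
          have e : x = m⁻¹ * (m * x * m⁻¹) * m := by group
          refine ⟨?_, ?_⟩
          · rw [e]
            have := hCn.conj_mem _ hx1 m⁻¹
            rwa [inv_inv] at this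
          · rw [e]
            exact M.mul_mem (M.mul_mem (M.inv_mem hm) hx2) hm
      · intro v hv
        rw [Subgroup.mem_normalizer_iff]
        intro x
        constructor
        · rintro ⟨hx1, hx2⟩
          have e : v * x = x * v := (Subgroup.mem_centralizer_iff.1 hx1) v hv
          have e2 : v * x * v⁻¹ = x := by rw [e]; group
          rw [e2]
          exact ⟨hx1, hx2⟩
        · intro hx
          have hx1 : v * x * v⁻¹ ∈ C := hx.1
          have hvx : x ∈ C := by
            have e : x = v⁻¹ * (v * x * v⁻¹) * v := by group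
            rw [e]
            exact mul_mem (mul_mem (inv_mem (hVC hv)) hx1) (hVC hv)
          have e : v * x = x * v := (Subgroup.mem_centralizer_iff.1 hvx) v hv
          have e2 : v * x * v⁻¹ = x := by rw [e]; group
          rw [e2] at hx
          exact hx
    have hCMb : C ⊓ M = ⊥ := by
      by_contra hne
      exact hVM ((hB _ hCM hne).trans inf_le_right)
    have hCV : C = V := by
      apply le_antisymm _ hVC
      intro c hc
      have : c ∈ M ⊔ V := by rw [hMV]; trivial
      rw [Subgroup.mem_sup_of_normal_right] at this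
      obtain ⟨m, hm, v, hv, rfl⟩ := this
      have hmC : m ∈ C := by
        have e : m = m * v * v⁻¹ := by group
        rw [e]
        exact mul_mem hc (inv_mem (hVC hv))
      have hm1 : m ∈ C ⊓ M := ⟨hmC, hm⟩
      rw [hCMb, Subgroup.mem_bot] at hm1
      rw [hm1, one_mul]
      exact hv
    have hle : derivedSeries Q s ≤ V :=
      h Q (MonoidHom.id Q) Function.surjective_id V hVn hVb hVmin' hCV
    have hcomm : ∀ a b : derivedSeries Q s, a * b = b * a := fun a b =>
      Subtype.ext (hVcomm _ (hle a.2) _ (hle b.2))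
    letI : CommGroup (derivedSeries Q s) := { (inferInstance : Group (derivedSeries Q s)) with mul_comm := hcomm }
    exact CommGroup.isNilpotent

end Nilp

/-- Module GAP-3 (file Pool/Agent/Helper59/Gap/Nilp.lean). Formation argument. -/
theorem nilp_of_primitive (Q : Type) [Group Q] [Finite Q] [Group.IsSolvable Q] (s : ℕ)
    (h : ∀ (P : Type) [Group P] [Finite P] (f : Q →* P), Function.Surjective f →
      ∀ V : Subgroup P, V.Normal → V ≠ ⊥ →
      (∀ W : Subgroup P, W.Normal → W ≤ V → W = ⊥ ∨ W = V) →
      Subgroup.centralizer (V : Set P) = V → derivedSeries P s ≤ V) :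
    Group.IsNilpotent (derivedSeries Q s) :=
  Nilp.main (Nat.card Q) Q rfl s h

end Pool.Agent.Helper59.Gap
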