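import Pool.Agent.Helper59.Gap.Defs

set_option autoImplicit false

/-!
# Soluble groups with finitely generated derived subgroups are residually finite (GAP-4)
-/

namespace Pool.Agent.Helper59.Gap

namespace ResFin

open scoped commutatorElement

theorem fg_map {G G' : Type} [Group G] [Group G'] (f : G →* G') {P : Subgroup G} (h : P.FG) :
    (P.map f).FG := by
  rw [Subgroup.fg_iff_submonoid_fg] at h ⊢
  exact h.map f

/-- In a finitely generated abelian group, only the trivial element has all roots. -/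
theorem eq_one_of_div (K : Type) [CommGroup K] [Group.FG K] (k : K)
    (h : ∀ n : ℕ, 0 < n → ∃ a : K, a ^ n = k) : k = 1 := by
  obtain ⟨ι, j, _, _, p, hp, e, ⟨f⟩⟩ := CommGroup.equiv_free_prod_prod_multiplicative_zmod K
  apply f.injective
  rw [map_one]
  apply Prod.ext
  · funext i
    set z : ℤ := Multiplicative.toAdd ((f k).1 i) with hz
    obtain ⟨a, ha⟩ := h (z.natAbs + 1) (by omega)
    have h1 : z = ((z.natAbs + 1 : ℕ) : ℤ) * Multiplicative.toAdd ((f a).1 i) := by
      rw [hz]
      conv_lhs => rw [← ha]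
      rw [map_pow, Prod.pow_fst, Pi.pow_apply, toAdd_pow, nsmul_eq_mul]
    have h2 : z = 0 := by
      apply Int.eq_zero_of_dvd_of_natAbs_lt_natAbs (d := ((z.natAbs + 1 : ℕ) : ℤ))
      · exact ⟨_, h1⟩
      · omega
    have h3 : Multiplicative.ofAdd z = 1 := by rw [h2]; rfl
    exact h3
  · funext i
    obtain ⟨a, ha⟩ := h (p i ^ e i) (pow_pos (hp i).pos _)
    rw [← ha, map_pow, Prod.pow_snd, Pi.pow_apply]
    apply Multiplicative.toAdd.injective
    rw [toAdd_pow, nsmul_eq_mul, ZMod.natCast_self, zero_mul]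
    rfl

/-- The subgroup of `n`-th powers of a commutative normal subgroup. -/
def powSub {G : Type} [Group G] (Z : Subgroup G) (hZ : ∀ a ∈ Z, ∀ b ∈ Z, a * b = b * a) (n : ℕ) :
    Subgroup G where
  carrier := {x | ∃ a ∈ Z, a ^ n = x}
  one_mem' := ⟨1, Z.one_mem, one_pow n⟩
  mul_mem' := by
    rintro _ _ ⟨a, ha, rfl⟩ ⟨b, hb, rfl⟩
    exact ⟨a * b, Z.mul_mem ha hb, (show Commute a b from hZ a ha b hb).mul_pow n⟩
  inv_mem' := by
    rintro _ ⟨a, ha, rfl⟩
    exact ⟨a⁻¹, Z.inv_mem ha, inv_pow a n⟩

theorem powSub_normal {G : Type} [Group G] (Z : Subgroup G) [Z.Normal]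
    (hZ : ∀ a ∈ Z, ∀ b ∈ Z, a * b = b * a) (n : ℕ) : (powSub Z hZ n).Normal := by
  refine ⟨?_⟩
  rintro _ ⟨a, ha, rfl⟩ g
  exact ⟨g * a * g⁻¹, (inferInstance : Z.Normal).conj_mem a ha g, conj_pow⟩

/-- An infinite normal subgroup which is abelian and finitely generated cannot exist in a monolithic
group. -/
theorem no_abelian {G : Type} [Group G] (g : G) (hg : g ≠ 1)
    (hmon : ∀ N : Subgroup G, N.Normal → N ≠ ⊥ → g ∈ N) (Z : Subgroup G) [Z.Normal]
    (hZ : ∀ a ∈ Z, ∀ b ∈ Z, a * b = b * a) (hfg : Z.FG) : Finite Z := by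
  by_contra hinf
  haveI : Group.FG Z := (Group.fg_iff_subgroup_fg Z).2 hfg
  letI : CommGroup Z :=
    { (inferInstance : Group Z) with
      mul_comm := fun a b => Subtype.ext (hZ a a.2 b b.2) }
  have hne : ∀ n : ℕ, 0 < n → powSub Z hZ n ≠ ⊥ := by
    intro n hn hbot
    apply hinf
    apply CommGroup.finite_of_fg_isMulTorsion Z
    intro a
    rw [isOfFinOrder_iff_pow_eq_one]
    refine ⟨n, hn, ?_⟩
    have h1 : (a : G) ^ n ∈ powSub Z hZ n := ⟨a, a.2, rfl⟩
    rw [hbot, Subgroup.mem_bot] at h1
    exact Subtype.ext h1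
  have hmem : ∀ n : ℕ, 0 < n → g ∈ powSub Z hZ n := fun n hn =>
    hmon _ (powSub_normal Z hZ n) (hne n hn)
  obtain ⟨a, ha, ha1⟩ := hmem 1 one_pos
  rw [pow_one] at ha1
  subst ha1
  have h1 : (⟨a, ha⟩ : Z) = 1 := by
    apply eq_one_of_div Z
    intro n hn
    obtain ⟨b, hb, hb1⟩ := hmem n hn
    exact ⟨⟨b, hb⟩, Subtype.ext hb1⟩
  exact hg (congrArg Subtype.val h1)

/-- A finitely generated infinite normal subgroup whose commutators lie in a finite subgroup and
are central cannot exist in a monolithic group. -/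
theorem no_class_two {G : Type} [Group G] (g : G) (hg : g ≠ 1)
    (hmon : ∀ N : Subgroup G, N.Normal → N ≠ ⊥ → g ∈ N) (C : Subgroup G) [C.Normal]
    (hfg : C.FG) (D : Subgroup G) [Finite D] (hD : ∀ x ∈ C, ∀ y ∈ C, ⁅x, y⁆ ∈ D)
    (hDC : ∀ d ∈ D, ∀ x ∈ C, d * x = x * d) : Finite C := by
  haveI : Group.FG C := (Group.fg_iff_subgroup_fg C).2 hfg
  have hcomm : ∀ x y : C, ⁅x, y⁆ ∈ Subgroup.center C := by
    intro x y
    rw [Subgroup.mem_center_iff]
    intro z
    apply Subtype.ext
    exact (hDC _ (hD x x.2 y y.2) z z.2).symm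
  letI : CommGroup (C ⧸ Subgroup.center C) :=
    { (inferInstance : Group (C ⧸ Subgroup.center C)) with
      mul_comm := by
        intro a b
        induction a using QuotientGroup.induction_on with
        | H x =>
          induction b using QuotientGroup.induction_on with
          | H y =>
            rw [← QuotientGroup.mk_mul, ← QuotientGroup.mk_mul, QuotientGroup.eq]
            have h1 := hcomm y⁻¹ x⁻¹
            have h2 : (x * y)⁻¹ * (y * x) = ⁅y⁻¹, x⁻¹⁆ := by
              rw [commutatorElement_def]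
              group
            rw [h2]
            exact h1 }
  have hpow : ∀ x y : C, x ^ (Nat.card D) * y = y * x ^ (Nat.card D) := by
    intro x y
    have h1 : ∀ n : ℕ, x ^ n * y = ⁅x, y⁆ ^ n * (y * x ^ n) := by
      intro n
      induction n with
      | zero => simp
      | succ n ih =>
        have h2 : x * ⁅x, y⁆ ^ n = ⁅x, y⁆ ^ n * x := by
          have h3 : Commute x (⁅x, y⁆) := Subgroup.mem_center_iff.1 (hcomm x y) x
          exact h3.pow_right n
        have h4 : x * y = ⁅x, y⁆ * (y * x) := by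
          rw [commutatorElement_def]
          group
        calc x ^ (n + 1) * y = x * (x ^ n * y) := by rw [pow_succ', mul_assoc]
          _ = x * (⁅x, y⁆ ^ n * (y * x ^ n)) := by rw [ih]
          _ = ⁅x, y⁆ ^ n * (x * y * x ^ n) := by rw [← mul_assoc, h2]; group
          _ = ⁅x, y⁆ ^ n * (⁅x, y⁆ * (y * x) * x ^ n) := by rw [← h4]
          _ = ⁅x, y⁆ ^ (n + 1) * (y * x ^ (n + 1)) := by
              rw [pow_succ, pow_succ']
              group
    have h5 : ⁅x, y⁆ ^ (Nat.card D) = 1 := by
      apply Subtype.ext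
      have h6 := hD x x.2 y y.2
      have h7 : (⟨⁅(x : G), (y : G)⁆, h6⟩ : D) ^ (Nat.card D) = 1 := pow_card_eq_one'
      have h8 : ⁅(x : G), (y : G)⁆ ^ (Nat.card D) = 1 := congrArg (fun z : D => (z : G)) h7
      exact h8
    rw [h1, h5, one_mul]
  haveI : Finite (C ⧸ Subgroup.center C) := by
    apply CommGroup.finite_of_fg_isMulTorsion
    intro a
    induction a using QuotientGroup.induction_on with
    | H x =>
      rw [isOfFinOrder_iff_pow_eq_one]
      refine ⟨Nat.card D, Nat.card_pos, ?_⟩
      rw [← QuotientGroup.mk_pow, QuotientGroup.eq_one_iff, Subgroup.mem_center_iff]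
      intro y
      exact (hpow x y).symm
  haveI : (Subgroup.center C).FiniteIndex := Subgroup.finiteIndex_of_finite_quotient
  have hcfg : (Subgroup.center C).FG :=
    (Group.fg_iff_subgroup_fg _).1 (inferInstance : Group.FG (Subgroup.center C))
  haveI hnorm : ((Subgroup.center C).map C.subtype).Normal :=
    ConjAct.normal_of_characteristic_of_normal
  have hfin : Finite ((Subgroup.center C).map C.subtype) := by
    apply no_abelian g hg hmon ((Subgroup.center C).map C.subtype)
    · rintro _ ⟨a, ha, rfl⟩ _ ⟨b, -, rfl⟩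
      exact congrArg Subtype.val (Subgroup.mem_center_iff.1 ha b).symm
    · exact fg_map _ hcfg
  have hfin2 : Finite (Subgroup.center C) := by
    refine Finite.of_injective
      (fun x : Subgroup.center C => (⟨C.subtype x, ⟨x, x.2, rfl⟩⟩ :
        (Subgroup.center C).map C.subtype)) ?_
    intro x y hxy
    have h1 := congrArg Subtype.val hxy
    exact Subtype.ext (Subtype.ext h1)
  exact (Subgroup.finite_iff_finite_and_finiteIndex (H := Subgroup.center C)).2
    ⟨hfin2, inferInstance⟩

/-- A monolithic soluble group with finitely generated derived subgroups is finite. -/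
theorem finite_of_mono {G : Type} [Group G] [Group.IsSolvable G]
    (hfg : ∀ i, (derivedSeries G i).FG) (g : G) (hg : g ≠ 1)
    (hmon : ∀ N : Subgroup G, N.Normal → N ≠ ⊥ → g ∈ N) : Finite G := by
  classical
  have hex : ∃ n, Finite (derivedSeries G n) := by
    obtain ⟨n, hn⟩ := (Group.isSolvable_def G).1 inferInstance
    exact ⟨n, by rw [hn]; infer_instance⟩
  set m := Nat.find hex with hm
  have hfin : Finite (derivedSeries G m) := Nat.find_spec hex
  rcases Nat.eq_zero_or_pos m with h0 | h0
  · rw [h0, derivedSeries_zero] at hfin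
    exact Finite.of_equiv _ (Subgroup.topEquiv (G := G)).toEquiv
  exfalso
  obtain ⟨i, hi⟩ : ∃ i, m = i + 1 := ⟨m - 1, by omega⟩
  rw [hi] at hfin
  have hinf : ¬ Finite (derivedSeries G i) := Nat.find_min hex (by omega)
  set D := derivedSeries G (i + 1) with hDdef
  set X := derivedSeries G i with hXdef
  haveI hDn : D.Normal := derivedSeries_normal (G := G) (i + 1)
  haveI hXn : X.Normal := derivedSeries_normal (G := G) i
  set Z := (MulAut.conjNormal (H := D)).ker with hZdef
  haveI : Finite (MulAut D) := inferInstance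
  haveI hZfi : Z.FiniteIndex := Subgroup.finiteIndex_ker _
  have hZmem : ∀ z ∈ Z, ∀ d ∈ D, d * z = z * d := by
    intro z hz d hd
    rw [hZdef, MonoidHom.mem_ker] at hz
    have h1 := MulAut.conjNormal_apply z ⟨d, hd⟩
    rw [hz] at h1
    have h2 : d = z * d * z⁻¹ := h1
    calc d * z = z * d * z⁻¹ * z := by rw [← h2]
      _ = z * d := by group
  haveI : Group.FG X := (Group.fg_iff_subgroup_fg X).2 (hfg i)
  have hC2 : ((Z.subgroupOf X).map X.subtype) = Z ⊓ X := Subgroup.subgroupOf_map_subtype Z X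
  have hCfg : (Z ⊓ X).FG := by
    rw [← hC2]
    have : (Z.subgroupOf X).FG :=
      (Group.fg_iff_subgroup_fg _).1 (inferInstance : Group.FG (Z.subgroupOf X))
    exact fg_map _ this
  haveI : (Z ⊓ X).Normal := inferInstance
  have hCfin : Finite (Z ⊓ X : Subgroup G) := by
    apply no_class_two g hg hmon (Z ⊓ X) hCfg D
    · intro x hx y hy
      rw [hDdef, derivedSeries_succ]
      exact Subgroup.commutator_mem_commutator hx.2 hy.2
    · intro d hd x hx
      exact hZmem x hx.1 d hd
  apply hinf
  rw [Subgroup.finite_iff_finite_and_finiteIndex (H := Z.subgroupOf X)]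
  refine ⟨?_, inferInstance⟩
  refine Finite.of_injective (fun x : Z.subgroupOf X => (⟨(x : X), x.2, (x : X).2⟩ :
    (Z ⊓ X : Subgroup G))) ?_
  intro x y hxy
  have h1 := congrArg Subtype.val hxy
  exact Subtype.ext (Subtype.ext h1)

/-- Zorn: a normal subgroup maximal among those which do not contain `g`. -/
theorem exists_max {G : Type} [Group G] (g : G) (hg : g ≠ 1) :
    ∃ M : Subgroup G, M.Normal ∧ g ∉ M ∧ ∀ N : Subgroup G, N.Normal → M < N → g ∈ N := by
  obtain ⟨M, hM⟩ := zorn_le_nonempty₀ {N : Subgroup G | N.Normal ∧ g ∉ N} (by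
    intro c hc hchain y hy
    refine ⟨sSup c, ⟨?_, ?_⟩, fun z hz => le_sSup hz⟩
    · refine ⟨?_⟩
      intro n hn h
      rw [Subgroup.mem_sSup_of_directedOn ⟨y, hy⟩ hchain.directedOn] at hn ⊢
      obtain ⟨N, hN, hnN⟩ := hn
      exact ⟨N, hN, (hc hN).1.conj_mem n hnN h⟩
    · intro hgm
      rw [Subgroup.mem_sSup_of_directedOn ⟨y, hy⟩ hchain.directedOn] at hgm
      obtain ⟨N, hN, hnN⟩ := hgm
      exact (hc hN).2 hnN) ⊥ ⟨inferInstance, by rwa [Subgroup.mem_bot]⟩
  refine ⟨M, hM.2.prop.1, hM.2.prop.2, ?_⟩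
  intro N hN hlt
  by_contra hgN
  exact hlt.not_ge (hM.2.le_of_ge ⟨hN, hgN⟩ hlt.le)

end ResFin

/-- Module GAP-4. Soluble groups with finitely generated derived subgroups are residually finite
(Hirsch). -/
theorem residually_finite (G : Type) [Group G] [Group.IsSolvable G]
    (hfg : ∀ i, (derivedSeries G i).FG) (g : G) (hg : g ≠ 1) :
    ∃ N : Subgroup G, N.Normal ∧ N.FiniteIndex ∧ g ∉ N := by
  obtain ⟨M, hM, hgM, hmax⟩ := ResFin.exists_max g hg
  refine ⟨M, hM, ?_, hgM⟩
  haveI := hM
  have hsurj := QuotientGroup.mk'_surjective M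
  have hfin : Finite (G ⧸ M) := by
    haveI : Group.IsSolvable (G ⧸ M) := Group.isSolvable_of_surjective hsurj
    apply ResFin.finite_of_mono (G := G ⧸ M) ?_ (QuotientGroup.mk' M g) ?_ ?_
    · intro i
      rw [← map_derivedSeries_eq hsurj i]
      exact ResFin.fg_map _ (hfg i)
    · intro h
      apply hgM
      rw [QuotientGroup.mk'_apply, QuotientGroup.eq_one_iff] at h
      exact h
    · intro N hN hNe
      have h1 : M < N.comap (QuotientGroup.mk' M) := by
        refine lt_of_le_of_ne ?_ ?_
        · intro x hx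
          rw [Subgroup.mem_comap]
          have : QuotientGroup.mk' M x = 1 := by
            rw [QuotientGroup.mk'_apply, QuotientGroup.eq_one_iff]
            exact hx
          rw [this]
          exact N.one_mem
        · intro heq
          apply hNe
          rw [eq_bot_iff]
          intro y hy
          obtain ⟨x, rfl⟩ := hsurj y
          have h2 : x ∈ N.comap (QuotientGroup.mk' M) := hy
          rw [← heq] at h2
          rw [Subgroup.mem_bot, QuotientGroup.mk'_apply, QuotientGroup.eq_one_iff]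
          exact h2
      have h3 := hmax _ (hN.comap _) h1
      exact h3
  exact Subgroup.finiteIndex_of_finite_quotient

end Pool.Agent.Helper59.Gap
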