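import Pool.Agent.Helper59.Gap.Primitive
import Pool.Agent.Helper59.Gap.Nilp
import Pool.Agent.Helper59.Gap.ResFin

set_option autoImplicit false

/-!
# The structure theorem for residually soluble groups of slow growth
-/

namespace Pool.Agent.Helper59.Gap

/-- The exponent may be increased. -/
theorem growth_mono {γ : ℕ → ℝ} {β β' : ℝ} (h : β ≤ β') (hβ' : 0 ≤ β') (C : ℕ)
    (hγ0 : γ 0 ≤ 1)
    (hgr : ∀ n : ℕ, γ n ≤ Real.exp (((C : ℝ) * (n : ℝ)) ^ β)) (n : ℕ) :
    γ n ≤ Real.exp ((((C + 1 : ℕ) : ℝ) * (n : ℝ)) ^ β') := by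
  rcases Nat.eq_zero_or_pos n with hn | hn
  · rw [hn]
    refine hγ0.trans (Real.one_le_exp (Real.rpow_nonneg (by positivity) _))
  · have hn1 : (1 : ℝ) ≤ n := by exact_mod_cast hn
    have hC0 : (0 : ℝ) ≤ C := by positivity
    have hx1 : (1 : ℝ) ≤ ((C + 1 : ℕ) : ℝ) * (n : ℝ) := by
      push_cast
      nlinarith
    refine (hgr n).trans (Real.exp_le_exp.2 ?_)
    rcases Nat.eq_zero_or_pos C with hC | hC
    · have h1 : ((C : ℝ) * (n : ℝ)) ^ β ≤ 1 := by
        rw [hC]
        simp only [Nat.cast_zero, zero_mul]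
        rcases eq_or_ne β 0 with h0 | h0
        · rw [h0, Real.rpow_zero]
        · rw [Real.zero_rpow h0]; norm_num
      exact h1.trans (Real.one_le_rpow hx1 hβ')
    · have hC1 : (1 : ℝ) ≤ C := by exact_mod_cast hC
      have hCn : (1 : ℝ) ≤ (C : ℝ) * n := by nlinarith
      calc ((C : ℝ) * (n : ℝ)) ^ β ≤ ((C : ℝ) * (n : ℝ)) ^ β' :=
            Real.rpow_le_rpow_of_exponent_le hCn h
        _ ≤ (((C + 1 : ℕ) : ℝ) * (n : ℝ)) ^ β' := by
          refine Real.rpow_le_rpow (by positivity) ?_ hβ'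
          push_cast
          nlinarith

/-- **The structure theorem.** -/
theorem main (G : Type) [Group G]
    (hres : ∀ g : G, g ≠ 1 → ∃ (H : Type) (_ : Group H), Group.IsSolvable H ∧
      ∃ φ : G →* H, φ g ≠ 1)
    (S : Finset G) (hS : ∀ s ∈ S, s⁻¹ ∈ S) (hgen : Subgroup.closure (S : Set G) = ⊤)
    (β : ℝ) (hβ : β < 1 / 4)
    (hgr : ∃ C : ℕ, ∀ n : ℕ,
      (Nat.card (ball S n) : ℝ) ≤ Real.exp (((C : ℝ) * (n : ℝ)) ^ β)) :
    ∃ d : ℕ, (∀ i, (derivedSeries G i).FG) ∧
      ∀ g : G, g ≠ 1 → ∃ (Q : Type) (_ : Group Q) (φ : G →* Q), Finite Q ∧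
        Function.Surjective φ ∧ φ g ≠ 1 ∧ Group.IsSolvable Q ∧
        Group.IsNilpotent (derivedSeries Q d) := by
  obtain ⟨C, hC⟩ := hgr
  set β' : ℝ := max β (1 / 8) with hβ'
  have hβ'0 : 0 < β' := lt_of_lt_of_le (by norm_num) (le_max_right _ _)
  have hβ'4 : β' < 1 / 4 := max_lt hβ (by norm_num)
  have hball0 : (Nat.card (ball S 0) : ℝ) ≤ 1 := by
    have h1 : ball S 0 = {1} := by
      ext g
      constructor
      · rintro ⟨l, hl, -, rfl⟩
        have : l = [] := List.length_eq_zero_iff.1 (by omega)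
        simp [this]
      · rintro rfl
        exact one_mem_ball S 0
    rw [h1]
    simp
  have hgr' := growth_mono (γ := fun n => (Nat.card (ball S n) : ℝ)) (le_max_left β (1 / 8))
    hβ'0.le C hball0 hC
  have hsq := slow_sq S β' (C + 1) hβ'0 (by linarith) hgr'
  have hfg := derivedSeries_fg S hS hgen hsq
  obtain ⟨s, hs⟩ := prim_bound G S hS hgen β' (C + 1) hβ'0 hβ'4 hgr'
  refine ⟨s, hfg, fun g hg => ?_⟩
  obtain ⟨H, _, hH, φ, hφ⟩ := hres g hg
  -- `G` modulo a derived subgroup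
  obtain ⟨m, hm⟩ := hH
  have hgm : g ∉ derivedSeries G m := by
    intro hmem
    have h1 : φ g ∈ (derivedSeries G m).map φ := ⟨g, hmem, rfl⟩
    have h2 := map_derivedSeries_le_derivedSeries φ m h1
    rw [hm, Subgroup.mem_bot] at h2
    exact hφ h2
  let Gb := G ⧸ derivedSeries G m
  let π : G →* Gb := QuotientGroup.mk' (derivedSeries G m)
  have hπ : Function.Surjective π := QuotientGroup.mk'_surjective _
  have hsolv : Group.IsSolvable Gb := by
    refine ⟨m, ?_⟩
    rw [← map_derivedSeries_eq hπ, Subgroup.map_eq_bot_iff, QuotientGroup.ker_mk']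
  have hfg' : ∀ i, (derivedSeries Gb i).FG := by
    intro i
    rw [← map_derivedSeries_eq hπ]
    obtain ⟨X, hX, hXf⟩ := (Subgroup.fg_iff _).1 (hfg i)
    rw [← hX, MonoidHom.map_closure]
    exact (Subgroup.fg_iff _).2 ⟨_, rfl, hXf.image π⟩
  have hπg : π g ≠ 1 := by
    intro h1
    rw [← MonoidHom.mem_ker, QuotientGroup.ker_mk'] at h1
    exact hgm h1
  obtain ⟨N, hN, hNf, hgN⟩ := residually_finite Gb hfg' (π g) hπg
  let Q := Gb ⧸ N
  let ψ : G →* Q := (QuotientGroup.mk' N).comp π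
  have hψ : Function.Surjective ψ := (QuotientGroup.mk'_surjective N).comp hπ
  have hQf : Finite Q := inferInstance
  have hQs : Group.IsSolvable Q := Group.isSolvable_of_surjective (QuotientGroup.mk'_surjective N)
  refine ⟨Q, inferInstance, ψ, hQf, hψ, ?_, hQs, ?_⟩
  · intro h1
    refine hgN ?_
    have h2 : QuotientGroup.mk' N (π g) = 1 := h1
    rwa [← MonoidHom.mem_ker, QuotientGroup.ker_mk'] at h2
  · refine nilp_of_primitive Q s ?_
    intro P _ _ f hf V hVn hV hmin hC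
    have hPs : Group.IsSolvable P := Group.isSolvable_of_surjective hf
    exact hs P (f.comp ψ) (hf.comp hψ) V hVn hV hmin hC

end Pool.Agent.Helper59.Gap
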