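import Pool.Agent.Helper59.Gap.Ind

set_option autoImplicit false

/-!
# Irreducible soluble groups: bounds in terms of the rank
-/

namespace Pool.Agent.Helper59.Gap

/-- An irreducible finite module has prime power order. -/
theorem irr_card (H F : Type) [Group H] [AddCommGroup F] [Finite F] [Nontrivial F]
    [DistribMulAction H F] (hirr : Irr H F) : ∃ p s : ℕ, p.Prime ∧ Nat.card F = p ^ s := by
  have h1 : Nat.card F ≠ 1 := by
    have : 1 < Nat.card F := Finite.one_lt_card
    omega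
  obtain ⟨p, hp, hpF⟩ := Nat.exists_prime_and_dvd h1
  have : Fact p.Prime := ⟨hp⟩
  let W : AddSubgroup F :=
    { carrier := {x | p • x = 0}
      add_mem' := fun {a b} (ha : p • a = 0) (hb : p • b = 0) => by
        show p • (a + b) = 0
        rw [nsmul_add, ha, hb, add_zero]
      zero_mem' := by show p • (0 : F) = 0; rw [nsmul_zero]
      neg_mem' := fun {a} (ha : p • a = 0) => by
        show p • (-a) = 0
        rw [smul_neg, ha, neg_zero] }
  have hW : ∀ h : H, ∀ w ∈ W, h • w ∈ W := by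
    intro h w hw
    show p • (h • w) = 0
    have hw' : p • w = 0 := hw
    have h2 : p • (h • w) = h • (p • w) := by
      have := map_nsmul (DistribSMul.toAddMonoidHom F h) p w
      simpa using this.symm
    rw [h2, hw', smul_zero]
  have hfin : Finite F := inferInstance
  obtain ⟨x, hx⟩ := exists_prime_addOrderOf_dvd_card' (G := F) p hpF
  have hxW : x ∈ W := by
    show p • x = 0
    rw [← hx]; exact addOrderOf_nsmul_eq_zero x
  have hx0 : x ≠ 0 := by
    rintro rfl
    rw [addOrderOf_zero] at hx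
    exact hp.one_lt.ne hx
  rcases hirr W hW with h3 | h3
  · rw [h3, AddSubgroup.mem_bot] at hxW
    exact absurd hxW hx0
  · have h4 : ∀ y : F, p • y = 0 := fun y => by
      have : y ∈ W := by rw [h3]; trivial
      exact this
    have h5 : IsPGroup p (Multiplicative F) := by
      intro y
      exact ⟨1, by
        rw [pow_one]
        exact h4 (Multiplicative.toAdd y)⟩
    obtain ⟨s, hs⟩ := (IsPGroup.iff_card).1 h5
    exact ⟨p, s, hp, hs⟩

/-- The weak bound for the derived length in terms of the rank. -/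
theorem t2weak (n : ℕ) : ∀ (H : Type) [Group H] [Group.IsSolvable H] (V : Type) [AddCommGroup V]
    [Finite V] [Nontrivial V] [DistribMulAction H V], Irr H V → Nat.card V = n →
    ∀ p r : ℕ, p.Prime → n = p ^ r →
    ∃ j, 9 ^ j ≤ 729 * r ^ 10 ∧ TrivOn (derivedSeries H j) V := by
  induction n using Nat.strong_induction_on with
  | _ n ih =>
  intro H _ _ V _ _ _ _ hirr hV p r hp hpr
  have hn2 : 2 ≤ n := by rw [← hV]; exact Finite.one_lt_card
  have hr1 : 1 ≤ r := by
    by_contra hcon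
    have : r = 0 := by omega
    rw [this, pow_zero] at hpr
    omega
  rcases lin_dich H V hirr with
    ⟨Ω, _, _, _, K, W, _, _, _, _, x, hK, hc, hxc, hWx, hWV, hirrW, htr⟩ | h2 |
    ⟨E, _, _, _, Q, d, hQ, hQd, hE, hE2, hE3⟩
  · have hx2 : 2 ≤ x := le_trans (by exact Finite.one_lt_card) hWx
    rw [hV] at hxc hWV
    obtain ⟨h3, h4⟩ := lt_pow_of hx2 hc
    rw [hxc] at h3 h4
    have hne : Nonempty Ω := (Nat.card_pos_iff.1 (by omega)).1
    obtain ⟨a, ha, hxa⟩ : ∃ a ≤ r, x = p ^ a := by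
      refine (Nat.dvd_prime_pow hp).1 ?_
      rw [← hpr, ← hxc]
      exact dvd_pow_self x (by omega)
    obtain ⟨s, hs, hWs⟩ : ∃ s ≤ r, Nat.card W = p ^ s := by
      refine (Nat.dvd_prime_pow hp).1 ?_
      rw [← hpr]; exact hWV
    have hsa : s ≤ a := by
      rw [hWs, hxa] at hWx
      exact (Nat.pow_le_pow_iff_right hp.one_lt).1 hWx
    have hac : a * Nat.card Ω = r := by
      rw [hxa, ← pow_mul, hpr] at hxc
      exact Nat.pow_right_injective hp.two_le hxc
    obtain ⟨j1, hj1, hj1'⟩ := t1 H Ω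
    obtain ⟨j2, hj2, hj2'⟩ := ih (Nat.card W) (by omega) K W hirrW rfl p s hp hWs
    refine ⟨j1 + j2, ?_, ?_⟩
    · have hcs : Nat.card Ω * s ≤ r := by
        rw [← hac, mul_comm]
        exact Nat.mul_le_mul_right _ hsa
      calc 9 ^ (j1 + j2) = 9 ^ j1 * 9 ^ j2 := pow_add _ _ _
        _ ≤ (Nat.card Ω) ^ 5 * (729 * s ^ 10) := Nat.mul_le_mul hj1 hj2
        _ ≤ (Nat.card Ω) ^ 10 * (729 * s ^ 10) := by
          refine Nat.mul_le_mul_right _ (Nat.pow_le_pow_right (by omega) (by norm_num))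
        _ = 729 * (Nat.card Ω * s) ^ 10 := by rw [mul_pow]; ring
        _ ≤ 729 * r ^ 10 := Nat.mul_le_mul_left _ (Nat.pow_le_pow_left hcs 10)
    · have h5 := triv_comp (X := V) (Y := W) K (kernel_normal K hK) (Tr.der j1) (Tr.der j2)
        (by
          rw [Tr.sub_der]
          intro g hg
          exact (hK g).2 (fun ω => hj1' g hg ω)) (by rw [Tr.sub_der]; exact hj2') htr
      rwa [Tr.comp_der, Tr.sub_der] at h5
  · refine ⟨2, ?_, h2⟩
    have : 1 ≤ r ^ 10 := Nat.one_le_pow _ _ (by omega)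
    omega
  · obtain ⟨j, hj1, hj2, hj4, hj3⟩ := case3 n (fun m _ => (LP_T1P m).2) H E Q d hQ
      (by rw [← hV, hQd]) hE hE2
    have hd : 2 ≤ d := by omega
    have hdr : d ≤ r := by
      have h5 : Q ∣ p ^ r := by
        rw [← hpr, ← hV, hQd]
        exact dvd_pow_self Q (by omega)
      obtain ⟨e, -, he⟩ := (Nat.dvd_prime_pow hp).1 h5
      have h6 : e * d = r := by
        rw [he, ← pow_mul, hV, hpr] at hQd
        exact (Nat.pow_right_injective hp.two_le hQd).symm
      have he1 : 1 ≤ e := by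
        by_contra hcon
        have : e = 0 := by omega
        rw [this, pow_zero] at he
        omega
      nlinarith
    refine ⟨j + 2, ?_, (hE3 j hj1 hj3).1⟩
    calc 9 ^ (j + 2) = 81 * 9 ^ j := by ring
      _ ≤ 81 * d ^ 10 := Nat.mul_le_mul_left _ hj4
      _ ≤ 729 * r ^ 10 := Nat.mul_le_mul (by norm_num) (Nat.pow_le_pow_left hdr 10)

theorem pow_twelve_le (L : ℕ) : L ^ 12 ≤ 10 ^ 10 * 2 ^ L := by
  rcases Nat.lt_or_ge L 18 with h | h
  · interval_cases L <;> norm_num
  · induction L, h using Nat.le_induction with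
    | base => norm_num
    | succ L hL ih =>
      have h1 : 18 * (L + 1) ≤ 19 * L := by omega
      have h2 : (18 * (L + 1)) ^ 12 ≤ (19 * L) ^ 12 := Nat.pow_le_pow_left h1 12
      rw [mul_pow, mul_pow] at h2
      norm_num at h2
      have h3 : 10 ^ 10 * 2 ^ (L + 1) = 2 * (10 ^ 10 * 2 ^ L) := by ring
      rw [h3]
      omega

theorem two_pow_clog (m : ℕ) (hm : 1 ≤ m) : 2 ^ Nat.clog 2 m ≤ 2 * m := by
  rcases Nat.lt_or_ge m 2 with h | h
  · have : m = 1 := by omega
    rw [this]; simp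
  · have h1 : 2 ^ (Nat.clog 2 m - 1) < m := Nat.pow_pred_clog_lt_self (by norm_num) h
    have h2 : 1 ≤ Nat.clog 2 m := Nat.clog_pos (by norm_num) h
    have h3 : 2 ^ Nat.clog 2 m = 2 * 2 ^ (Nat.clog 2 m - 1) := by
      rw [← pow_succ']; congr 1; omega
    omega

/-- The constant. -/
def c0 : ℕ := 186624 * (2 * 10 ^ 10)

/-- The cost bound in terms of the rank. -/
theorem t2 (n : ℕ) : ∀ (H : Type) [Group H] [Group.IsSolvable H] (V : Type) [AddCommGroup V]
    [Finite V] [Nontrivial V] [DistribMulAction H V], Irr H V → Nat.card V = n →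
    ∀ p r : ℕ, p.Prime → n = p ^ r →
    ∃ τ : Tr, τ.cost ≤ c0 * r ^ 3 ∧ TrivOn (τ.sub H) V := by
  induction n using Nat.strong_induction_on with
  | _ n ih =>
  intro H _ _ V _ _ _ _ hirr hV p r hp hpr
  have hn2 : 2 ≤ n := by rw [← hV]; exact Finite.one_lt_card
  have hr1 : 1 ≤ r := by
    by_contra hcon
    have : r = 0 := by omega
    rw [this, pow_zero] at hpr
    omega
  rcases lin_dich H V hirr with
    ⟨Ω, _, _, _, K, W, _, _, _, _, x, hK, hc, hxc, hWx, hWV, hirrW, htr⟩ | h2 |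
    ⟨E, _, _, _, Q, d, hQ, hQd, hE, hE2, hE3⟩
  · have hx2 : 2 ≤ x := le_trans (by exact Finite.one_lt_card) hWx
    rw [hV] at hxc hWV
    obtain ⟨h3, h4⟩ := lt_pow_of hx2 hc
    rw [hxc] at h3 h4
    obtain ⟨a, ha, hxa⟩ : ∃ a ≤ r, x = p ^ a := by
      refine (Nat.dvd_prime_pow hp).1 ?_
      rw [← hpr, ← hxc]
      exact dvd_pow_self x (by omega)
    obtain ⟨s, hs, hWs⟩ : ∃ s ≤ r, Nat.card W = p ^ s := by
      refine (Nat.dvd_prime_pow hp).1 ?_
      rw [← hpr]; exact hWV
    have hsa : s ≤ a := by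
      rw [hWs, hxa] at hWx
      exact (Nat.pow_le_pow_iff_right hp.one_lt).1 hWx
    have hac : a * Nat.card Ω = r := by
      rw [hxa, ← pow_mul, hpr] at hxc
      exact Nat.pow_right_injective hp.two_le hxc
    obtain ⟨σ, hσ, hσ'⟩ := (LQ_T1Q (Nat.card Ω)).2 H Ω rfl (by omega)
    obtain ⟨τ, hτ, hτ'⟩ := ih (Nat.card W) (by omega) K W hirrW rfl p s hp hWs
    refine ⟨τ.comp σ, ?_, ?_⟩
    · have hcs : Nat.card Ω * s ≤ r := by
        rw [← hac, mul_comm]
        exact Nat.mul_le_mul_right _ hsa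
      rw [Tr.cost_comp]
      calc τ.cost * σ.cost ≤ (c0 * s ^ 3) * (Nat.card Ω) ^ 3 := Nat.mul_le_mul hτ hσ
        _ = c0 * (Nat.card Ω * s) ^ 3 := by rw [mul_pow]; ring
        _ ≤ c0 * r ^ 3 := Nat.mul_le_mul_left _ (Nat.pow_le_pow_left hcs 3)
    · exact triv_comp (X := V) (Y := W) K (kernel_normal K hK) σ τ
        (fun g hg => (hK g).2 (fun ω => hσ' g hg ω)) hτ' htr
  · refine ⟨Tr.der 2, ?_, by rw [Tr.sub_der]; exact h2⟩
    have : 1 ≤ r ^ 3 := Nat.one_le_pow _ _ (by omega)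
    rw [Tr.cost_der, c0]
    omega
  · have hd : 2 ≤ d := by
      by_contra hcon
      have : d ≤ 1 := by omega
      interval_cases d <;> simp at hE2 <;> omega
    have hdr : d ≤ r := by
      have h5 : Q ∣ p ^ r := by
        rw [← hpr, ← hV, hQd]
        exact dvd_pow_self Q (by omega)
      obtain ⟨e, -, he⟩ := (Nat.dvd_prime_pow hp).1 h5
      have h6 : e * d = r := by
        rw [he, ← pow_mul, hV, hpr] at hQd
        exact (Nat.pow_right_injective hp.two_le hQd).symm
      have he1 : 1 ≤ e := by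
        by_contra hcon
        have : e = 0 := by omega
        rw [this, pow_zero] at he
        omega
      nlinarith
    set L := Nat.clog 2 (Nat.card E) with hL
    have hL1 : 1 ≤ L := Nat.clog_pos (by norm_num) hE
    have hEL : Nat.card E ≤ 2 ^ L := Nat.le_pow_clog (by norm_num) _
    have hLE : 2 ^ L ≤ 2 * Nat.card E := two_pow_clog _ (by omega)
    set j := Nat.log 9 (729 * L ^ 10) with hj
    set t := Nat.clog 2 L with ht
    have hLt : L ≤ 2 ^ t := Nat.le_pow_clog (by norm_num) _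
    have htL : 2 ^ t ≤ 2 * L := two_pow_clog _ hL1
    have hEtriv : TrivOn (derivedSeries H (j + t)) E := by
      refine chain_triv H E L j t hEL hLt ?_
      intro F _ _ _ _ hFirr hFE
      obtain ⟨q, s, hq, hqs⟩ := irr_card H F hFirr
      obtain ⟨i, hi, hi2⟩ := t2weak (Nat.card F) H F hFirr rfl q s hq hqs
      have hsL : s ≤ L := by
        have h7 : 2 ^ s ≤ 2 ^ L := by
          calc 2 ^ s ≤ q ^ s := Nat.pow_le_pow_left hq.two_le s
            _ = Nat.card F := hqs.symm
            _ ≤ Nat.card E := Nat.le_of_dvd (by omega) hFE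
            _ ≤ 2 ^ L := hEL
        exact (Nat.pow_le_pow_iff_right (by norm_num)).1 h7
      have hij : i ≤ j := by
        refine Nat.le_log_of_pow_le (by norm_num) (hi.trans ?_)
        exact Nat.mul_le_mul_left _ (Nat.pow_le_pow_left hsL 10)
      exact hi2.mono (derivedSeries_antitone H hij)
    have hV2 := (hE3 (j + t + 1) (by omega)
      (hEtriv.mono (derivedSeries_antitone H (Nat.le_succ _)))).1
    refine ⟨Tr.der (j + t + 1 + 2), ?_, by rw [Tr.sub_der]; exact hV2⟩
    rw [Tr.cost_der]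
    have h8 : 9 ^ j ≤ 729 * L ^ 10 := Nat.pow_log_le_self 9 (by positivity)
    have h9 : 4 ^ j ≤ 9 ^ j := Nat.pow_le_pow_left (by norm_num) j
    have h10 : 4 ^ t ≤ 4 * L ^ 2 := by
      calc 4 ^ t = (2 ^ t) ^ 2 := by rw [← pow_mul, mul_comm, pow_mul]; norm_num
        _ ≤ (2 * L) ^ 2 := Nat.pow_le_pow_left htL 2
        _ = 4 * L ^ 2 := by ring
    calc 4 ^ (j + t + 1 + 2) = 64 * (4 ^ j * 4 ^ t) := by ring
      _ ≤ 64 * ((729 * L ^ 10) * (4 * L ^ 2)) :=
        Nat.mul_le_mul_left _ (Nat.mul_le_mul (h9.trans h8) h10)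
      _ = 186624 * L ^ 12 := by ring
      _ ≤ 186624 * (10 ^ 10 * 2 ^ L) := Nat.mul_le_mul_left _ (pow_twelve_le L)
      _ ≤ 186624 * (10 ^ 10 * (2 * r ^ 3)) := by
        refine Nat.mul_le_mul_left _ (Nat.mul_le_mul_left _ ?_)
        calc 2 ^ L ≤ 2 * Nat.card E := hLE
          _ ≤ 2 * d ^ 2 := Nat.mul_le_mul_left _ hE2
          _ ≤ 2 * r ^ 2 := Nat.mul_le_mul_left _ (Nat.pow_le_pow_left hdr 2)
          _ ≤ 2 * r ^ 3 := Nat.mul_le_mul_left _ (Nat.pow_le_pow_right hr1 (by norm_num))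
      _ = c0 * r ^ 3 := by rw [c0]; ring

end Pool.Agent.Helper59.Gap
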