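import Pool.Agent.Helper59.Gap.Slow
import Pool.Agent.Helper59.Gap.Rank

set_option autoImplicit false

/-!
# Primitive quotients of groups of slow growth
-/

namespace Pool.Agent.Helper59.Gap

open scoped commutatorElement

/-- Independent elements in a generating set of an elementary abelian group. -/
theorem exists_indep (A : Type) [CommGroup A] [Finite A] (p r : ℕ) (hcard : Nat.card A = p ^ r)
    (hp : 1 < p) (hexp : ∀ x : A, x ^ p = 1) (T : Set A) (hT : Subgroup.closure T = ⊤) :
    ∃ y : ℕ → A, ∀ i < r, y i ∈ T ∧ y i ∉ Subgroup.closure (y '' {j | j < i}) := by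
  classical
  have key : ∀ m ≤ r, ∃ y : ℕ → A, (∀ i < m, y i ∈ T ∧ y i ∉ Subgroup.closure (y '' {j | j < i})) ∧
      Nat.card (Subgroup.closure (y '' {j | j < m})) ≤ p ^ m := by
    intro m
    induction m with
    | zero =>
      intro _
      refine ⟨fun _ => 1, fun i hi => absurd hi (Nat.not_lt_zero i), ?_⟩
      simp
    | succ m ih =>
      intro hm
      obtain ⟨y, hy, hyc⟩ := ih (by omega)
      obtain ⟨t, htT, ht⟩ : ∃ t ∈ T, t ∉ Subgroup.closure (y '' {j | j < m}) := by
        by_contra hcon
        push Not at hcon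
        have h1 : Subgroup.closure (y '' {j | j < m}) = ⊤ := by
          rw [eq_top_iff, ← hT, Subgroup.closure_le]
          exact hcon
        rw [h1, Subgroup.card_top, hcard] at hyc
        have := (Nat.pow_le_pow_iff_right hp).1 hyc
        omega
      have himg : ∀ i ≤ m, (Function.update y m t) '' {j | j < i} = y '' {j | j < i} := by
        intro i hi
        refine Set.image_congr (fun j hj => ?_)
        have hj' : j < i := hj
        exact Function.update_of_ne (by omega) _ _
      refine ⟨Function.update y m t, ?_, ?_⟩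
      · intro i hi
        rw [himg i (by omega)]
        rcases Nat.lt_or_ge i m with h2 | h2
        · rw [Function.update_of_ne (by omega)]
          exact hy i h2
        · have h3 : i = m := by omega
          subst h3
          rw [Function.update_self]
          exact ⟨htT, ht⟩
      · have h2 : (Function.update y m t) '' {j | j < m + 1} = y '' {j | j < m} ∪ {t} := by
          have h3 : {j | j < m + 1} = {j | j < m} ∪ {m} := by
            ext j
            simp only [Set.mem_ofPred_eq, Set.mem_union, Set.mem_singleton_iff]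
            omega
          rw [h3, Set.image_union, himg m le_rfl, Set.image_singleton, Function.update_self]
        rw [h2, Subgroup.closure_union]
        set K := Subgroup.closure (y '' {j | j < m}) with hK
        have h4 : Nat.card (K ⊔ Subgroup.closure {t} : Subgroup A) ≤
            Nat.card (K × Subgroup.closure {t}) := by
          have hsurj : Function.Surjective
              (fun z : K × Subgroup.closure {t} => (⟨z.1 * z.2, by
                exact Subgroup.mul_mem_sup z.1.2 z.2.2⟩ : (K ⊔ Subgroup.closure {t} : Subgroup A))) := by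
            rintro ⟨x, hx⟩
            obtain ⟨a, ha, b, hb, hab⟩ := Subgroup.mem_sup.1 hx
            exact ⟨⟨⟨a, ha⟩, ⟨b, hb⟩⟩, Subtype.ext hab⟩
          exact Nat.card_le_card_of_surjective _ hsurj
        refine h4.trans ?_
        rw [Nat.card_prod, pow_succ]
        refine Nat.mul_le_mul hyc ?_
        rw [← Subgroup.zpowers_eq_closure, Nat.card_zpowers]
        exact orderOf_le_of_pow_eq_one (by omega) (hexp t)
  obtain ⟨y, hy, -⟩ := key r le_rfl
  exact ⟨y, hy⟩

/-- A self-centralising minimal normal subgroup is the value of a subtree. -/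
theorem exists_subtree (P : Type) [Group P] (V : Subgroup P) (hVn : V.Normal)
    (hmin : ∀ W : Subgroup P, W.Normal → W ≤ V → W = ⊥ ∨ W = V)
    (hC : Subgroup.centralizer (V : Set P) = V) (τ : Tr) (hτ : τ.sub P ≤ V) :
    ∃ σ : Tr, σ.cost ≤ τ.cost ∧ σ.sub P = V := by
  have hcont : ∀ N : Subgroup P, N.Normal → N ≠ ⊥ → V ≤ N := by
    intro N hN hN1
    rcases hmin (N ⊓ V) inferInstance inf_le_right with h | h
    · exfalso
      have h1 : ⁅N, V⁆ = ⊥ := by
        rw [eq_bot_iff, ← h]
        exact Subgroup.commutator_le_inf N V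
      rw [Subgroup.commutator_eq_bot_iff_le_centralizer, hC] at h1
      rw [inf_eq_left.2 h1] at h
      exact hN1 h
    · rw [← h]; exact inf_le_left
  induction τ with
  | leaf => exact ⟨Tr.leaf, le_rfl, le_antisymm hτ le_top⟩
  | node L R hL hR =>
    have hcost : L.cost ≤ (Tr.node L R).cost ∧ R.cost ≤ (Tr.node L R).cost := by
      simp only [Tr.cost]; omega
    rcases hmin _ inferInstance hτ with h | h
    · have h1 : L.sub P ≤ Subgroup.centralizer (R.sub P : Set P) :=
        Subgroup.commutator_eq_bot_iff_le_centralizer.1 h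
      by_cases hRb : R.sub P = ⊥
      · obtain ⟨σ, hσ, hσ2⟩ := hR (by rw [hRb]; exact bot_le)
        exact ⟨σ, hσ.trans hcost.2, hσ2⟩
      · have h2 : L.sub P ≤ V := by
          have h3 : Subgroup.centralizer (R.sub P : Set P) ≤ Subgroup.centralizer (V : Set P) :=
            Subgroup.centralizer_le (hcont _ inferInstance hRb)
          rw [hC] at h3
          exact h1.trans h3
        obtain ⟨σ, hσ, hσ2⟩ := hL h2
        exact ⟨σ, hσ.trans hcost.1, hσ2⟩
    · exact ⟨_, le_rfl, h⟩

open scoped IsMulCommutative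

/-- Conjugation action on an abelian normal subgroup. -/
@[reducible]
def conjAct (P : Type) [Group P] (V : Subgroup P) [V.Normal] [IsMulCommutative V] :
    DistribMulAction P (Additive V) where
  smul := fun g x => Additive.ofMul (MulAut.conjNormal g (Additive.toMul x))
  one_smul := fun x => by
    show Additive.ofMul (MulAut.conjNormal (1 : P) (Additive.toMul x)) = x
    rw [map_one]; rfl
  mul_smul := fun g h x => by
    show Additive.ofMul (MulAut.conjNormal (g * h) (Additive.toMul x)) =
      Additive.ofMul (MulAut.conjNormal g (MulAut.conjNormal h (Additive.toMul x)))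
    rw [map_mul]; rfl
  smul_zero := fun g => by
    show Additive.ofMul (MulAut.conjNormal g (1 : V)) = 0
    rw [map_one]; rfl
  smul_add := fun g x y => by
    show Additive.ofMul (MulAut.conjNormal g (Additive.toMul x * Additive.toMul y)) =
      Additive.ofMul (MulAut.conjNormal g (Additive.toMul x)) +
      Additive.ofMul (MulAut.conjNormal g (Additive.toMul y))
    rw [map_mul]; rfl

/-- Data attached to a primitive group. -/
theorem prim_data (P : Type) [Group P] [Finite P] [Group.IsSolvable P] (V : Subgroup P)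
    (hVn : V.Normal) (hV : V ≠ ⊥)
    (hmin : ∀ W : Subgroup P, W.Normal → W ≤ V → W = ⊥ ∨ W = V)
    (hC : Subgroup.centralizer (V : Set P) = V) :
    ∃ (p r : ℕ) (τ : Tr), p.Prime ∧ Nat.card V = p ^ r ∧ (∀ x : V, x ^ p = 1) ∧
      (∀ x y : V, x * y = y * x) ∧ τ.cost ≤ c0 * r ^ 3 ∧ τ.sub P ≤ V := by
  have hcomm : ∀ x y : V, x * y = y * x := by
    intro x y
    have h1 : (x : P) ∈ Subgroup.centralizer (V : Set P) := by rw [hC]; exact x.2
    rw [Subgroup.mem_centralizer_iff] at h1
    exact Subtype.ext (h1 y y.2).symm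
  have : IsMulCommutative V := ⟨⟨hcomm⟩⟩
  let _ := conjAct P V
  have hntV : Nontrivial V := (Subgroup.nontrivial_iff_ne_bot V).2 hV
  have hnt : Nontrivial (Additive V) := hntV
  have hsmul : ∀ (g : P) (x : V), g • (Additive.ofMul x) = Additive.ofMul (MulAut.conjNormal g x) :=
    fun _ _ => rfl
  have hirr : Irr P (Additive V) := by
    intro W hW
    let W' : Subgroup P := (AddSubgroup.toSubgroup' W).map V.subtype
    have hW'le : W' ≤ V := by
      rintro _ ⟨x, -, rfl⟩
      exact x.2
    have hW'n : W'.Normal := by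
      refine ⟨?_⟩
      rintro _ ⟨x, hx, rfl⟩ g
      refine ⟨MulAut.conjNormal g x, ?_, ?_⟩
      · exact hW g (Additive.ofMul x) hx
      · exact MulAut.conjNormal_apply g x
    rcases hmin W' hW'n hW'le with h | h
    · left
      rw [eq_bot_iff]
      intro x hx
      have h1 : ((Additive.toMul x : V) : P) ∈ W' := ⟨Additive.toMul x, hx, rfl⟩
      rw [h, Subgroup.mem_bot] at h1
      have h2 : (Additive.toMul x : V) = 1 := Subtype.ext h1
      rw [AddSubgroup.mem_bot]
      exact h2
    · right
      rw [eq_top_iff]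
      intro x _
      have h1 : ((Additive.toMul x : V) : P) ∈ W' := by rw [h]; exact (Additive.toMul x : V).2
      obtain ⟨y, hy, hyx⟩ := h1
      have h2 : y = Additive.toMul x := Subtype.ext hyx
      rw [h2] at hy
      exact hy
  obtain ⟨p, s, hp, hs⟩ := irr_card P (Additive V) hirr
  have hs' : Nat.card V = p ^ s := hs
  obtain ⟨τ, hτ, hτ2⟩ := t2 (Nat.card (Additive V)) P (Additive V) hirr rfl p s hp hs
  refine ⟨p, s, τ, hp, hs', ?_, hcomm, hτ, ?_⟩
  · have : Fact p.Prime := ⟨hp⟩
    have hs0 : s ≠ 0 := by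
      rintro rfl
      rw [pow_zero] at hs'
      have := Finite.one_lt_card (α := V)
      omega
    let W : Subgroup P := ({ carrier := {x : V | x ^ p = 1}
                             mul_mem' := fun {a b} (ha : a ^ p = 1) (hb : b ^ p = 1) => by
                              show (a * b) ^ p = 1
                              rw [mul_pow, ha, hb, one_mul]
                             one_mem' := one_pow p
                             inv_mem' := fun {a} (ha : a ^ p = 1) => by
                              show a⁻¹ ^ p = 1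
                              rw [inv_pow, ha, inv_one] } : Subgroup V).map V.subtype
    have hWn : W.Normal := by
      refine ⟨?_⟩
      rintro _ ⟨x, hx, rfl⟩ g
      refine ⟨MulAut.conjNormal g x, ?_, MulAut.conjNormal_apply g x⟩
      show (MulAut.conjNormal g x) ^ p = 1
      have hx' : x ^ p = 1 := hx
      rw [← map_pow, hx', map_one]
    have hWV : W ≤ V := by
      rintro _ ⟨x, -, rfl⟩
      exact x.2
    obtain ⟨x, hx⟩ := exists_prime_orderOf_dvd_card' (G := V) p (by
      rw [hs']; exact dvd_pow_self p hs0)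
    have hxW : (x : P) ∈ W := ⟨x, by
      show x ^ p = 1
      rw [← hx]; exact pow_orderOf_eq_one x, rfl⟩
    rcases hmin W hWn hWV with h | h
    · rw [h, Subgroup.mem_bot] at hxW
      have h2 : x = 1 := Subtype.ext hxW
      rw [h2, orderOf_one] at hx
      exact absurd hx hp.one_lt.ne
    · intro y
      have h1 : (y : P) ∈ W := by rw [h]; exact y.2
      obtain ⟨z, hz, hzy⟩ := h1
      have h2 : z = y := Subtype.ext hzy
      rw [← h2]
      exact hz
  · intro g hg
    rw [← hC, Subgroup.mem_centralizer_iff]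
    intro v hv
    have h1 := hτ2 g hg (Additive.ofMul ⟨v, hv⟩)
    rw [hsmul] at h1
    have h2 : MulAut.conjNormal g (⟨v, hv⟩ : V) = ⟨v, hv⟩ := h1
    have h3 : g * v * g⁻¹ = v := by
      have := congrArg Subtype.val h2
      rwa [MulAut.conjNormal_apply] at this
    calc v * g = (g * v * g⁻¹) * g := by rw [h3]
      _ = g * v := by group

/-- Step 5: a uniform bound for the primitive quotients. -/
theorem prim_bound (G : Type) [Group G] (S : Finset G) (hS : ∀ s ∈ S, s⁻¹ ∈ S)
    (hgen : Subgroup.closure (S : Set G) = ⊤) (β : ℝ) (C : ℕ) (hβ : 0 < β) (hβ2 : β < 1 / 4)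
    (hgr : ∀ n : ℕ, (Nat.card (ball S n) : ℝ) ≤ Real.exp (((C : ℝ) * (n : ℝ)) ^ β)) :
    ∃ s : ℕ, ∀ (P : Type) [Group P] [Finite P] [Group.IsSolvable P] (f : G →* P),
      Function.Surjective f → ∀ V : Subgroup P, V.Normal → V ≠ ⊥ →
      (∀ W : Subgroup P, W.Normal → W ≤ V → W = ⊥ ∨ W = V) →
      Subgroup.centralizer (V : Set P) = V → derivedSeries P s ≤ V := by
  set δ : ℝ := (1 / β - 4) / 6 with hδ
  have h4β : 4 < 1 / β := by
    rw [lt_div_iff₀ hβ]; linarith
  have hδ0 : 0 < δ := by rw [hδ]; linarith
  obtain ⟨A, hA, htree⟩ := tree_genBy S hS hgen (slow_sq S β C hβ (by linarith) hgr) δ hδ0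
  have haβ : (4 + 3 * δ) * β < 1 := by
    have h1 : 4 + 3 * δ < 1 / β := by rw [hδ]; linarith
    rwa [lt_div_iff₀ hβ] at h1
  set B : ℝ := A * (c0 : ℝ) ^ (1 + δ) with hB
  obtain ⟨m₀, hm₀⟩ := slow_lt S β C hβ hgr (4 + 3 * δ) B (by linarith) haβ (by positivity)
  refine ⟨c0 * m₀ ^ 3, ?_⟩
  intro P _ _ _ f hf V hVn hV hmin hC
  obtain ⟨p, r, τ, hp, hcard, hexp, hcomm, hτ, hτ2⟩ := prim_data P V hVn hV hmin hC
  have hr : r < m₀ := by
    by_contra hcon
    push Not at hcon
    obtain ⟨σ, hσ, hσ2⟩ := exists_subtree P V hVn hmin hC τ hτ2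
    obtain ⟨l, hl, hgenl⟩ := htree σ
    set X : Set G := (σ.sub G : Set G) ∩ ball S l with hX
    have : IsMulCommutative V := ⟨⟨hcomm⟩⟩
    let T : Set V := {v | ∃ g ∈ X, f g = v}
    have hT : Subgroup.closure T = ⊤ := by
      apply Subgroup.map_injective V.subtype_injective
      rw [MonoidHom.map_closure, ← MonoidHom.range_eq_map, Subgroup.range_subtype]
      have h1 : V.subtype '' T = f '' X := by
        ext z
        constructor
        · rintro ⟨v, ⟨g, hg, hgv⟩, rfl⟩
          exact ⟨g, hg, hgv⟩
        · rintro ⟨g, hg, rfl⟩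
          have h2 : f g ∈ V := by
            rw [← hσ2, ← Tr.map_sub f hf σ]
            exact ⟨g, hg.1, rfl⟩
          exact ⟨⟨f g, h2⟩, ⟨g, hg, rfl⟩, rfl⟩
      rw [h1, ← MonoidHom.map_closure, hgenl.eq, Tr.map_sub f hf σ, hσ2]
    obtain ⟨y, hy⟩ := exists_indep V p r hcard hp.one_lt hexp T hT
    have hex : ∀ i, ∃ g : G, i < r → (g ∈ X ∧ f g = y i) := by
      intro i
      by_cases hi : i < r
      · obtain ⟨g, hg, hg2⟩ := (hy i hi).1
        exact ⟨g, fun _ => ⟨hg, hg2⟩⟩
      · exact ⟨1, fun h => absurd h hi⟩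
    choose x hx using hex
    have h1 := two_pow_le S l r x (fun i hi => (hx i hi).1.2) (by
      intro i hi hmem
      refine (hy i hi).2 ?_
      have h2 : f (x i) ∈ (Subgroup.closure (x '' {j | j < i})).map f := ⟨x i, hmem, rfl⟩
      rw [MonoidHom.map_closure, (hx i hi).2] at h2
      have h3 : f '' (x '' {j | j < i}) = V.subtype '' (y '' {j | j < i}) := by
        rw [Set.image_image, Set.image_image]
        refine Set.image_congr (fun j hj => ?_)
        have hji : j < i := hj
        exact (hx j (by omega)).2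
      rw [h3, ← MonoidHom.map_closure] at h2
      obtain ⟨z, hz, hzy⟩ := h2
      have h4 : z = y i := Subtype.ext hzy
      rw [← h4]
      exact hz)
    have h2 := hm₀ r hcon (r * l) ?_
    · omega
    · have hr0 : (0 : ℝ) ≤ r := by positivity
      have h3 : (σ.cost : ℝ) ≤ (c0 : ℝ) * (r : ℝ) ^ (3 : ℝ) := by
        have h4 : σ.cost ≤ c0 * r ^ 3 := hσ.trans hτ
        have h5 : (r : ℝ) ^ (3 : ℝ) = ((r ^ 3 : ℕ) : ℝ) := by
          rw [show (3 : ℝ) = ((3 : ℕ) : ℝ) by norm_num, Real.rpow_natCast]
          push_cast; rfl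
        rw [h5]
        exact_mod_cast h4
      have h4 : (l : ℝ) ≤ B * (r : ℝ) ^ (3 * (1 + δ)) := by
        calc (l : ℝ) ≤ A * (σ.cost : ℝ) ^ (1 + δ) := hl
          _ ≤ A * ((c0 : ℝ) * (r : ℝ) ^ (3 : ℝ)) ^ (1 + δ) :=
            mul_le_mul_of_nonneg_left (Real.rpow_le_rpow (by positivity) h3 (by linarith)) hA.le
          _ = B * (r : ℝ) ^ (3 * (1 + δ)) := by
            rw [Real.mul_rpow (by positivity) (by positivity), ← Real.rpow_mul hr0, hB]
            ring
      have h5 : ((r * l : ℕ) : ℝ) = (r : ℝ) * l := by push_cast; ring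
      rw [h5]
      rcases Nat.eq_zero_or_pos r with h0 | h0
      · rw [h0]
        simp only [Nat.cast_zero, zero_mul]
        positivity
      · have hrpos : (0 : ℝ) < r := by exact_mod_cast h0
        calc (r : ℝ) * l ≤ r * (B * (r : ℝ) ^ (3 * (1 + δ))) :=
              mul_le_mul_of_nonneg_left h4 hr0
          _ = B * ((r : ℝ) ^ (1 : ℝ) * (r : ℝ) ^ (3 * (1 + δ))) := by rw [Real.rpow_one]; ring
          _ = B * (r : ℝ) ^ (4 + 3 * δ) := by
            rw [← Real.rpow_add hrpos]; congr 2; ring
  have hdepth : τ.depth ≤ c0 * m₀ ^ 3 := by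
    have h1 := τ.depth_lt_cost
    have h2 : r ^ 3 ≤ m₀ ^ 3 := Nat.pow_le_pow_left hr.le 3
    have h3 : c0 * r ^ 3 ≤ c0 * m₀ ^ 3 := Nat.mul_le_mul_left _ h2
    omega
  exact (Tr.derivedSeries_le_sub τ _ hdepth).trans hτ2

end Pool.Agent.Helper59.Gap
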