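import Pool.Agent.Helper59.Gap.Growth

set_option autoImplicit false

/-!
# Consequences of slow growth
-/

namespace Pool.Agent.Helper59.Gap

open scoped commutatorElement

variable {G : Type} [Group G]

theorem slow_lt (S : Finset G) (β : ℝ) (C : ℕ) (hβ : 0 < β)
    (hgr : ∀ n : ℕ, (Nat.card (ball S n) : ℝ) ≤ Real.exp (((C : ℝ) * (n : ℝ)) ^ β))
    (a A : ℝ) (_ha : 0 < a) (haβ : a * β < 1) (hA : 0 ≤ A) :
    ∃ m₀ : ℕ, ∀ m : ℕ, m₀ ≤ m → ∀ n : ℕ, (n : ℝ) ≤ A * (m : ℝ) ^ a →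
      Nat.card (ball S n) < 2 ^ m := by
  set c : ℝ := ((C : ℝ) * A) ^ β with hc
  have hc0 : 0 ≤ c := Real.rpow_nonneg (by positivity) _
  have hlog : 0 < Real.log 2 := Real.log_pos (by norm_num)
  have htend : Filter.Tendsto (fun x : ℝ => x ^ (1 - a * β)) Filter.atTop Filter.atTop :=
    tendsto_rpow_atTop (by linarith)
  have h1 : ∀ᶠ x : ℝ in Filter.atTop, c / Real.log 2 + 1 ≤ x ^ (1 - a * β) :=
    htend.eventually_ge_atTop _
  obtain ⟨x₀, hx₀⟩ := Filter.eventually_atTop.1 h1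
  refine ⟨⌈x₀⌉₊ + 1, fun m hm n hn => ?_⟩
  have hm1 : (1 : ℝ) ≤ m := by
    have : 1 ≤ m := by omega
    exact_mod_cast this
  have hmx : x₀ ≤ m := by
    refine (Nat.le_ceil x₀).trans ?_
    have : ⌈x₀⌉₊ ≤ m := by omega
    exact_mod_cast this
  have h2 := hx₀ m hmx
  have h3 : ((C : ℝ) * (n : ℝ)) ^ β ≤ c * (m : ℝ) ^ (a * β) := by
    have h4 : (C : ℝ) * (n : ℝ) ≤ ((C : ℝ) * A) * (m : ℝ) ^ a := by
      have : (C : ℝ) * n ≤ C * (A * (m : ℝ) ^ a) := mul_le_mul_of_nonneg_left hn (by positivity)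
      linarith [this]
    calc ((C : ℝ) * (n : ℝ)) ^ β ≤ (((C : ℝ) * A) * (m : ℝ) ^ a) ^ β :=
          Real.rpow_le_rpow (by positivity) h4 hβ.le
      _ = c * (m : ℝ) ^ (a * β) := by
          rw [Real.mul_rpow (by positivity) (by positivity), ← Real.rpow_mul (by positivity)]
  have h5 : c * (m : ℝ) ^ (a * β) < (m : ℝ) * Real.log 2 := by
    have h6 : (m : ℝ) = (m : ℝ) ^ (a * β) * (m : ℝ) ^ (1 - a * β) := by
      rw [← Real.rpow_add (by linarith)]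
      simp
    have h7 : 0 < (m : ℝ) ^ (a * β) := Real.rpow_pos_of_pos (by linarith) _
    have h8 : c < (m : ℝ) ^ (1 - a * β) * Real.log 2 := by
      have h9 : c / Real.log 2 < (m : ℝ) ^ (1 - a * β) := by linarith
      rwa [div_lt_iff₀ hlog] at h9
    calc c * (m : ℝ) ^ (a * β) = (m : ℝ) ^ (a * β) * c := by ring
      _ < (m : ℝ) ^ (a * β) * ((m : ℝ) ^ (1 - a * β) * Real.log 2) :=
          mul_lt_mul_of_pos_left h8 h7
      _ = ((m : ℝ) ^ (a * β) * (m : ℝ) ^ (1 - a * β)) * Real.log 2 := by ring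
      _ = (m : ℝ) * Real.log 2 := by rw [← h6]
  have h10 : (Nat.card (ball S n) : ℝ) < (2 : ℝ) ^ m := by
    calc (Nat.card (ball S n) : ℝ) ≤ Real.exp (((C : ℝ) * (n : ℝ)) ^ β) := hgr n
      _ < Real.exp ((m : ℝ) * Real.log 2) := Real.exp_lt_exp.2 (h3.trans_lt h5)
      _ = (2 : ℝ) ^ m := by
          rw [mul_comm, Real.exp_mul, Real.exp_log (by norm_num), Real.rpow_natCast]
  exact_mod_cast h10

/-- Quadratic form of slow growth: what is needed for the generation of normal closures. -/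
theorem slow_sq (S : Finset G) (β : ℝ) (C : ℕ) (hβ : 0 < β) (hβ2 : 2 * β < 1)
    (hgr : ∀ n : ℕ, (Nat.card (ball S n) : ℝ) ≤ Real.exp (((C : ℝ) * (n : ℝ)) ^ β)) (k : ℕ) :
    ∃ m₀ : ℕ, ∀ m : ℕ, m₀ ≤ m → ∀ n : ℕ, n ≤ k * m ^ 2 → Nat.card (ball S n) < 2 ^ m := by
  obtain ⟨m₀, h⟩ := slow_lt S β C hβ hgr 2 k (by norm_num) hβ2 (by positivity)
  refine ⟨m₀, fun m hm n hn => h m hm n ?_⟩
  have : ((m : ℝ)) ^ (2 : ℝ) = ((m ^ 2 : ℕ) : ℝ) := by
    rw [show (2 : ℝ) = ((2 : ℕ) : ℝ) by norm_num, Real.rpow_natCast]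
    push_cast; rfl
  rw [this]
  exact_mod_cast hn

theorem comm_step (S : Finset G) (hS : ∀ s ∈ S, s⁻¹ ∈ S)
    (hgen : Subgroup.closure (S : Set G) = ⊤)
    (hsq : ∀ k : ℕ, ∃ m₀ : ℕ, ∀ m : ℕ, m₀ ≤ m → ∀ n : ℕ, n ≤ k * m ^ 2 →
      Nat.card (ball S n) < 2 ^ m) (k : ℕ) (hk : 1 ≤ k) :
    ∃ D : ℕ, ∀ (L R : Subgroup G), L.Normal → R.Normal → ∀ a b : ℕ, GenBy S a L → GenBy S b R →
      ∃ l : ℕ, (l : ℝ) ≤ (1 + 1 / (k : ℝ)) * (2 * ((a : ℝ) + b)) + D ∧ GenBy S l ⁅L, R⁆ := by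
  obtain ⟨m₀, hm₀⟩ := hsq (2 * k + 2)
  refine ⟨2 * m₀ + 2, fun L R hL hR a b ha hb => ?_⟩
  set x := 2 * (a + b) with hx
  set m := x / (2 * k) + m₀ + 1 with hm
  have hxm : x ≤ 2 * k * m := by
    have h1 := Nat.lt_div_mul_add (a := x) (b := 2 * k) (by omega)
    have h2 : x / (2 * k) * (2 * k) + 2 * k ≤ 2 * k * m := by
      rw [hm]; nlinarith [Nat.zero_le (k * m₀)]
    omega
  refine ⟨x + 2 * m, ?_, ?_⟩
  · have h1 : ((x / (2 * k) : ℕ) : ℝ) ≤ (x : ℝ) / (2 * k) := by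
      have := @Nat.cast_div_le ℝ _ _ _ x (2 * k)
      push_cast at this ⊢
      exact this
    have hk0 : (0 : ℝ) < k := by exact_mod_cast hk
    have h2 : (x : ℝ) = 2 * ((a : ℝ) + b) := by rw [hx]; push_cast; ring
    have h3 : ((x + 2 * m : ℕ) : ℝ) = x + 2 * ((x / (2 * k) : ℕ) : ℝ) + 2 * m₀ + 2 := by
      rw [hm]; push_cast; ring
    rw [h3, ← h2]
    have h4 : 2 * ((x : ℝ) / (2 * k)) = 1 / k * x := by field_simp
    push_cast
    nlinarith [h1, h4]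
  · refine commutator_genBy S hS hgen L R a b m ha hb ?_
    refine hm₀ m ((Nat.le_add_left _ _).trans (Nat.le_succ _)) _ ?_
    rw [← hx]
    nlinarith

/-- The subgroup of an outer commutator word is generated by elements of length
`O (cost ^ (1 + δ))`. -/
theorem tree_genBy (S : Finset G) (hS : ∀ s ∈ S, s⁻¹ ∈ S)
    (hgen : Subgroup.closure (S : Set G) = ⊤)
    (hsq : ∀ k : ℕ, ∃ m₀ : ℕ, ∀ m : ℕ, m₀ ≤ m → ∀ n : ℕ, n ≤ k * m ^ 2 →
      Nat.card (ball S n) < 2 ^ m) (δ : ℝ) (hδ : 0 < δ) :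
    ∃ A : ℝ, 0 < A ∧ ∀ τ : Tr, ∃ l : ℕ, (l : ℝ) ≤ A * (τ.cost : ℝ) ^ (1 + δ) ∧
      GenBy S l (τ.sub G) := by
  have h2δ : 1 < (2 : ℝ) ^ δ := Real.one_lt_rpow (by norm_num) hδ
  obtain ⟨k, hk⟩ := exists_nat_gt (1 / ((2 : ℝ) ^ δ - 1))
  have hk0 : (0 : ℝ) < k := lt_trans (by apply one_div_pos.2; linarith) hk
  have hk1 : 1 + 1 / (k : ℝ) ≤ (2 : ℝ) ^ δ := by
    have h3 : 1 / (k : ℝ) < (2 : ℝ) ^ δ - 1 := by
      rw [div_lt_iff₀ (by linarith)] at hk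
      rw [div_lt_iff₀ hk0]
      linarith
    linarith
  obtain ⟨D, hD⟩ := comm_step S hS hgen hsq k (by exact_mod_cast hk0)
  set A : ℝ := (D : ℝ) + 1 with hA
  have key : ∀ τ : Tr, ∃ l : ℕ, (l : ℝ) ≤ A * (τ.cost : ℝ) ^ (1 + δ) - D ∧ GenBy S l (τ.sub G) := by
    intro τ
    induction τ with
    | leaf =>
      refine ⟨1, ?_, ?_⟩
      · simp [Tr.cost, hA]
      · have h5 : (S : Set G) ⊆ ((⊤ : Subgroup G) : Set G) ∩ ball S 1 :=
          fun s hs => ⟨trivial, mem_ball_one S hs⟩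
        have h6 := Subgroup.closure_mono h5
        rw [hgen] at h6
        exact h6
    | node L R hL hR =>
      obtain ⟨a, ha, ha2⟩ := hL
      obtain ⟨b, hb, hb2⟩ := hR
      obtain ⟨l, hl, hl2⟩ := hD (L.sub G) (R.sub G) inferInstance inferInstance a b ha2 hb2
      refine ⟨l, hl.trans ?_, hl2⟩
      have hcL : (1 : ℝ) ≤ L.cost := by exact_mod_cast L.one_le_cost
      have hcR : (1 : ℝ) ≤ R.cost := by exact_mod_cast R.one_le_cost
      have h6 : ((L.cost : ℝ)) ^ (1 + δ) + (R.cost : ℝ) ^ (1 + δ) ≤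
          ((L.cost : ℝ) + R.cost) ^ (1 + δ) :=
        Real.add_rpow_le_rpow_add (by linarith) (by linarith) (by linarith)
      have h7 : (((Tr.node L R).cost : ℕ) : ℝ) ^ (1 + δ) =
          (2 : ℝ) ^ δ * 2 * ((L.cost : ℝ) + R.cost) ^ (1 + δ) := by
        simp only [Tr.cost]
        push_cast
        rw [Real.mul_rpow (by norm_num) (by linarith), Real.rpow_add (by norm_num), Real.rpow_one]
        ring
      rw [h7]
      have hD0 : (0 : ℝ) ≤ D := by positivity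
      have hA0 : 0 < A := by rw [hA]; positivity
      have h8 : (1 + 1 / (k : ℝ)) * (2 * ((a : ℝ) + b)) ≤
          (1 + 1 / (k : ℝ)) * (2 * ((A * (L.cost : ℝ) ^ (1 + δ) - D) +
            (A * (R.cost : ℝ) ^ (1 + δ) - D))) := by
        have : (0 : ℝ) < 1 + 1 / (k : ℝ) := by positivity
        apply mul_le_mul_of_nonneg_left _ this.le
        linarith
      set X : ℝ := (L.cost : ℝ) ^ (1 + δ) + (R.cost : ℝ) ^ (1 + δ) with hX
      have hX2 : 2 ≤ X := by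
        have h9 : (1 : ℝ) ≤ (L.cost : ℝ) ^ (1 + δ) := Real.one_le_rpow hcL (by linarith)
        have h10 : (1 : ℝ) ≤ (R.cost : ℝ) ^ (1 + δ) := Real.one_le_rpow hcR (by linarith)
        linarith
      have h9 : (1 + 1 / (k : ℝ)) * (2 * ((A * (L.cost : ℝ) ^ (1 + δ) - D) +
            (A * (R.cost : ℝ) ^ (1 + δ) - D))) = (1 + 1 / (k : ℝ)) * (2 * A * X) -
            (1 + 1 / (k : ℝ)) * (4 * D) := by rw [hX]; ring
      have h10 : (1 + 1 / (k : ℝ)) * (2 * A * X) ≤ (2 : ℝ) ^ δ * (2 * A * X) :=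
        mul_le_mul_of_nonneg_right hk1 (by positivity)
      have h11 : (2 : ℝ) ^ δ * (2 * A * X) ≤
          A * ((2 : ℝ) ^ δ * 2 * ((L.cost : ℝ) + R.cost) ^ (1 + δ)) := by
        have : (2 : ℝ) ^ δ * (2 * A * X) = A * ((2 : ℝ) ^ δ * 2 * X) := by ring
        rw [this]
        apply mul_le_mul_of_nonneg_left _ hA0.le
        apply mul_le_mul_of_nonneg_left h6 (by positivity)
      have h12 : (1 + 1 / (k : ℝ)) * (4 * D) ≥ 4 * D := by
        have h13 : (0 : ℝ) ≤ 1 / (k : ℝ) := by positivity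
        nlinarith
      linarith
  refine ⟨A, by rw [hA]; positivity, fun τ => ?_⟩
  obtain ⟨l, hl, hl2⟩ := key τ
  exact ⟨l, hl.trans (by linarith [show (0 : ℝ) ≤ D by positivity]), hl2⟩

theorem derivedSeries_fg (S : Finset G) (hS : ∀ s ∈ S, s⁻¹ ∈ S)
    (hgen : Subgroup.closure (S : Set G) = ⊤)
    (hsq : ∀ k : ℕ, ∃ m₀ : ℕ, ∀ m : ℕ, m₀ ≤ m → ∀ n : ℕ, n ≤ k * m ^ 2 →
      Nat.card (ball S n) < 2 ^ m) (i : ℕ) : (derivedSeries G i).FG := by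
  obtain ⟨A, -, h⟩ := tree_genBy S hS hgen hsq 1 one_pos
  obtain ⟨l, -, hl⟩ := h (Tr.der i)
  rw [Tr.sub_der] at hl
  exact hl.fg

end Pool.Agent.Helper59.Gap
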