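import Pool.Agent.Helper59.Gap.Defs

set_option autoImplicit false

/-!
# Transitive actions of soluble groups: blocks or affine (module GAP-1)
-/

namespace Pool.Agent.Helper59.Gap

namespace Trans

section

variable {H : Type} [Group H] {Ω : Type} [MulAction H Ω]

/-- a minimal normal subgroup acting nontrivially -/
theorem exists_min [Group.IsSolvable H] [Finite Ω] [MulAction.IsPretransitive H Ω]
    (hk : 2 ≤ Nat.card Ω) :
    ∃ N : Subgroup H, N.Normal ∧ (∃ n ∈ N, ∃ x : Ω, n • x ≠ x) ∧
      (∀ h : H, (∀ x : Ω, h • x = x) → h ∈ N) ∧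
      (∀ M : Subgroup H, M.Normal → M ≤ N → (∀ h : H, (∀ x : Ω, h • x = x) → h ∈ M) →
        (∃ m ∈ M, ∃ x : Ω, m • x ≠ x) → M = N) ∧
      (∀ a ∈ N, ∀ b ∈ N, ∀ x : Ω, a • b • x = b • a • x) := by
  classical
  let φ : H →* Equiv.Perm Ω := MulAction.toPermHom H Ω
  have hφ : ∀ h : H, ∀ x : Ω, φ h x = h • x := fun _ _ => rfl
  have hker : ∀ h : H, h ∈ φ.ker ↔ ∀ x : Ω, h • x = x := by
    intro h
    rw [MonoidHom.mem_ker]
    constructor
    · intro h1 x
      rw [← hφ, h1]
      rfl
    · intro h1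
      ext x
      rw [hφ, h1]
      rfl
  let S : Set (Subgroup H) := {N | N.Normal ∧ φ.ker ≤ N ∧ ∃ n ∈ N, ∃ x : Ω, n • x ≠ x}
  have hne : S.Nonempty := by
    refine ⟨⊤, inferInstance, le_top, ?_⟩
    have : Nontrivial Ω := Finite.one_lt_card_iff_nontrivial.mp hk
    obtain ⟨x, y, hxy⟩ := exists_pair_ne Ω
    obtain ⟨h, hh⟩ := MulAction.exists_smul_eq H x y
    exact ⟨h, Subgroup.mem_top _, x, by rw [hh]; exact hxy.symm⟩
  obtain ⟨N, hN, hmin⟩ := (measure fun N : Subgroup H => Nat.card (N.map φ)).wf.has_min S hne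
  obtain ⟨hNn, hNk, hNt⟩ := hN
  have hmin' : ∀ M : Subgroup H, M.Normal → M ≤ N → (∀ h : H, (∀ x : Ω, h • x = x) → h ∈ M) →
        (∃ m ∈ M, ∃ x : Ω, m • x ≠ x) → M = N := by
    intro M hM hMN hMk hMt
    have hMk' : φ.ker ≤ M := fun h hh => hMk h ((hker h).mp hh)
    have h1 := hmin M ⟨hM, hMk', hMt⟩
    have h2 : ¬ (Nat.card (M.map φ) < Nat.card (N.map φ)) := h1
    have h3 : M.map φ ≤ N.map φ := Subgroup.map_mono hMN
    have h4 : M.map φ = N.map φ := Subgroup.eq_of_le_of_card_ge h3 (not_lt.mp h2)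
    have h5 := congrArg (Subgroup.comap φ) h4
    rw [Subgroup.comap_map_eq_self hMk', Subgroup.comap_map_eq_self hNk] at h5
    exact h5
  refine ⟨N, hNn, hNt, fun h hh => hNk ((hker h).mpr hh), hmin', ?_⟩
  -- the commutator subgroup acts trivially
  have hcomm : ⁅N, N⁆ ≤ φ.ker := by
    by_contra hcon
    have hM : (⁅N, N⁆ ⊔ φ.ker : Subgroup H).Normal := inferInstance
    have hMN : ⁅N, N⁆ ⊔ φ.ker ≤ N := sup_le (Subgroup.commutator_le_left N N) hNk
    have hMt : ∃ m ∈ ⁅N, N⁆ ⊔ φ.ker, ∃ x : Ω, m • x ≠ x := by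
      rw [SetLike.not_le_iff_exists] at hcon
      obtain ⟨m, hm, hm2⟩ := hcon
      rw [hker] at hm2
      push Not at hm2
      exact ⟨m, le_sup_left (a := ⁅N, N⁆) hm, hm2⟩
    have heq := hmin' _ hM hMN (fun h hh => le_sup_right (b := φ.ker) ((hker h).mpr hh)) hMt
    have hmap : N.map φ = ⁅N.map φ, N.map φ⁆ := by
      conv_lhs => rw [← heq]
      rw [Subgroup.map_sup, Subgroup.map_commutator]
      have : φ.ker.map φ = ⊥ := by
        rw [Subgroup.map_eq_bot_iff]
      rw [this, sup_bot_eq]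
    have hall : ∀ k, N.map φ ≤ (derivedSeries H k).map φ := by
      intro k
      induction k with
      | zero =>
        rw [derivedSeries_zero]
        exact Subgroup.map_mono le_top
      | succ k ih =>
        rw [derivedSeries_succ, Subgroup.map_commutator, hmap]
        exact Subgroup.commutator_mono ih ih
    obtain ⟨k, hk⟩ := Group.IsSolvable.solvable (G := H)
    have h1 := hall k
    rw [hk, Subgroup.map_bot, le_bot_iff, Subgroup.map_eq_bot_iff] at h1
    obtain ⟨n, hn, x, hx⟩ := hNt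
    exact hx ((hker n).mp (h1 hn) x)
  intro a ha b hb x
  have h1 := hcomm (Subgroup.commutator_mem_commutator ha hb)
  rw [hker] at h1
  have h2 := h1 (b • a • x)
  rw [commutatorElement_def] at h2
  simp only [mul_smul, inv_smul_smul] at h2
  exact h2

/-- the set of orbits of a subgroup -/
def OrbQ (N : Subgroup H) (Ω : Type) [MulAction H Ω] : Type :=
  Quotient (MulAction.orbitRel N Ω)

/-- the orbit of a point -/
def om (N : Subgroup H) (x : Ω) : OrbQ N Ω := Quotient.mk (MulAction.orbitRel N Ω) x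

theorem om_surj (N : Subgroup H) (q : OrbQ N Ω) : ∃ x : Ω, om N x = q :=
  Quotient.exists_rep q

theorem om_eq (N : Subgroup H) (x y : Ω) : om N x = om N y ↔ ∃ n ∈ N, n • y = x := by
  constructor
  · intro h
    have h1 : MulAction.orbitRel N Ω x y := Quotient.exact h
    rw [MulAction.orbitRel_apply] at h1
    obtain ⟨n, hn⟩ := h1
    exact ⟨n, n.2, hn⟩
  · rintro ⟨n, hn, hn2⟩
    have h1 : MulAction.orbitRel N Ω x y := by
      rw [MulAction.orbitRel_apply]
      exact ⟨⟨n, hn⟩, hn2⟩
    exact Quotient.sound h1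

/-- the action on the set of orbits of a normal subgroup -/
@[reducible] def quotAct (N : Subgroup H) [hN : N.Normal] : MulAction H (OrbQ N Ω) where
  smul h := Quotient.map (fun x => h • x) (by
    intro x y hxy
    have h1 : om N x = om N y := Quotient.sound hxy
    rw [om_eq] at h1
    obtain ⟨n, hn, hn2⟩ := h1
    have h2 : om N (h • x) = om N (h • y) := by
      rw [om_eq]
      refine ⟨h * n * h⁻¹, hN.conj_mem n hn h, ?_⟩
      rw [mul_smul, mul_smul, inv_smul_smul, hn2]
    exact Quotient.exact h2)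
  one_smul := by
    intro q
    obtain ⟨x, rfl⟩ := om_surj N q
    change om N ((1 : H) • x) = om N x
    rw [one_smul]
  mul_smul := by
    intro g h q
    obtain ⟨x, rfl⟩ := om_surj N q
    change om N ((g * h) • x) = om N (g • h • x)
    rw [mul_smul]

theorem caseA [Finite Ω] [MulAction.IsPretransitive H Ω] (N : Subgroup H) (hN : N.Normal)
    (hNt : ∃ n ∈ N, ∃ x : Ω, n • x ≠ x) (hno : ¬ ∀ x y : Ω, ∃ n ∈ N, n • x = y) :
    ∃ (Ω' : Type) (_ : Finite Ω') (_ : MulAction H Ω') (_ : MulAction.IsPretransitive H Ω')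
      (K : Subgroup H) (O : Type) (_ : Finite O) (_ : MulAction K O)
      (_ : MulAction.IsPretransitive K O), (∀ h : H, h ∈ K ↔ ∀ x : Ω', h • x = x) ∧
      2 ≤ Nat.card Ω' ∧ 2 ≤ Nat.card O ∧ Nat.card Ω' * Nat.card O = Nat.card Ω ∧
      ∀ S : Subgroup K, (S.map K.subtype).Normal → TrivOn S O →
        TrivOn (S.map K.subtype) Ω := by
  classical
  obtain ⟨n0, hn0, x0, hx0⟩ := hNt
  let act : MulAction H (OrbQ N Ω) := quotAct N
  have hsm : ∀ (h : H) (x : Ω), h • (om N x) = om N (h • x) := fun _ _ => rfl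
  have heq := om_eq (Ω := Ω) N
  have hfin : Finite (OrbQ N Ω) := Quotient.finite _
  have hpre : MulAction.IsPretransitive H (OrbQ N Ω) := by
    refine ⟨fun p q => ?_⟩
    obtain ⟨x, rfl⟩ := om_surj N p
    obtain ⟨y, rfl⟩ := om_surj N q
    obtain ⟨h, hh⟩ := MulAction.exists_smul_eq H x y
    exact ⟨h, by rw [hsm, hh]⟩
  let K : Subgroup H := (MulAction.toPermHom H (OrbQ N Ω)).ker
  have hK : ∀ h : H, h ∈ K ↔ ∀ x : (OrbQ N Ω), h • x = x := by
    intro h
    change h ∈ (MulAction.toPermHom H (OrbQ N Ω)).ker ↔ _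
    rw [MonoidHom.mem_ker]
    constructor
    · intro h1 x
      have := congrArg (fun σ : Equiv.Perm (OrbQ N Ω) => σ x) h1
      exact this
    · intro h1
      ext x
      exact h1 x
  have hNK : N ≤ K := by
    intro n hn
    rw [hK]
    intro q
    obtain ⟨x, rfl⟩ := om_surj N q
    rw [hsm, heq]
    exact ⟨n, hn, rfl⟩
  let O : Type := {x : Ω // om N x =
    om N x0}
  have hOmem : ∀ (k : K) (x : O), om N ((k : H) • x.1) =
      om N x0 := by
    intro k x
    rw [← hsm, (hK k).mp k.2]
    exact x.2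
  let actO : MulAction K O :=
    { smul := fun k x => ⟨(k : H) • x.1, hOmem k x⟩
      one_smul := by
        intro x
        apply Subtype.ext
        change ((1 : K) : H) • x.1 = x.1
        rw [Subgroup.coe_one, one_smul]
      mul_smul := by
        intro k l x
        apply Subtype.ext
        change ((k * l : K) : H) • x.1 = (k : H) • (l : H) • x.1
        rw [Subgroup.coe_mul, mul_smul] }
  have hOsm : ∀ (k : K) (x : O), (k • x).1 = (k : H) • x.1 := fun _ _ => rfl
  have hfinO : Finite O := inferInstanceAs (Finite {x : Ω // _})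
  have hpreO : MulAction.IsPretransitive K O := by
    refine ⟨fun x y => ?_⟩
    have h1 : om N y.1 =
        om N x.1 := y.2.trans x.2.symm
    rw [heq] at h1
    obtain ⟨n, hn, hn2⟩ := h1
    exact ⟨⟨n, hNK hn⟩, Subtype.ext hn2⟩
  let p0 : O := ⟨x0, rfl⟩
  refine ⟨(OrbQ N Ω), hfin, act, hpre, K, O, hfinO, actO, hpreO, hK, ?_, ?_, ?_, ?_⟩
  · have hnt : Nontrivial (OrbQ N Ω) := by
      push Not at hno
      obtain ⟨x, y, hxy⟩ := hno
      refine ⟨⟨om N y, om N x, ?_⟩⟩
      intro h
      rw [heq] at h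
      obtain ⟨n, hn, hn2⟩ := h
      exact hxy n hn hn2
    exact Finite.one_lt_card_iff_nontrivial.mpr hnt
  · have hnt : Nontrivial O := by
      refine ⟨⟨(⟨n0, hNK hn0⟩ : K) • p0, p0, ?_⟩⟩
      intro h
      exact hx0 (congrArg Subtype.val h)
    exact Finite.one_lt_card_iff_nontrivial.mpr hnt
  · have hsec : ∀ q : (OrbQ N Ω), ∃ h : H, h • (om N x0) = q :=
      fun q => MulAction.exists_smul_eq H _ q
    choose s hs using hsec
    rw [← Nat.card_prod]
    apply Nat.card_congr
    refine Equiv.ofBijective (fun p : (OrbQ N Ω) × O => s p.1 • p.2.1) ⟨?_, ?_⟩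
    · rintro ⟨q, x⟩ ⟨q', x'⟩ h
      simp only at h
      have h1 : om N (s q • x.1) = q := by
        rw [← hsm, x.2, hs]
      have h2 : om N (s q' • x'.1) = q' := by
        rw [← hsm, x'.2, hs]
      have h3 : q = q' := by rw [← h1, ← h2, h]
      subst h3
      have h4 : x.1 = x'.1 := smul_left_cancel _ h
      rw [Prod.mk.injEq]
      exact ⟨rfl, Subtype.ext h4⟩
    · intro x
      refine ⟨⟨om N x,
        ⟨(s (om N x))⁻¹ • x, ?_⟩⟩, ?_⟩
      · rw [← hsm]
        rw [inv_smul_eq_iff, hs]
      · simp only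
        rw [smul_inv_smul]
  · intro S hS hT
    rintro _ ⟨s', hs', rfl⟩ x
    obtain ⟨h, hh⟩ := MulAction.exists_smul_eq H x0 x
    have h1 : h⁻¹ * (s' : H) * h ∈ S.map K.subtype := by
      have := hS.conj_mem (s' : H) ⟨s', hs', rfl⟩ h⁻¹
      rw [inv_inv] at this
      exact this
    obtain ⟨s'', hs'', hs2⟩ := h1
    have h2 := hT s'' hs'' p0
    have h3 : (s'' : H) • x0 = x0 := congrArg Subtype.val h2
    have h4 : (s'' : H) = h⁻¹ * (s' : H) * h := hs2
    rw [h4, mul_smul, mul_smul, inv_smul_eq_iff, hh] at h3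
    exact h3

/-- conjugation of a subgroup of the symmetric group by the elements of `H` -/
@[reducible] def conjAct (P : Subgroup (Equiv.Perm Ω)) (hc : ∀ a ∈ P, ∀ b ∈ P, a * b = b * a)
    (hP : ∀ (h : H), ∀ a ∈ P, MulAction.toPermHom H Ω h * a * (MulAction.toPermHom H Ω h)⁻¹ ∈ P) :
    Σ' (_ : AddCommGroup (Additive P)), DistribMulAction H (Additive P) :=
  let inst : CommGroup P :=
    { (inferInstance : Group P) with
      mul_comm := fun a b => Subtype.ext (hc a a.2 b b.2) }
  let inst2 : AddCommGroup (Additive P) := Additive.addCommGroup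
  ⟨inst2,
    { smul := fun h v => Additive.ofMul
        ⟨MulAction.toPermHom H Ω h * (Additive.toMul v).1 * (MulAction.toPermHom H Ω h)⁻¹,
          hP h _ (Additive.toMul v).2⟩
      one_smul := by
        intro v
        apply Additive.toMul.injective
        apply Subtype.ext
        change MulAction.toPermHom H Ω 1 * (Additive.toMul v).1 *
          (MulAction.toPermHom H Ω 1)⁻¹ = (Additive.toMul v).1
        rw [map_one, one_mul, inv_one, mul_one]
      mul_smul := by
        intro g h v
        apply Additive.toMul.injective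
        apply Subtype.ext
        change MulAction.toPermHom H Ω (g * h) * (Additive.toMul v).1 *
          (MulAction.toPermHom H Ω (g * h))⁻¹ =
          MulAction.toPermHom H Ω g * (MulAction.toPermHom H Ω h * (Additive.toMul v).1 *
          (MulAction.toPermHom H Ω h)⁻¹) * (MulAction.toPermHom H Ω g)⁻¹
        rw [map_mul, mul_inv_rev]
        simp only [mul_assoc]
      smul_zero := by
        intro h
        apply Additive.toMul.injective
        apply Subtype.ext
        change MulAction.toPermHom H Ω h * 1 * (MulAction.toPermHom H Ω h)⁻¹ = 1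
        rw [mul_one, mul_inv_cancel]
      smul_add := by
        intro h v w
        apply Additive.toMul.injective
        apply Subtype.ext
        change MulAction.toPermHom H Ω h * ((Additive.toMul v).1 * (Additive.toMul w).1) *
          (MulAction.toPermHom H Ω h)⁻¹ =
          (MulAction.toPermHom H Ω h * (Additive.toMul v).1 * (MulAction.toPermHom H Ω h)⁻¹) *
          (MulAction.toPermHom H Ω h * (Additive.toMul w).1 * (MulAction.toPermHom H Ω h)⁻¹)
        group }⟩

theorem caseB [Finite Ω] (N : Subgroup H) (hN : N.Normal)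
    (hNk : ∀ h : H, (∀ x : Ω, h • x = x) → h ∈ N)
    (hmin : ∀ M : Subgroup H, M.Normal → M ≤ N → (∀ h : H, (∀ x : Ω, h • x = x) → h ∈ M) →
        (∃ m ∈ M, ∃ x : Ω, m • x ≠ x) → M = N)
    (hab : ∀ a ∈ N, ∀ b ∈ N, ∀ x : Ω, a • b • x = b • a • x) (w0 : Ω)
    (htr : ∀ x y : Ω, ∃ n ∈ N, n • x = y) :
    ∃ (V : Type) (_ : AddCommGroup V) (_ : Finite V) (_ : DistribMulAction H V),
      Nat.card V = Nat.card Ω ∧ Irr H V ∧
      ∀ S : Subgroup H, TrivOn S V → TrivOn ⁅S, S⁆ Ω := by
  classical
  let φ : H →* Equiv.Perm Ω := MulAction.toPermHom H Ω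
  have hφ : ∀ h : H, ∀ x : Ω, φ h x = h • x := fun _ _ => rfl
  have hker : ∀ h : H, φ h = 1 ↔ ∀ x : Ω, h • x = x := by
    intro h
    constructor
    · intro h1 x
      rw [← hφ, h1]
      rfl
    · intro h1
      ext x
      rw [hφ, h1]
      rfl
  set P : Subgroup (Equiv.Perm Ω) := N.map φ with hPdef
  have hc : ∀ a ∈ P, ∀ b ∈ P, a * b = b * a := by
    rintro _ ⟨a, ha, rfl⟩ _ ⟨b, hb, rfl⟩
    ext x
    exact hab a ha b hb x
  have hP : ∀ (h : H), ∀ a ∈ P, φ h * a * (φ h)⁻¹ ∈ P := by
    rintro h _ ⟨a, ha, rfl⟩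
    refine ⟨h * a * h⁻¹, hN.conj_mem a ha h, ?_⟩
    rw [map_mul, map_mul, map_inv]
  -- regularity
  have hreg : ∀ c : Equiv.Perm Ω, (∀ a ∈ P, c * a = a * c) → c w0 = w0 → c = 1 := by
    intro c hcc hc0
    ext x
    obtain ⟨n, hn, hnx⟩ := htr w0 x
    have h1 := congrArg (fun σ : Equiv.Perm Ω => σ w0) (hcc (φ n) ⟨n, hn, rfl⟩)
    simp only [Equiv.Perm.mul_apply] at h1
    rw [hc0, hφ, hnx] at h1
    rw [h1]
    rfl
  have hcent : ∀ c : Equiv.Perm Ω, (∀ a ∈ P, c * a = a * c) → c ∈ P := by
    intro c hcc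
    obtain ⟨n, hn, hnx⟩ := htr w0 (c w0)
    have hnP : φ n ∈ P := ⟨n, hn, rfl⟩
    have h1 : (φ n)⁻¹ * c = 1 := by
      apply hreg
      · intro a ha
        have e1 := hcc a ha
        have e2 := hc (φ n) hnP a ha
        have e3 : (φ n)⁻¹ * a = a * (φ n)⁻¹ := by
          rw [inv_mul_eq_iff_eq_mul, ← mul_assoc, ← e2.symm, mul_assoc, mul_inv_cancel, mul_one]
        rw [mul_assoc, e1, ← mul_assoc, e3, mul_assoc]
      · rw [Equiv.Perm.mul_apply]
        rw [Equiv.Perm.inv_eq_iff_eq]
        exact hnx.symm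
    have h2 : c = φ n := by
      rw [inv_mul_eq_one] at h1
      exact h1.symm
    rw [h2]
    exact hnP
  let V : Type := Additive P
  let inst1 : AddCommGroup V := (conjAct (H := H) P hc hP).1
  let inst2 : DistribMulAction H V := (conjAct (H := H) P hc hP).2
  have hsm : ∀ (h : H) (v : P), (Additive.toMul (h • (Additive.ofMul v : V))).1 =
      φ h * v.1 * (φ h)⁻¹ := fun _ _ => rfl
  refine ⟨V, inst1, inferInstanceAs (Finite (Additive P)), inst2, ?_, ?_, ?_⟩
  · apply Nat.card_congr
    refine Equiv.ofBijective (fun v : V => (Additive.toMul v).1 w0) ⟨?_, ?_⟩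
    · intro v w hvw
      simp only at hvw
      apply Additive.toMul.injective
      apply Subtype.ext
      have h1 : ((Additive.toMul v).1)⁻¹ * (Additive.toMul w).1 = 1 := by
        have hmem : ((Additive.toMul v).1)⁻¹ * (Additive.toMul w).1 ∈ P :=
          P.mul_mem (P.inv_mem (Additive.toMul v).2) (Additive.toMul w).2
        apply hreg
        · intro a ha
          exact hc _ hmem a ha
        · rw [Equiv.Perm.mul_apply, ← hvw, Equiv.Perm.inv_eq_iff_eq]
      rw [inv_mul_eq_one] at h1
      exact h1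
    · intro x
      obtain ⟨n, hn, hnx⟩ := htr w0 x
      exact ⟨Additive.ofMul ⟨φ n, n, hn, rfl⟩, hnx⟩
  · intro W hW
    let M : Subgroup H :=
      { carrier := {h | ∃ hm : φ h ∈ P, (Additive.ofMul (⟨φ h, hm⟩ : P) : V) ∈ W}
        mul_mem' := by
          rintro a b ⟨ha, ha2⟩ ⟨hb, hb2⟩
          refine ⟨by rw [map_mul]; exact P.mul_mem ha hb, ?_⟩
          have := W.add_mem ha2 hb2
          convert this using 1
          apply Additive.toMul.injective
          apply Subtype.ext
          exact map_mul φ a b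
        one_mem' := by
          refine ⟨by rw [map_one]; exact P.one_mem, ?_⟩
          have := W.zero_mem
          convert this using 1
          apply Additive.toMul.injective
          apply Subtype.ext
          exact map_one φ
        inv_mem' := by
          rintro a ⟨ha, ha2⟩
          refine ⟨by rw [map_inv]; exact P.inv_mem ha, ?_⟩
          have := W.neg_mem ha2
          convert this using 1
          apply Additive.toMul.injective
          apply Subtype.ext
          exact map_inv φ a }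
    have hMmem : ∀ h : H, h ∈ M ↔ ∃ hm : φ h ∈ P, (Additive.ofMul (⟨φ h, hm⟩ : P) : V) ∈ W :=
      fun _ => Iff.rfl
    have hMn : M.Normal := by
      refine ⟨fun m hm g => ?_⟩
      obtain ⟨h1, h2⟩ := hm
      have h3 := hW g _ h2
      refine ⟨by rw [map_mul, map_mul, map_inv]; exact hP g _ h1, ?_⟩
      convert h3 using 1
      apply Additive.toMul.injective
      apply Subtype.ext
      change φ (g * m * g⁻¹) = φ g * φ m * (φ g)⁻¹
      rw [map_mul, map_mul, map_inv]
    have hMk : ∀ h : H, (∀ x : Ω, h • x = x) → h ∈ M := by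
      intro h hh
      rw [← hker] at hh
      rw [hMmem]
      refine ⟨by rw [hh]; exact P.one_mem, ?_⟩
      have := W.zero_mem
      convert this using 1
      apply Additive.toMul.injective
      apply Subtype.ext
      exact hh
    have hMN : M ≤ N := by
      rintro h ⟨⟨n, hn, hn2⟩, _⟩
      have h1 : n⁻¹ * h ∈ N := by
        apply hNk
        rw [← hker, map_mul, map_inv, hn2, inv_mul_cancel]
      have h2 := N.mul_mem hn h1
      rwa [mul_inv_cancel_left] at h2
    by_cases hMt : ∃ m ∈ M, ∃ x : Ω, m • x ≠ x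
    · right
      have hMN2 := hmin M hMn hMN hMk hMt
      rw [eq_top_iff]
      intro v _
      obtain ⟨n, hn, hn2⟩ := (Additive.toMul v).2
      rw [← hMN2] at hn
      obtain ⟨h1, h2⟩ := hn
      convert h2 using 1
      apply Additive.toMul.injective
      apply Subtype.ext
      exact hn2.symm
    · left
      push Not at hMt
      rw [eq_bot_iff]
      intro v hv
      obtain ⟨n, hn, hn2⟩ := (Additive.toMul v).2
      have h1 : n ∈ M := by
        rw [hMmem]
        refine ⟨⟨n, hn, rfl⟩, ?_⟩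
        convert hv using 1
        apply Additive.toMul.injective
        apply Subtype.ext
        exact hn2
      have h2 := hMt n h1
      rw [← hker] at h2
      rw [AddSubgroup.mem_bot]
      apply Additive.toMul.injective
      apply Subtype.ext
      change (Additive.toMul v).1 = 1
      rw [← hn2, h2]
  · intro S hS
    have hSP : ∀ s ∈ S, φ s ∈ P := by
      intro s hs
      apply hcent
      intro a ha
      have h1 := congrArg (fun v : V => (Additive.toMul v).1) (hS s hs (Additive.ofMul ⟨a, ha⟩))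
      have h2 : φ s * a * (φ s)⁻¹ = a := h1
      rw [mul_inv_eq_iff_eq_mul] at h2
      exact h2
    have h3 : ⁅S, S⁆ ≤ φ.ker := by
      rw [Subgroup.commutator_le]
      intro a ha b hb
      rw [MonoidHom.mem_ker, map_commutatorElement, commutatorElement_eq_one_iff_mul_comm]
      exact hc _ (hSP a ha) _ (hSP b hb)
    intro h hh x
    exact (hker h).mp (h3 hh) x

end

end Trans

theorem trans_dich (H : Type) [Group H] [Group.IsSolvable H] (Ω : Type) [Finite Ω] [MulAction H Ω]
    [MulAction.IsPretransitive H Ω] (hk : 2 ≤ Nat.card Ω) :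
    (∃ (Ω' : Type) (_ : Finite Ω') (_ : MulAction H Ω') (_ : MulAction.IsPretransitive H Ω')
      (K : Subgroup H) (O : Type) (_ : Finite O) (_ : MulAction K O)
      (_ : MulAction.IsPretransitive K O), (∀ h : H, h ∈ K ↔ ∀ x : Ω', h • x = x) ∧
      2 ≤ Nat.card Ω' ∧ 2 ≤ Nat.card O ∧ Nat.card Ω' * Nat.card O = Nat.card Ω ∧
      ∀ S : Subgroup K, (S.map K.subtype).Normal → TrivOn S O → TrivOn (S.map K.subtype) Ω) ∨
    (∃ (V : Type) (_ : AddCommGroup V) (_ : Finite V) (_ : DistribMulAction H V),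
      Nat.card V = Nat.card Ω ∧ Irr H V ∧
      ∀ S : Subgroup H, TrivOn S V → TrivOn ⁅S, S⁆ Ω) := by
  obtain ⟨N, hN, hNt, hNk, hmin, hab⟩ := Trans.exists_min (H := H) (Ω := Ω) hk
  by_cases htr : ∀ x y : Ω, ∃ n ∈ N, n • x = y
  · right
    have : Nonempty Ω := by
      have h1 : 0 < Nat.card Ω := by omega
      exact (Nat.card_pos_iff.mp h1).1
    obtain ⟨w0⟩ := this
    exact Trans.caseB N hN hNk hmin hab w0 htr
  · left
    exact Trans.caseA N hN hNt htr

end Pool.Agent.Helper59.Gap
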